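import Pool.Agent.Helper4.SH.Scale
import Pool.Agent.Helper4.SH.GMV
import Pool.Agent.Helper4.SH.PPow

/-!
# PP: a positive proportion of small gaps (constant `0.535`), unconditional (MP_8958e8). Definitions.

README: /team-store/h69_PP_README.md. `L = log T`. Primes `p ≥ T^δ` are put into cells `ce G T p = ⌈G log p/L⌉`; the type of
`n` is the set of the cells of its prime factors; only squarefree `n` with prime factors in distinct cells are used (`Gd`).
-/

open MeasureTheory Set Filter Topology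
open Pool.Agent.Helper57.Zeta Pool.Agent.Helper57.PC Pool.Agent.Helper57.LH Pool.Agent.Helper78.SG
open Pool.Agent.Helper4.SH
open scoped ContDiff

namespace Pool.Agent.Helper69.PP

/-! ### Zero side, general window length `c` -/

/-- Close zeros at height `T`: multiple, or another zero within `c` mean spacings. -/
def CloseC (c T : ℝ) (ρ : ZS) : Prop :=
  2 ≤ analyticOrderNatAt xi (ρ : ℂ) ∨
    ∃ ρ' : ZS, ρ' ≠ ρ ∧ |(ρ : ℂ).im - (ρ' : ℂ).im| * Real.log T / (2 * Real.pi) ≤ c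

open Classical in
/-- the zeros of `[0, T]` that are not close -/
noncomputable def IZc (c T : ℝ) : Finset ZS := (ZT T).filter (fun ρ => ¬ CloseC c T ρ)

open Classical in
/-- the close zeros of `[0, T]` -/
noncomputable def CZc (c T : ℝ) : Finset ZS := (ZT T).filter (CloseC c T)

/-- half the window: `c/2` mean spacings -/
noncomputable def hwc (c T : ℝ) : ℝ := Real.pi * c / Real.log T

/-- Fourier transform of the window of length `c`: `sin(π c y)/(π y)` -/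
noncomputable def SBc (c y : ℝ) : ℝ := c * Real.sinc (Real.pi * c * y)

/-- uniform integrability of `F (1 + |pss|)` with the weight `om` -/
def UIF (g f : TF) (s : ℝ) (F : ℝ → ℝ → ℝ) : Prop :=
  (∃ C : ℝ, 0 < C ∧ ∀ᶠ T : ℝ in atTop, ∫ t, om g.h T t * (|F T t| * (1 + |pss f.h s T t|)) ≤ C * T) ∧
  ∀ ε : ℝ, 0 < ε → ∃ η : ℝ, 0 < η ∧ ∀ᶠ T : ℝ in atTop, ∀ B : Set ℝ, MeasurableSet B →
    volume B ≤ ENNReal.ofReal (η * T) → ∫ t in B, om g.h T t * (|F T t| * (1 + |pss f.h s T t|)) ≤ ε * T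

/-! ### Parameters -/

/-- `c`: window; `δ`: sifting level `T^δ`; `e`: slack; `G`: number of cells. -/
structure Par where
  /-- window -/
  c : ℝ
  /-- sifting level -/
  δ : ℝ
  /-- slack -/
  e : ℝ
  /-- number of cells -/
  G : ℕ
  hc : 0 < c
  hc1 : c < 1
  hδ : 0 < δ
  hδ1 : δ ≤ 1 / 100
  he : 0 < e
  he1 : e ≤ 1 / 1000
  hG0 : 0 < G
  hG : (2 * (⌈1 / δ⌉₊ : ℝ) + 2) / G ≤ e / 2

/-- bound for the number of prime factors `≥ T^δ` of a number `≤ T` -/
noncomputable def Par.K (P : Par) : ℕ := ⌈1 / P.δ⌉₊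

/-! ### Cells and types -/

/-- the cell of a prime -/
noncomputable def ce (G : ℕ) (T : ℝ) (p : ℕ) : ℕ := ⌈G * Real.log p / Real.log T⌉₊

/-- the type of `n`: the set of the cells of its prime factors -/
noncomputable def ty (G : ℕ) (T : ℝ) (n : ℕ) : Finset ℕ := n.primeFactors.image (ce G T)

/-- the size of a type (in cells) -/
def US (τ : Finset ℕ) : ℕ := ∑ l ∈ τ, l

/-- all prime factors are `≥ T^δ` -/
def RF (δ T : ℝ) (n : ℕ) : Prop := n ≠ 0 ∧ ∀ p ∈ n.primeFactors, T ^ δ ≤ (p : ℝ)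

/-- good numbers: `≤ T`, squarefree, prime factors `≥ T^δ` and in distinct cells -/
def Gd (P : Par) (T : ℝ) (n : ℕ) : Prop :=
  RF P.δ T n ∧ Squarefree n ∧ Set.InjOn (ce P.G T) (n.primeFactors : Set ℕ) ∧ (n : ℝ) ≤ T

/-- types of the numerators: size at most `1/2 - e` -/
def TA (P : Par) (τ : Finset ℕ) : Prop := (US τ : ℝ) ≤ (1 / 2 - P.e) * P.G

/-- types of the denominators: two parts of sizes at most `1/3, 1/7` or `1/4, 1/5` -/
def TB (P : Par) (τ : Finset ℕ) : Prop :=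
  ∃ σ ⊆ τ, ((US σ : ℝ) ≤ (1 / 3 - P.e) * P.G ∧ (US (τ \ σ) : ℝ) ≤ (1 / 7 - P.e) * P.G) ∨
    ((US σ : ℝ) ≤ (1 / 4 - P.e) * P.G ∧ (US (τ \ σ) : ℝ) ≤ (1 / 5 - P.e) * P.G)

open Classical in
/-- numerators -/
noncomputable def NA (P : Par) (T : ℝ) : Finset ℕ :=
  (Finset.range (⌊T⌋₊ + 1)).filter (fun n => Gd P T n ∧ TA P (ty P.G T n))

open Classical in
/-- denominators -/
noncomputable def NB (P : Par) (T : ℝ) : Finset ℕ :=
  (Finset.range (⌊T⌋₊ + 1)).filter (fun n => Gd P T n ∧ TB P (ty P.G T n))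

/-- the index set: coprime pairs -/
noncomputable def IX (P : Par) (T : ℝ) : Finset (ℕ × ℕ) :=
  ((NA P T) ×ˢ (NB P T)).filter (fun x => Nat.Coprime x.1 x.2)

/-! ### The weight -/

/-- Liouville function, real valued -/
noncomputable def lam (n : ℕ) : ℝ := (-1) ^ (ArithmeticFunction.cardFactors n)

/-- the coefficient `λ(m) λ(n) (mn)^(-1/2)` -/
noncomputable def cfn (x : ℕ × ℕ) : ℝ := lam x.1 * lam x.2 / Real.sqrt (x.1 * x.2)

/-- the frequency of a pair -/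
noncomputable def phn (x : ℕ × ℕ) : ℝ := Real.log x.1 - Real.log x.2

/-- net size of a pair (in cells) -/
noncomputable def vv (P : Par) (T : ℝ) (x : ℕ × ℕ) : ℤ := (US (ty P.G T x.1) : ℤ) - US (ty P.G T x.2)

/-- the class of a pair of pairs -/
noncomputable def dk (P : Par) (T : ℝ) (x y : ℕ × ℕ) : ℕ := (vv P T x - vv P T y).natAbs

/-- the class numbers that occur -/
noncomputable def KR (P : Par) : Finset ℕ := Finset.range (⌊(41 / 42 : ℝ) * P.G⌋₊ + 1)

/-- the weight `|M|²` -/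
noncomputable def FF (P : Par) (T t : ℝ) : ℝ :=
  ∑ x ∈ IX P T, ∑ y ∈ IX P T, cfn x * cfn y * Real.cos (t * (phn x - phn y))

/-- the part of `|M|²` of class `k` -/
noncomputable def FK (P : Par) (k : ℕ) (T t : ℝ) : ℝ :=
  ∑ x ∈ IX P T, ∑ y ∈ IX P T, if dk P T x y = k then cfn x * cfn y * Real.cos (t * (phn x - phn y)) else 0

/-- the mean value of `|M|²` -/
noncomputable def AT (P : Par) (T : ℝ) : ℝ := ∑ x ∈ IX P T, 1 / ((x.1 : ℝ) * x.2)

/-- the weight of `n` in the prime sum: `∑_{p | n} 2 y_p SB(y_p)` -/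
noncomputable def Wn (c T : ℝ) (n : ℕ) : ℝ := ∑ p ∈ n.primeFactors, 2 * yy T p * SBc c (yy T p)

/-- minus the mean value of `|M|²` times the prime sum -/
noncomputable def BT (P : Par) (T : ℝ) : ℝ := ∑ x ∈ IX P T, 1 / ((x.1 : ℝ) * x.2) * (Wn P.c T x.1 + Wn P.c T x.2)

/-- the kernel of class `k` (scale `s = 2`): equal to the Fourier transform of the window on the frequencies of class `k` -/
def KF (P : Par) (k : ℕ) (f : TF) : Prop :=
  (∀ y : ℝ, |y| ≤ (k + 2 * P.K) / P.G / 2 → f.h y = SBc P.c (2 * y)) ∧ f.th ≤ ((k + 2 * P.K) / P.G + P.e / 4) / 2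

/-! ### Cell polynomials -/

open Classical in
/-- the primes of the cell `l` -/
noncomputable def PC (P : Par) (l : ℕ) (T : ℝ) : Finset ℕ :=
  (PP T).filter (fun p => T ^ P.δ ≤ (p : ℝ) ∧ ce P.G T p = l)

/-- Dirichlet polynomial `∑ c(n) n^(it)` -/
noncomputable def DP (S : Finset ℕ) (c : ℕ → ℝ) (t : ℝ) : ℂ :=
  ∑ n ∈ S, (c n : ℂ) * Complex.exp (((t * Real.log n : ℝ) : ℂ) * Complex.I)

/-- the cell polynomial `∑_{p ∈ cell l} p^(-1/2+it)` -/
noncomputable def Pl (P : Par) (l : ℕ) (T t : ℝ) : ℂ := DP (PC P l T) (fun p => 1 / Real.sqrt p) t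

/-- `1 + |P_l|` -/
noncomputable def Rl (P : Par) (T t : ℝ) (l : ℕ) : ℝ := 1 + ‖Pl P l T t‖

/-- `∑_{p ∈ cell l} 1/p` -/
noncomputable def Wl (P : Par) (l : ℕ) (T : ℝ) : ℝ := ∑ p ∈ PC P l T, 1 / (p : ℝ)

/-- admissible coefficients: `|c(n)| ≤ K WW(n)`, at most `d` prime factors, all `≤ T`, `n ≤ T^θ` -/
def Adm (K : ℝ) (d : ℕ) (θ T : ℝ) (S : Finset ℕ) (c : ℕ → ℝ) : Prop :=
  ∀ n ∈ S, n ≠ 0 ∧ n.primeFactorsList.length ≤ d ∧ (∀ p ∈ n.primeFactorsList, p ∈ PP T) ∧ |c n| ≤ K * WW T n ∧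
    (n : ℝ) ≤ T ^ θ

end Pool.Agent.Helper69.PP
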