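import Pool.Agent.Helper69.PP.Defs
import Pool.Agent.Helper4.PPZ.Swap
import Pool.Agent.Helper4.PPZ.Transfer
import Pool.Agent.Helper4.SH.Swap
import Pool.Agent.Helper4.SH.Upper
import Pool.Agent.Helper4.SH.Transfer
import Pool.Agent.Helper4.SH.OneSide
import Pool.Agent.Helper4.SH.Pairs

/-!
# PP-Z: the zero side for a general window length `c ∈ (0, 1)`

Generalisation of Helper4/SH (Iso, HardCore, Scale.weak_s, Scale.dev_s, Swap, Transfer, Upper, OneSide, Pairs, Main.part_lower) from `68/100`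
and `CloseB` to `c` and `CloseC`, with uniform integrability (`UIF`) instead of an `L²` bound for `F`.
-/

open MeasureTheory Set Filter Topology
open Pool.Agent.Helper57.Zeta Pool.Agent.Helper57.PC Pool.Agent.Helper57.LH Pool.Agent.Helper78.SG
open Pool.Agent.Helper4.SH
open scoped ContDiff

namespace Pool.Agent.Helper69.PP

/-- the lower bound for one part `F` of the weight -/
theorem part_lower {c : ℝ} (hc : 0 < c) (hc1 : c < 1) (g f : TF) (hg : g.th = 1 / 4) (hg0 : ∀ x, 0 ≤ g.h x)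
    (hg1 : ∀ x, g.h x ≤ 1) {s : ℝ} (hs : s = 1 ∨ s = 2) (F : ℝ → ℝ → ℝ) (hFc : ∀ T, Continuous (F T))
    (hFb : ∃ κ C0 : ℝ, κ < 1 ∧ ∀ᶠ T : ℝ in atTop, ∀ t, |F T t| ≤ C0 * T ^ κ)
    (hui : UIF g f s F)
    (hwin : ∀ᶠ T : ℝ in atTop, ∀ γ : ℝ, ∫ t in (γ - hwc c T)..(γ + hwc c T), F T t = ∫ t, F T t * krs f.h s T (t - γ))
    {ε : ℝ} (hε : 0 < ε) : ∃ p : ℝ, 0 < p ∧ ∀ᶠ T : ℝ in atTop, ∑ ρ ∈ CZc c T, mx ρ ≤ p * (T * Real.log T) →
      |(∑ ρ ∈ IZc c T, om g.h T (ρ : ℂ).im * (∫ t in ((ρ : ℂ).im - hwc c T)..((ρ : ℂ).im + hwc c T), F T t)) -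
        (f.h 0 * (∫ t, om g.h T t * F T t) - ∫ t, om g.h T t * (F T t * pss f.h s T t))| ≤ ε * T := by
  have hs1 : 1 ≤ s := by rcases hs with h | h <;> rw [h] <;> norm_num
  have hs2 : s ≤ 2 := by rcases hs with h | h <;> rw [h] <;> norm_num
  obtain ⟨p, hp, htr⟩ := transfer_c hc g f hg hg0 hs1 hs2 F hFc hui (half_pos hε)
  refine ⟨p, hp, ?_⟩
  filter_upwards [htr, swap_c c g f hs1 F hFc hFb (half_pos hε), hwin, eventually_gt_atTop 1] with T h1 h2 h3 hT hcl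
  have hT0 : 0 < T := by linarith
  have h1' := h1 hcl
  have h5 : (∑ ρ ∈ IZc c T, om g.h T (ρ : ℂ).im * (∫ t in ((ρ : ℂ).im - hwc c T)..((ρ : ℂ).im + hwc c T), F T t)) =
      ∑ ρ ∈ IZc c T, om g.h T (ρ : ℂ).im * ∫ t, F T t * krs f.h s T (t - (ρ : ℂ).im) := by
    refine Finset.sum_congr rfl fun ρ _ => ?_
    rw [h3]
  have i1 : Integrable (fun t => om g.h T t * F T t) := om_integrable g hg hT0 (hFc T)
  have i2 : Integrable (fun t => om g.h T t * (F T t * pss f.h s T t)) :=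
    om_integrable g hg hT0 ((hFc T).mul (pss_cont f.h s T))
  have h6 : ∫ t, om g.h T t * (F T t * (f.h 0 - pss f.h s T t)) =
      f.h 0 * (∫ t, om g.h T t * F T t) - ∫ t, om g.h T t * (F T t * pss f.h s T t) := by
    rw [← integral_const_mul, ← integral_sub (i1.const_mul _) i2]
    refine integral_congr_ae (Eventually.of_forall fun t => ?_)
    simp only
    ring
  rw [h5]
  rw [h6] at h1'
  have e1 := abs_le.mp h1'
  have e2 := abs_le.mp h2
  rw [abs_le]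
  constructor <;> linarith [e1.1, e1.2, e2.1, e2.2]

/-- the upper bound: at most one zero in each window -/
theorem upper_c {c : ℝ} (hc : 0 < c) (hc1 : c < 1) (g : TF) (hg : g.th = 1 / 4) (hg0 : ∀ x, 0 ≤ g.h x)
    (F : ℝ → ℝ → ℝ) (hFc : ∀ T, Continuous (F T)) (hF0 : ∀ T t, 0 ≤ F T t)
    (hFb : ∃ κ C0 : ℝ, κ < 1 ∧ ∀ᶠ T : ℝ in atTop, ∀ t, |F T t| ≤ C0 * T ^ κ)
    {ε : ℝ} (hε : 0 < ε) : ∀ᶠ T : ℝ in atTop,
    ∑ ρ ∈ IZc c T, om g.h T (ρ : ℂ).im * (∫ t in ((ρ : ℂ).im - hwc c T)..((ρ : ℂ).im + hwc c T), F T t) ≤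
      (∫ t, om g.h T t * F T t) + ε * T := by
  obtain ⟨κ, C0, hκ, hFb⟩ := hFb
  obtain ⟨K, hK⟩ := ContDiff.lipschitzWith_of_hasCompactSupport (𝕂 := ℝ) (up_TF_hcs g) g.smooth (by simp)
  have hKd : ∀ x y, |g.h x - g.h y| ≤ K * |x - y| := fun x y => by
    have := hK.dist_le_mul x y
    rwa [Real.dist_eq, Real.dist_eq] at this
  have hK0 : (0 : ℝ) ≤ K := K.2
  have hlog : ∀ᶠ T : ℝ in atTop, Real.pi * c ≤ Real.log T :=
    Real.tendsto_log_atTop.eventually_ge_atTop _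
  filter_upwards [pow_ev (3 * (K : ℝ) * C0) hκ hε, hlog, eventually_gt_atTop 2, hFb] with T hp hl hT2 hFb
  have hT : 1 < T := by linarith
  have hT0 : 0 < T := by linarith
  have hL : 0 < Real.log T := Real.log_pos hT
  have hw0 : 0 < hwc c T := by unfold hwc; positivity
  have hw1 : hwc c T ≤ 1 := by unfold hwc; rwa [div_le_one hL]
  set A0 : ℝ := C0 * T ^ κ with hA0d
  have hA0 : 0 ≤ A0 := (abs_nonneg _).trans (hFb 0)
  have hFb' : ∀ t, F T t ≤ A0 := fun t => (le_abs_self _).trans (hFb t)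
  set e : ℝ := K * hwc c T / T with he
  have he0 : 0 ≤ e := by positivity
  set G : ℝ → ℝ := fun t => (om g.h T t + e) * F T t with hG
  have hGc : Continuous G := ((up_om_cont g T).add continuous_const).mul (hFc T)
  have hom0 : ∀ t, 0 ≤ om g.h T t := fun t => hg0 _
  have hG0 : ∀ t, 0 ≤ G t := fun t => mul_nonneg (add_nonneg (hom0 t) he0) (hF0 T t)
  set A : ZS → Set ℝ := fun ρ => Ioc ((ρ : ℂ).im - hwc c T) ((ρ : ℂ).im + hwc c T) with hA
  -- one window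
  have hone : ∀ ρ ∈ IZc c T, om g.h T (ρ : ℂ).im *
      (∫ t in ((ρ : ℂ).im - hwc c T)..((ρ : ℂ).im + hwc c T), F T t) ≤ ∫ t in A ρ, G t := by
    intro ρ _
    rw [intervalIntegral.integral_of_le (by linarith), ← integral_const_mul]
    apply setIntegral_mono_on
    · exact ((continuous_const.mul (hFc T)).integrableOn_Icc).mono_set Ioc_subset_Icc_self
    · exact (hGc.integrableOn_Icc).mono_set Ioc_subset_Icc_self
    · exact measurableSet_Ioc
    · intro t ht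
      apply mul_le_mul_of_nonneg_right _ (hF0 T t)
      unfold Pool.Agent.Helper4.SH.om
      have h1 := hKd ((ρ : ℂ).im / T - 1 / 2) (t / T - 1 / 2)
      have h2 : |((ρ : ℂ).im / T - 1 / 2) - (t / T - 1 / 2)| ≤ hwc c T / T := by
        have h3 : ((ρ : ℂ).im / T - 1 / 2) - (t / T - 1 / 2) = ((ρ : ℂ).im - t) / T := by ring
        rw [h3, abs_div, abs_of_pos hT0]
        apply div_le_div_of_nonneg_right _ hT0.le
        rw [abs_le]
        constructor <;> linarith [ht.1, ht.2]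
      have h3 : (K : ℝ) * |((ρ : ℂ).im / T - 1 / 2) - (t / T - 1 / 2)| ≤ e := by
        rw [he, mul_div_assoc]
        exact mul_le_mul_of_nonneg_left h2 hK0
      have h4 := le_abs_self (g.h ((ρ : ℂ).im / T - 1 / 2) - g.h (t / T - 1 / 2))
      linarith
  have hsub : (⋃ ρ ∈ IZc c T, A ρ) ⊆ Icc (-1) (T + 1) := by
    intro t ht
    rw [mem_iUnion₂] at ht
    obtain ⟨ρ, hρ, h1, h2⟩ := ht
    obtain ⟨h3, h4⟩ := IZc_im hρ
    constructor <;> linarith
  have hdisj : Set.Pairwise (↑(IZc c T)) (Function.onFun Disjoint A) := by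
    intro ρ hρ ρ' hρ' hne
    rw [Function.onFun, Set.disjoint_left]
    intro t h1 h2
    have h3 := IZc_sep hc hT (Finset.mem_coe.1 hρ) (Ne.symm hne)
    have h4 : |(ρ : ℂ).im - (ρ' : ℂ).im| ≤ 2 * hwc c T := by
      rw [abs_le]
      constructor <;> linarith [h1.1, h1.2, h2.1, h2.2]
    linarith
  have hsum : ∑ ρ ∈ IZc c T, ∫ t in A ρ, G t = ∫ t in ⋃ ρ ∈ IZc c T, A ρ, G t := by
    rw [integral_biUnion_finset (IZc c T) (fun ρ _ => measurableSet_Ioc) hdisj]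
    intro ρ _
    exact (hGc.integrableOn_Icc).mono_set Ioc_subset_Icc_self
  have hle1 : ∑ ρ ∈ IZc c T, om g.h T (ρ : ℂ).im *
      (∫ t in ((ρ : ℂ).im - hwc c T)..((ρ : ℂ).im + hwc c T), F T t) ≤ ∫ t in Icc (-1) (T + 1), G t := by
    refine le_trans (Finset.sum_le_sum hone) ?_
    rw [hsum]
    apply setIntegral_mono_set hGc.integrableOn_Icc
    · exact Eventually.of_forall hG0
    · exact hsub.eventuallyLE
  have hint1 : IntegrableOn (fun t => om g.h T t * F T t) (Icc (-1) (T + 1)) :=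
    ((up_om_cont g T).mul (hFc T)).integrableOn_Icc
  have hint2 : IntegrableOn (fun t => e * F T t) (Icc (-1) (T + 1)) :=
    (continuous_const.mul (hFc T)).integrableOn_Icc
  have hsplit : ∫ t in Icc (-1) (T + 1), G t =
      (∫ t in Icc (-1) (T + 1), om g.h T t * F T t) + ∫ t in Icc (-1) (T + 1), e * F T t := by
    rw [← integral_add hint1 hint2]
    congr 1
    funext t
    simp only [hG]
    ring
  have hfull : ∫ t in Icc (-1) (T + 1), om g.h T t * F T t = ∫ t, om g.h T t * F T t := by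
    apply setIntegral_eq_integral_of_forall_compl_eq_zero
    intro t ht
    rw [up_om_zero g hT0 _, zero_mul]
    intro h
    exact ht ⟨by linarith [h.1], by linarith [h.2]⟩
  have hvol : (volume : Measure ℝ).real (Icc (-1) (T + 1)) = T + 2 := by
    rw [Real.volume_real_Icc_of_le (by linarith)]
    ring
  have herr : ∫ t in Icc (-1) (T + 1), e * F T t ≤ ε * T := by
    have h1 : ∫ t in Icc (-1) (T + 1), e * F T t ≤ ∫ t in Icc (-1) (T + 1), e * A0 := by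
      apply setIntegral_mono_on hint2 continuous_const.integrableOn_Icc measurableSet_Icc
      intro t _
      exact mul_le_mul_of_nonneg_left (hFb' t) he0
    rw [setIntegral_const, hvol, smul_eq_mul] at h1
    refine le_trans h1 (le_trans ?_ hp)
    have h2 : (T + 2) / T ≤ 3 := by
      rw [div_le_iff₀ hT0]; linarith
    have h3 : (T + 2) * (e * A0) = ((T + 2) / T) * hwc c T * (K * A0) := by
      rw [he]; field_simp
    rw [h3]
    have h4 : (T + 2) / T * hwc c T ≤ 3 * 1 :=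
      mul_le_mul h2 hw1 hw0.le (by norm_num)
    have h5 : 0 ≤ (K : ℝ) * A0 := by positivity
    have h6 := mul_le_mul_of_nonneg_right h4 h5
    calc (T + 2) / T * hwc c T * (K * A0) ≤ 3 * 1 * (K * A0) := h6
      _ = 3 * K * C0 * T ^ κ := by rw [hA0d]; ring
  calc _ ≤ _ := hle1
    _ = _ := hsplit
    _ ≤ _ := by rw [hfull]; linarith

/-- the zero is multiple or another zero lies at most `c` mean spacings above it (or level with it) -/
def CloseUpC (c T : ℝ) (ρ : ZS) : Prop :=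
  2 ≤ analyticOrderNatAt xi (ρ : ℂ) ∨
    ∃ ρ' : ZS, ρ' ≠ ρ ∧ 0 ≤ (ρ' : ℂ).im - (ρ : ℂ).im ∧
      ((ρ' : ℂ).im - (ρ : ℂ).im) * Real.log T / (2 * Real.pi) ≤ c

open Classical in
theorem one_side_c {c : ℝ} (hc : 0 < c) (hc1 : c < 1) {p : ℝ} (hp : 0 < p)
    (h : ∀ᶠ T : ℝ in atTop, p * (T * Real.log T) ≤ ∑ ρ ∈ CZc c T, mx ρ) :
    ∀ᶠ T : ℝ in atTop, p / 4 * (T * Real.log T) ≤ ∑ ρ ∈ (ZT T).filter (CloseUpC c T), mx ρ := by
  have h1 : ∀ᶠ T : ℝ in atTop, 2 * Real.pi * c ≤ Real.log T :=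
    Real.tendsto_log_atTop.eventually_ge_atTop _
  have h2 : ∀ᶠ T : ℝ in atTop, 2 * NT 1 / p ≤ T * Real.log T :=
    (tendsto_id.atTop_mul_atTop₀ Real.tendsto_log_atTop).eventually_ge_atTop _
  filter_upwards [h, h1, h2, eventually_gt_atTop 1] with T hT hT1 hT2 hT3
  have hlog : 0 < Real.log T := Real.log_pos hT3
  have hpi : 0 < 2 * Real.pi := by positivity
  unfold CZc at hT
  set A := (ZT T).filter (CloseC c T) with hA
  set Ap := (ZT T).filter (CloseUpC c T) with hAp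
  set B := A.filter (fun ρ => ¬ CloseUpC c T ρ) with hB
  have hsub : Ap = A.filter (CloseUpC c T) := by
    ext ρ
    simp only [hAp, hA, Finset.mem_filter]
    constructor
    · rintro ⟨h3, h4⟩
      refine ⟨⟨h3, ?_⟩, h4⟩
      rcases h4 with h4 | ⟨ρ', h5, h6, h7⟩
      · exact Or.inl h4
      · refine Or.inr ⟨ρ', h5, ?_⟩
        rw [abs_sub_comm, abs_of_nonneg h6]; exact h7
    · rintro ⟨⟨h3, _⟩, h4⟩
      exact ⟨h3, h4⟩
  have hsplit : ∑ ρ ∈ A, mx ρ = ∑ ρ ∈ Ap, mx ρ + ∑ ρ ∈ B, mx ρ := by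
    rw [hsub, hB, Finset.sum_filter_add_sum_filter_not]
  -- the neighbour below
  have hex : ∀ ρ ∈ B, ∃ ρ' : ZS, ρ' ≠ ρ ∧ (ρ' : ℂ).im < (ρ : ℂ).im ∧
      ((ρ : ℂ).im - (ρ' : ℂ).im) * Real.log T / (2 * Real.pi) ≤ c := by
    intro ρ hρ
    rw [hB, Finset.mem_filter, hA, Finset.mem_filter] at hρ
    obtain ⟨⟨_, h3⟩, h4⟩ := hρ
    rcases h3 with h3 | ⟨ρ', h5, h6⟩
    · exact absurd (Or.inl h3) h4
    · refine ⟨ρ', h5, ?_, ?_⟩
      · by_contra hcon
        rw [not_lt] at hcon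
        apply h4
        refine Or.inr ⟨ρ', h5, sub_nonneg.2 hcon, ?_⟩
        rwa [abs_sub_comm, abs_of_nonneg (sub_nonneg.2 hcon)] at h6
      · refine le_trans ?_ h6
        have := le_abs_self ((ρ : ℂ).im - (ρ' : ℂ).im)
        gcongr
  choose! P hP1 hP2 hP3 using hex
  have hmx : ∀ ρ ∈ B, mx ρ = 1 := by
    intro ρ hρ
    rw [hB, Finset.mem_filter] at hρ
    have h4 : ¬ (2 ≤ analyticOrderNatAt xi (ρ : ℂ)) := fun h5 => hρ.2 (Or.inl h5)
    have h5 : 1 ≤ mx ρ := mx_one_le ρ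
    unfold mx at h5 ⊢
    have h6 : 1 ≤ analyticOrderNatAt xi (ρ : ℂ) := by exact_mod_cast h5
    have h7 : analyticOrderNatAt xi (ρ : ℂ) = 1 := by omega
    rw [h7]; norm_num
  have hinj : Set.InjOn P (B : Set ZS) := by
    have key : ∀ ρ₁ ∈ B, ∀ ρ₂ ∈ B, P ρ₁ = P ρ₂ → ρ₁ ≠ ρ₂ → (ρ₁ : ℂ).im ≤ (ρ₂ : ℂ).im → False := by
      intro ρ₁ h3 ρ₂ h4 h5 h6 h7
      have h8 : ¬ CloseUpC c T ρ₁ := by
        rw [hB, Finset.mem_filter] at h3; exact h3.2
      apply h8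
      refine Or.inr ⟨ρ₂, h6.symm, sub_nonneg.2 h7, ?_⟩
      refine le_trans ?_ (hP3 ρ₂ h4)
      have h9 := hP2 ρ₁ h3
      rw [h5] at h9
      have : (ρ₂ : ℂ).im - (ρ₁ : ℂ).im ≤ (ρ₂ : ℂ).im - (P ρ₂ : ℂ).im := by linarith
      gcongr
    intro ρ₁ h3 ρ₂ h4 h5
    by_contra h6
    rcases le_total (ρ₁ : ℂ).im (ρ₂ : ℂ).im with h7 | h7
    · exact key ρ₁ h3 ρ₂ h4 h5 h6 h7
    · exact key ρ₂ h4 ρ₁ h3 h5.symm (fun h => h6 h.symm) h7
  have hmem : ∀ ρ ∈ B, 0 ≤ (ρ : ℂ).im ∧ (ρ : ℂ).im ≤ T := by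
    intro ρ hρ
    rw [hB, Finset.mem_filter, hA, Finset.mem_filter] at hρ
    exact mem_ZT.1 hρ.1.1
  -- split `B`
  have hc1 : ((B.filter (fun ρ => 0 ≤ (P ρ : ℂ).im)).card : ℝ) ≤ ∑ ρ ∈ Ap, mx ρ := by
    have h3 : (B.filter (fun ρ => 0 ≤ (P ρ : ℂ).im)).card ≤ Ap.card := by
      refine Finset.card_le_card_of_injOn P ?_ (hinj.mono ?_)
      · intro ρ hρ
        rw [Finset.mem_coe, Finset.mem_filter] at hρ
        obtain ⟨h4, h5⟩ := hρ
        rw [Finset.mem_coe, hAp, Finset.mem_filter]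
        have h6 := hP2 ρ h4
        refine ⟨mem_ZT.2 ⟨h5, ?_⟩, ?_⟩
        · linarith [(hmem ρ h4).2]
        · exact Or.inr ⟨ρ, (hP1 ρ h4).symm, by linarith, hP3 ρ h4⟩
      · intro ρ hρ
        rw [Finset.mem_coe, Finset.mem_filter] at hρ
        exact hρ.1
    calc ((B.filter (fun ρ => 0 ≤ (P ρ : ℂ).im)).card : ℝ) ≤ (Ap.card : ℝ) := by exact_mod_cast h3
      _ = ∑ ρ ∈ Ap, (1 : ℝ) := by simp
      _ ≤ ∑ ρ ∈ Ap, mx ρ := Finset.sum_le_sum fun ρ _ => mx_one_le ρ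
  have hc2 : ((B.filter (fun ρ => ¬ 0 ≤ (P ρ : ℂ).im)).card : ℝ) ≤ NT 1 := by
    have h3 : B.filter (fun ρ => ¬ 0 ≤ (P ρ : ℂ).im) ⊆ ZT 1 := by
      intro ρ hρ
      rw [Finset.mem_filter, not_le] at hρ
      obtain ⟨h4, h5⟩ := hρ
      refine mem_ZT.2 ⟨(hmem ρ h4).1, ?_⟩
      have h6 := hP3 ρ h4
      rw [div_le_iff₀ hpi] at h6
      have h7 : ((ρ : ℂ).im - (P ρ : ℂ).im) * Real.log T ≤ 1 * Real.log T := by linarith
      have h8 := le_of_mul_le_mul_right h7 hlog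
      linarith
    calc ((B.filter (fun ρ => ¬ 0 ≤ (P ρ : ℂ).im)).card : ℝ) ≤ ((ZT 1).card : ℝ) := by
          exact_mod_cast Finset.card_le_card h3
      _ = ∑ ρ ∈ ZT 1, (1 : ℝ) := by simp
      _ ≤ ∑ ρ ∈ ZT 1, mx ρ := Finset.sum_le_sum fun ρ _ => mx_one_le ρ
      _ = NT 1 := sum_ZT_mx 1
  have hB1 : ∑ ρ ∈ B, mx ρ = (B.card : ℝ) := by
    rw [Finset.sum_congr rfl hmx]; simp
  have hB2 : (B.card : ℝ) = ((B.filter (fun ρ => 0 ≤ (P ρ : ℂ).im)).card : ℝ)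
      + ((B.filter (fun ρ => ¬ 0 ≤ (P ρ : ℂ).im)).card : ℝ) := by
    exact_mod_cast (Finset.card_filter_add_card_filter_not (s := B) (fun ρ => 0 ≤ (P ρ : ℂ).im)).symm
  rw [div_le_iff₀ hp] at hT2
  nlinarith

open Classical in
/-- the inner sum -/
theorem inner_c {c T : ℝ} (hc : 0 < c) (hc1 : c < 1) (hL : 7 ≤ Real.log T) (ρ : ZS) (hρ : ρ ∈ ZT T) :
    mx (ρ : ℂ) + (if CloseC c T ρ ∧ 1 ≤ (ρ : ℂ).im ∧ (ρ : ℂ).im ≤ T - 1 then mx (ρ : ℂ) else 0) ≤
    ∑ ρ' ∈ ZT T,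
      (if nd T ((ρ : ℂ), (ρ' : ℂ)) ∈ Icc (-c) c
        then mx (ρ : ℂ) * mx (ρ' : ℂ) else 0) := by
  have hpi := Real.pi_pos
  have hm1 : 1 ≤ mx (ρ : ℂ) := mx_one_le ρ
  have hnn : ∀ ρ' ∈ ZT T, 0 ≤ (if nd T ((ρ : ℂ), (ρ' : ℂ)) ∈ Icc (-c) c
        then mx (ρ : ℂ) * mx (ρ' : ℂ) else 0) := by
    intro ρ' _
    split_ifs
    · exact mul_nonneg (mx_nonneg _) (mx_nonneg _)
    · exact le_rfl
  have hdiag : (if nd T ((ρ : ℂ), (ρ : ℂ)) ∈ Icc (-c) c
        then mx (ρ : ℂ) * mx (ρ : ℂ) else 0) = mx (ρ : ℂ) * mx (ρ : ℂ) := by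
    rw [if_pos]
    unfold nd
    simp only [sub_self, zero_mul, zero_div, mem_Icc]
    constructor <;> linarith
  have hone : mx (ρ : ℂ) * mx (ρ : ℂ) ≤ ∑ ρ' ∈ ZT T,
      (if nd T ((ρ : ℂ), (ρ' : ℂ)) ∈ Icc (-c) c
        then mx (ρ : ℂ) * mx (ρ' : ℂ) else 0) := by
    calc mx (ρ : ℂ) * mx (ρ : ℂ) = _ := hdiag.symm
      _ ≤ _ := Finset.single_le_sum (f := fun ρ' : ZS =>
          (if nd T ((ρ : ℂ), (ρ' : ℂ)) ∈ Icc (-c) c
            then mx (ρ : ℂ) * mx (ρ' : ℂ) else 0)) hnn hρ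
  split_ifs with hc
  · obtain ⟨hc1, hc2, hc3⟩ := hc
    rcases hc1 with hc1 | ⟨ρ', hne, hd⟩
    · have h2 : 2 ≤ mx (ρ : ℂ) := by
        unfold mx
        exact_mod_cast hc1
      refine le_trans ?_ hone
      nlinarith
    · have hd' : |(ρ : ℂ).im - (ρ' : ℂ).im| * Real.log T ≤ c * (2 * Real.pi) := by
        rwa [div_le_iff₀ (by positivity)] at hd
      have habs : |(ρ : ℂ).im - (ρ' : ℂ).im| ≤ 1 := by
        by_contra hgt
        push Not at hgt
        have h3 : Real.pi < 3.15 := Real.pi_lt_d2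
        nlinarith [abs_nonneg ((ρ : ℂ).im - (ρ' : ℂ).im)]
      have habs' := abs_le.mp habs
      have hρ' : ρ' ∈ ZT T := by
        rw [mem_ZT]
        constructor <;> linarith [habs'.1, habs'.2]
      have hin : nd T ((ρ : ℂ), (ρ' : ℂ)) ∈ Icc (-c) c := by
        have h4 : |nd T ((ρ : ℂ), (ρ' : ℂ))| ≤ c := by
          unfold nd
          rw [abs_div, abs_mul, abs_of_nonneg (by linarith : (0:ℝ) ≤ Real.log T),
            abs_of_pos (by positivity : 0 < 2 * Real.pi)]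
          exact hd
        exact abs_le.mp h4
      have hm1' : 1 ≤ mx (ρ' : ℂ) := mx_one_le ρ'
      have htwo : mx (ρ : ℂ) * mx (ρ : ℂ) + mx (ρ : ℂ) * mx (ρ' : ℂ) ≤ ∑ ρ' ∈ ZT T,
          (if nd T ((ρ : ℂ), (ρ' : ℂ)) ∈ Icc (-c) c
            then mx (ρ : ℂ) * mx (ρ' : ℂ) else 0) := by
        have hsub : ({ρ, ρ'} : Finset ZS) ⊆ ZT T := by
          intro x hx
          rw [Finset.mem_insert, Finset.mem_singleton] at hx
          rcases hx with hx | hx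
          · rw [hx]; exact hρ
          · rw [hx]; exact hρ'
        calc mx (ρ : ℂ) * mx (ρ : ℂ) + mx (ρ : ℂ) * mx (ρ' : ℂ)
            = ∑ x ∈ ({ρ, ρ'} : Finset ZS), (if nd T ((ρ : ℂ), (x : ℂ)) ∈ Icc (-c) c
                then mx (ρ : ℂ) * mx (x : ℂ) else 0) := by
              rw [Finset.sum_pair (Ne.symm hne), hdiag, if_pos hin]
          _ ≤ _ := Finset.sum_le_sum_of_subset_of_nonneg hsub (fun i hi _ => hnn i hi)
      refine le_trans ?_ htwo
      nlinarith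
  · refine le_trans ?_ hone
    nlinarith

theorem pair_lower_c {c : ℝ} (hc : 0 < c) (hc1 : c < 1) {p : ℝ} (hp : 0 < p)
    (h : ∀ᶠ T : ℝ in atTop, p * (T * Real.log T) ≤ ∑ ρ ∈ CZc c T, mx ρ) :
    ∀ᶠ T : ℝ in atTop, (1 + p) * SN T ≤ pairCount T (-c) c := by
  obtain ⟨T₀, hT₀⟩ := NT_lower p hp
  filter_upwards [h, eventually_ge_atTop T₀, eventually_ge_atTop 3, eventually_ge_atTop (Real.exp 7),
    eventually_ge_atTop (15 * CLA / (2 * p))] with T h1 h2 h3 h4 h5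
  classical
  unfold CZc at h1
  have hT0 : 0 < T := by linarith
  have hL6 : 7 ≤ Real.log T := by
    rw [Real.le_log_iff_exp_le hT0]; exact h4
  have hpi := Real.pi_gt_three
  have hCLA := CLA_pos
  have hNT := hT₀ T h2
  rw [pairCount_ZT_h48]
  have hsum := Finset.sum_le_sum (fun ρ hρ => inner_c hc hc1 hL6 ρ hρ)
  refine le_trans ?_ hsum
  rw [Finset.sum_add_distrib, sum_ZT_mx]
  -- the close zeros near the ends
  have hlow : ∑ ρ ∈ (ZT T).filter (fun ρ : ZS => (ρ : ℂ).im < 1), mx (ρ : ℂ) ≤ 5 / 2 * (CLA * Real.log T) := by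
    have ha := loc_count ((ZT T).filter (fun ρ : ZS => (ρ : ℂ).im < 1)) 0 (by
      intro ρ hρ
      rw [Finset.mem_filter, mem_ZT] at hρ
      rw [sub_zero, abs_le]
      constructor <;> linarith [hρ.1.1, hρ.2])
    have hb := Afun_log (u := 0) h3 le_rfl hT0.le
    linarith
  have hhigh : ∑ ρ ∈ (ZT T).filter (fun ρ : ZS => T - 1 < (ρ : ℂ).im), mx (ρ : ℂ) ≤ 5 / 2 * (CLA * Real.log T) := by
    have ha := loc_count ((ZT T).filter (fun ρ : ZS => T - 1 < (ρ : ℂ).im)) T (by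
      intro ρ hρ
      rw [Finset.mem_filter, mem_ZT] at hρ
      rw [abs_le]
      constructor <;> linarith [hρ.1.2, hρ.2])
    have hb := Afun_log (u := T) h3 hT0.le le_rfl
    linarith
  have hsplit : ∑ ρ ∈ (ZT T).filter (CloseC c T), mx (ρ : ℂ) ≤
      (∑ ρ ∈ ZT T, (if CloseC c T ρ ∧ 1 ≤ (ρ : ℂ).im ∧ (ρ : ℂ).im ≤ T - 1 then mx (ρ : ℂ) else 0)) +
      (∑ ρ ∈ (ZT T).filter (fun ρ : ZS => (ρ : ℂ).im < 1), mx (ρ : ℂ)) +
      ∑ ρ ∈ (ZT T).filter (fun ρ : ZS => T - 1 < (ρ : ℂ).im), mx (ρ : ℂ) := by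
    rw [Finset.sum_filter, Finset.sum_filter, Finset.sum_filter, ← Finset.sum_add_distrib,
      ← Finset.sum_add_distrib]
    refine Finset.sum_le_sum fun ρ _ => ?_
    have hm := mx_nonneg (ρ : ℂ)
    by_cases hc : CloseC c T ρ
    · rw [if_pos hc]
      by_cases ha : (ρ : ℂ).im < 1
      · rw [if_pos ha]
        split_ifs <;> linarith
      · rw [if_neg ha]
        by_cases hb : T - 1 < (ρ : ℂ).im
        · rw [if_pos hb]
          split_ifs <;> linarith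
        · rw [if_neg hb, if_pos ⟨hc, not_lt.mp ha, not_lt.mp hb⟩]
          linarith
    · rw [if_neg hc]
      split_ifs <;> linarith
  have hfin : (1 + p) * SN T ≤ (1 - p) * (T * Real.log T / (2 * Real.pi)) +
      (p * (T * Real.log T) - 5 * (CLA * Real.log T)) := by
    unfold SN
    have hL0 : 0 < Real.log T := by linarith
    have h6 : 15 * CLA ≤ T * (2 * p) := by
      rwa [div_le_iff₀ (by positivity)] at h5
    have h7 : T * Real.log T / (2 * Real.pi) ≤ T * Real.log T / 6 := by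
      apply div_le_div_of_nonneg_left (by positivity) (by norm_num) (by linarith)
    have h8 : 5 * (CLA * Real.log T) ≤ 2 / 3 * (p * (T * Real.log T)) := by
      have := mul_le_mul_of_nonneg_right h6 hL0.le
      nlinarith
    have h9 : 2 * p * (T * Real.log T / (2 * Real.pi)) ≤ 2 * p * (T * Real.log T / 6) := by gcongr
    nlinarith
  linarith

end Pool.Agent.Helper69.PP
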