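import Pool.Agent.Helper69.PP.C3
import Pool.Agent.Helper4.SH.WindowF

/-!
# PP-W2: window identity

# PP-W: kernels and the window identity

Templates: Helper4/SH/Kernels.lean (`exists_cut`: cut `SBc c (2y)` off between `((k+2K)/G)/2` and `f.th`, smooth: `sinc_contDiff`) and
Helper4/SH/Window.lean, WindowF.lean (`window_cos` for the window `hwc c T` instead of `hw T`; `kernel_cos`; `wf_sum`).
For a frequency `ν` of class `k`: `|ν| ≤ (k+2K)/G · L` (`dk_phn`), `∫ cos(ν t) krs f.h 2 T (t-γ) dt = (2π/L) f.h(ν/(2L)) cos(νγ)` and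
`f.h(ν/(2L)) = SBc c (ν/L)`.
-/

open MeasureTheory Set Filter Topology
open Pool.Agent.Helper57.Zeta Pool.Agent.Helper57.PC Pool.Agent.Helper57.LH Pool.Agent.Helper78.SG
open Pool.Agent.Helper4.SH

namespace Pool.Agent.Helper69.PP

/-- the window integral of a cosine, general window -/
theorem window_cos_c {c T : ℝ} (hc : 0 < c) (hT : 1 < T) (γ ν : ℝ) :
    ∫ t in (γ - hwc c T)..(γ + hwc c T), Real.cos (t * ν) =
      2 * Real.pi / Real.log T * (SBc c (ν / Real.log T) * Real.cos (γ * ν)) := by
  have hL : 0 < Real.log T := Real.log_pos hT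
  by_cases hν : ν = 0
  · subst hν
    simp only [mul_zero, Real.cos_zero, zero_div, SBc, Real.sinc_zero, mul_one, intervalIntegral.integral_const, smul_eq_mul, hwc]
    ring
  · have h1 : ∫ t in (γ - hwc c T)..(γ + hwc c T), Real.cos (t * ν) =
        ν⁻¹ * (Real.sin ((γ + hwc c T) * ν) - Real.sin ((γ - hwc c T) * ν)) := by
      rw [intervalIntegral.integral_comp_mul_right (fun x => Real.cos x) hν, integral_cos, smul_eq_mul]
    rw [h1]
    have h2 : Real.sin ((γ + hwc c T) * ν) - Real.sin ((γ - hwc c T) * ν) = 2 * (Real.cos (γ * ν) * Real.sin (hwc c T * ν)) := by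
      rw [add_mul, sub_mul, Real.sin_add, Real.sin_sub]
      ring
    rw [h2]
    have h3 : Real.pi * c * (ν / Real.log T) = hwc c T * ν := by
      unfold hwc
      field_simp
    have hw0 : 0 < hwc c T := by
      unfold hwc
      have := Real.pi_pos
      positivity
    have hne : hwc c T * ν ≠ 0 := mul_ne_zero hw0.ne' hν
    unfold SBc
    rw [h3, Real.sinc_of_ne_zero hne]
    have h4 : (2 * Real.pi / Real.log T) * (c * (Real.sin (hwc c T * ν) / (hwc c T * ν))) = 2 * (Real.sin (hwc c T * ν) / ν) := by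
      have h6 : 2 * Real.pi / Real.log T * c = 2 * hwc c T := by
        unfold hwc
        ring
      rw [← mul_assoc, h6]
      field_simp
    have h5 : (2 * Real.pi / Real.log T) * (c * (Real.sin (hwc c T * ν) / (hwc c T * ν)) * Real.cos (γ * ν)) =
        ((2 * Real.pi / Real.log T) * (c * (Real.sin (hwc c T * ν) / (hwc c T * ν)))) * Real.cos (γ * ν) := by ring
    rw [h5, h4]
    field_simp

/-- a finite trigonometric sum -/
private theorem w2_sum (f : TF) {c s T : ℝ} (hc : 0 < c) (hs : 1 ≤ s) (hT : 1 < T) (γ : ℝ) {ι : Type*} (A : Finset ι)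
    (a ν : ι → ℝ) (h : ∀ i ∈ A, f.h (ν i / (s * Real.log T)) = SBc c (ν i / Real.log T)) :
    ∫ t in (γ - hwc c T)..(γ + hwc c T), (∑ i ∈ A, a i * Real.cos (t * ν i)) =
      ∫ t, (∑ i ∈ A, a i * Real.cos (t * ν i)) * krs f.h s T (t - γ) := by
  rw [intervalIntegral.integral_finsetSum]
  · have e : (fun t => (∑ i ∈ A, a i * Real.cos (t * ν i)) * krs f.h s T (t - γ)) =
        fun t => ∑ i ∈ A, (a i * Real.cos (t * ν i) * krs f.h s T (t - γ)) := by
      funext t
      rw [Finset.sum_mul]
    rw [e, integral_finsetSum]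
    · refine Finset.sum_congr rfl fun i hi => ?_
      have e1 : ∫ t in (γ - hwc c T)..(γ + hwc c T), Real.cos (t * ν i) =
          ∫ t, Real.cos (t * ν i) * krs f.h s T (t - γ) := by
        rw [window_cos_c hc hT, kernel_cos f hs hT, h i hi]
        ring
      rw [intervalIntegral.integral_const_mul, e1, ← integral_const_mul]
      congr 1
      funext t
      ring
    · intro i _
      exact wf_int f hs hT γ (ν i) (a i)
  · intro i _
    apply Continuous.intervalIntegrable
    fun_prop

private theorem FK_eq (P : Par) (k : ℕ) (T t : ℝ) :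
    FK P k T t = ∑ x ∈ (IX P T ×ˢ IX P T).filter (fun x => dk P T x.1 x.2 = k),
      (cfn x.1 * cfn x.2) * Real.cos (t * (phn x.1 - phn x.2)) := by
  unfold FK
  rw [Finset.sum_filter, Finset.sum_product]

/-- the window identity for the class `k` -/
theorem window_FK {P : Par} {k : ℕ} {f : TF} (hf : KF P k f) {T : ℝ} (hT : 1 < T) (γ : ℝ) :
    ∫ t in (γ - hwc P.c T)..(γ + hwc P.c T), FK P k T t = ∫ t, FK P k T t * krs f.h 2 T (t - γ) := by
  have hL : 0 < Real.log T := Real.log_pos hT
  have h1 := w2_sum f P.hc (by norm_num : (1 : ℝ) ≤ 2) hT γ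
    ((IX P T ×ˢ IX P T).filter (fun x => dk P T x.1 x.2 = k))
    (fun x => cfn x.1 * cfn x.2) (fun x => phn x.1 - phn x.2) (by
      intro x hx
      rw [Finset.mem_filter, Finset.mem_product] at hx
      obtain ⟨⟨hx1, hx2⟩, hk⟩ := hx
      have h2 := dk_phn hT hx1 hx2
      rw [hk] at h2
      have h3 : f.h ((phn x.1 - phn x.2) / (2 * Real.log T)) =
          SBc P.c (2 * ((phn x.1 - phn x.2) / (2 * Real.log T))) := by
        apply hf.1
        rw [abs_div, abs_of_pos (by positivity : (0 : ℝ) < 2 * Real.log T), div_le_iff₀ (by positivity)]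
        calc |phn x.1 - phn x.2| ≤ ((k : ℝ) + 2 * P.K) / P.G * Real.log T := h2
          _ = ((k : ℝ) + 2 * P.K) / P.G / 2 * (2 * Real.log T) := by ring
      have h4 : 2 * ((phn x.1 - phn x.2) / (2 * Real.log T)) = (phn x.1 - phn x.2) / Real.log T := by
        field_simp
      rw [h4] at h3
      exact h3)
  simp only [FK_eq]
  exact h1

end Pool.Agent.Helper69.PP
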