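import Pool.Agent.Helper69.PP.A0
import Pool.Agent.Helper4.SH.Num

/-!
# PP-A0b: SBc bounds

# PP-A0: rough numbers, definitions
-/

open MeasureTheory Set Filter Topology
open Pool.Agent.Helper57.Zeta Pool.Agent.Helper57.PC Pool.Agent.Helper57.LH Pool.Agent.Helper78.SG
open Pool.Agent.Helper4.SH

namespace Pool.Agent.Helper69.PP

/-- `|SBc| ≤ c` and `SBc c y ≥ c - κ y²` -/
theorem SBc_le {c : ℝ} (hc : 0 ≤ c) (y : ℝ) : |SBc c y| ≤ c := by
  unfold SBc
  rw [abs_mul, abs_of_nonneg hc]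
  have h : |Real.sinc (Real.pi * c * y)| ≤ 1 :=
    abs_le.2 ⟨Real.neg_one_le_sinc _, Real.sinc_le_one _⟩
  calc c * |Real.sinc (Real.pi * c * y)| ≤ c * 1 := mul_le_mul_of_nonneg_left h hc
    _ = c := mul_one c

private theorem sinc_ge_aux (x : ℝ) : 1 - x ^ 2 / 6 ≤ Real.sinc x := by
  have key : ∀ x : ℝ, 0 < x → 1 - x ^ 2 / 6 ≤ Real.sinc x := by
    intro x hx
    rw [Real.sinc_of_ne_zero hx.ne', le_div_iff₀ hx]
    have := Real.sin_gt_sub_cube hx
    nlinarith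
  rcases lt_trichotomy x 0 with h | h | h
  · have := key (-x) (by linarith)
    rw [Real.sinc_neg] at this
    simpa using this
  · subst h
    simp
  · exact key x h

theorem SBc_ge {c : ℝ} (hc : 0 ≤ c) (y : ℝ) : c - kap c * y ^ 2 ≤ SBc c y := by
  unfold SBc kap
  have h := mul_le_mul_of_nonneg_left (sinc_ge_aux (Real.pi * c * y)) hc
  have h2 : c * (1 - (Real.pi * c * y) ^ 2 / 6) = c - Real.pi ^ 2 * c ^ 3 / 6 * y ^ 2 := by ring
  rw [h2] at h
  exact h

end Pool.Agent.Helper69.PP
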