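import Pool.Agent.Helper69.PP.A0a

/-!
# PP-A3c: membership by size

# PP-A3: the sums over numerators and denominators
-/

open MeasureTheory Set Filter Topology
open Pool.Agent.Helper57.Zeta Pool.Agent.Helper57.PC Pool.Agent.Helper57.LH Pool.Agent.Helper78.SG
open Pool.Agent.Helper4.SH

namespace Pool.Agent.Helper69.PP

/-- the slack covers the number of prime factors -/
private theorem K_le_slack (P : Par) : (P.K : ℝ) ≤ P.e / 4 * P.G := by
  have h := P.hG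
  have hG : (0 : ℝ) < P.G := by exact_mod_cast P.hG0
  rw [div_le_iff₀ hG] at h
  have hK : (P.K : ℝ) = (⌈1 / P.δ⌉₊ : ℝ) := rfl
  rw [hK]
  linarith

/-- size of the type from the size of the number -/
private theorem US_le_of_yy {P : Par} {T : ℝ} (hT : 1 < T) {n : ℕ} (h : Gd P T n) {θ : ℝ} (hn : yy T n ≤ θ - 2 * P.e) :
    (US (ty P.G T n) : ℝ) ≤ (θ - P.e) * P.G := by
  have h1 := US_le_log hT h
  have hK := K_le_slack P
  have hG : (0 : ℝ) < P.G := by exact_mod_cast P.hG0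
  have he := P.he
  have h2 : P.G * Real.log n / Real.log T = P.G * yy T n := by
    unfold yy
    ring
  rw [h2] at h1
  have h3 : P.G * yy T n ≤ P.G * (θ - 2 * P.e) := mul_le_mul_of_nonneg_left hn hG.le
  nlinarith

private theorem yy_le_of_rpow {T : ℝ} (hT : 1 < T) {n : ℕ} (hn0 : n ≠ 0) {θ : ℝ} (hn : (n : ℝ) ≤ T ^ θ) : yy T n ≤ θ := by
  have hL : 0 < Real.log T := Real.log_pos hT
  have hn1 : (0 : ℝ) < n := by exact_mod_cast Nat.pos_of_ne_zero hn0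
  unfold yy
  rw [div_le_iff₀ hL]
  calc Real.log n ≤ Real.log (T ^ θ) := Real.log_le_log hn1 hn
    _ = θ * Real.log T := Real.log_rpow (by linarith) θ

/-- membership by size: good `n ≤ T^(1/2 - 2e)` -/
theorem mem_NA_of {P : Par} {T : ℝ} (hT : 1 < T) {n : ℕ} (h : Gd P T n) (hn : (n : ℝ) ≤ T ^ (1 / 2 - 2 * P.e)) : n ∈ NA P T := by
  rw [mem_NA]
  exact ⟨h, US_le_of_yy hT h (yy_le_of_rpow hT h.1.1 hn)⟩

/-- membership by size: good `n ≤ T^(1/3 - 2e)` -/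
theorem mem_NB_of {P : Par} {T : ℝ} (hT : 1 < T) {n : ℕ} (h : Gd P T n) (hn : (n : ℝ) ≤ T ^ (1 / 3 - 2 * P.e)) : n ∈ NB P T := by
  rw [mem_NB]
  refine ⟨h, ty P.G T n, Finset.Subset.refl _, Or.inl ⟨US_le_of_yy hT h (yy_le_of_rpow hT h.1.1 hn), ?_⟩⟩
  have hG : (0 : ℝ) < P.G := by exact_mod_cast P.hG0
  have he := P.he1
  have h0 : US (ty P.G T n \ ty P.G T n) = 0 := by simp [US]
  rw [h0]
  have : 0 ≤ (1 / 7 - P.e) * (P.G : ℝ) := mul_nonneg (by linarith) hG.le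
  simpa using this

/-- membership: good `q n'` with `(y_q, y_n') ≤ (1/3 - 2e, 1/7 - 2e)` or `(1/4 - 2e, 1/5 - 2e)` -/
theorem mem_NB_mul {P : Par} {T : ℝ} (hT : 1 < T) {q n : ℕ} (hq : q.Prime) (h : Gd P T (q * n))
    (hs : (yy T q ≤ 1 / 3 - 2 * P.e ∧ yy T n ≤ 1 / 7 - 2 * P.e) ∨ (yy T q ≤ 1 / 4 - 2 * P.e ∧ yy T n ≤ 1 / 5 - 2 * P.e)) :
    q * n ∈ NB P T := by
  rw [mem_NB]
  have hqn : q * n ≠ 0 := h.1.1
  have hn0 : n ≠ 0 := right_ne_zero_of_mul hqn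
  have hq1 : Gd P T q := Gd_dvd h (dvd_mul_right q n)
  have hn1 : Gd P T n := Gd_dvd h (dvd_mul_left n q)
  have hsub : ty P.G T (q * n) \ ty P.G T q ⊆ ty P.G T n := by
    intro l hl
    rw [Finset.mem_sdiff] at hl
    obtain ⟨h1, h2⟩ := hl
    unfold ty at h1 h2 ⊢
    rw [Finset.mem_image] at h1
    obtain ⟨p, hp, rfl⟩ := h1
    rw [Nat.primeFactors_mul hq.ne_zero hn0, Finset.mem_union] at hp
    rcases hp with hp | hp
    · exact absurd (Finset.mem_image_of_mem _ hp) h2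
    · exact Finset.mem_image_of_mem _ hp
  have hle : (US (ty P.G T (q * n) \ ty P.G T q) : ℝ) ≤ US (ty P.G T n) := by exact_mod_cast US_mono hsub
  refine ⟨h, ty P.G T q, ty_dvd hqn (dvd_mul_right q n), ?_⟩
  rcases hs with ⟨h1, h2⟩ | ⟨h1, h2⟩
  · exact Or.inl ⟨US_le_of_yy hT hq1 h1, hle.trans (US_le_of_yy hT hn1 h2)⟩
  · exact Or.inr ⟨US_le_of_yy hT hq1 h1, hle.trans (US_le_of_yy hT hn1 h2)⟩

/-- prime factors of denominators: `y_p ≤ 1/3` -/
theorem NB_prime {P : Par} {T : ℝ} (hT : 1 < T) {n p : ℕ} (hn : n ∈ NB P T) (hp : p ∈ n.primeFactors) : yy T p ≤ 1 / 3 := by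
  rw [mem_NB] at hn
  obtain ⟨_, σ, hσ, hs⟩ := hn
  have hG : (0 : ℝ) < P.G := by exact_mod_cast P.hG0
  have he := P.he
  have hL : 0 < Real.log T := Real.log_pos hT
  have hcp : ce P.G T p ∈ ty P.G T n := Finset.mem_image_of_mem _ hp
  have hkey : (ce P.G T p : ℝ) ≤ 1 / 3 * P.G := by
    by_cases hin : ce P.G T p ∈ σ
    · have h1 : ce P.G T p ≤ US σ := Finset.single_le_sum (f := fun l : ℕ => l) (fun _ _ => Nat.zero_le _) hin
      have h1' : (ce P.G T p : ℝ) ≤ US σ := by exact_mod_cast h1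
      rcases hs with ⟨h2, _⟩ | ⟨h2, _⟩ <;> nlinarith
    · have hin' : ce P.G T p ∈ ty P.G T n \ σ := Finset.mem_sdiff.2 ⟨hcp, hin⟩
      have h1 : ce P.G T p ≤ US (ty P.G T n \ σ) :=
        Finset.single_le_sum (f := fun l : ℕ => l) (fun _ _ => Nat.zero_le _) hin'
      have h1' : (ce P.G T p : ℝ) ≤ US (ty P.G T n \ σ) := by exact_mod_cast h1
      rcases hs with ⟨_, h2⟩ | ⟨_, h2⟩ <;> nlinarith
  have hceil : P.G * Real.log p / Real.log T ≤ (ce P.G T p : ℝ) := Nat.le_ceil _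
  have h3 : P.G * Real.log p / Real.log T = P.G * yy T p := by
    unfold yy
    ring
  rw [h3] at hceil
  have h4 : (P.G : ℝ) * yy T p ≤ P.G * (1 / 3) := by linarith
  exact le_of_mul_le_mul_left h4 hG

end Pool.Agent.Helper69.PP
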