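import Pool.Agent.Helper69.PP.A3a
import Pool.Agent.Helper69.PP.A3b
import Pool.Agent.Helper69.PP.A3c

/-!
# PP-A3d: numerators

# PP-A3: the sums over numerators and denominators
-/

open MeasureTheory Set Filter Topology
open Pool.Agent.Helper57.Zeta Pool.Agent.Helper57.PC Pool.Agent.Helper57.LH Pool.Agent.Helper78.SG
open Pool.Agent.Helper4.SH

namespace Pool.Agent.Helper69.PP

/-- numerators -/
theorem sumA (P : Par) (hPe : P.e = 1 / 100000) {ε : ℝ} (hε : 0 < ε) (hδ : P.δ ≤ ε) (hF : Flat P ε) (hC : Coll P ε) : ∀ᶠ T : ℝ in atTop,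
    1 ≤ ∑ m ∈ NA P T, 1 / (m : ℝ) ∧ ∑ m ∈ NA P T, 1 / (m : ℝ) ≤ (1 / 2 + ε) * vT P T ∧
    vT P T * (P.c * (1 / 2 - 2 * P.e) ^ 2 - kap P.c * (1 / 2 - 2 * P.e) ^ 4 / 6 - 8 * ε) ≤ ∑ m ∈ NA P T, Wn P.c T m / m := by
  have hθ1 : (1 : ℝ) / 10 ≤ 1 / 2 - 2 * P.e := by rw [hPe]; norm_num
  have hθ2 : 1 / 2 - 2 * P.e ≤ 1 / 2 := by rw [hPe]; norm_num
  filter_upwards [hF, hC, RW_ge P hε hδ hF hθ1 hθ2, eventually_gt_atTop 1] with T hT1 hT2 hT3 hT
  obtain ⟨hv1, hv2, hfl⟩ := hT1
  have hlog : 0 < Real.log T := Real.log_pos hT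
  refine ⟨?_, ?_, ?_⟩
  · have := Finset.single_le_sum (f := fun m : ℕ => 1 / (m : ℝ)) (fun m _ => by positivity)
      (one_mem_NA P hT)
    simpa using this
  · refine le_trans ?_ (hfl (1 / 2) ⟨by norm_num, by norm_num⟩).2
    unfold RS
    apply Finset.sum_le_sum_of_subset_of_nonneg
    · intro m hm
      have h2 := mem_RN.1 (Gd_iff.1 (mem_NA.1 hm).1).1
      exact mem_RN.2 ⟨h2.1, NA_le hT hm, h2.2.2⟩
    · intros; positivity
  · have hle : ∀ m : ℕ, (m : ℝ) ≤ T ^ (1 / 2 - 2 * P.e) → (m : ℝ) ≤ T := by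
      intro m hm
      refine hm.trans ?_
      calc T ^ (1 / 2 - 2 * P.e) ≤ T ^ (1 : ℝ) :=
            Real.rpow_le_rpow_of_exponent_le hT.le (by linarith)
        _ = T := Real.rpow_one T
    have hpos : ∀ m ∈ NA P T, 0 ≤ Wn P.c T m / m := by
      intro m hm
      have hg := (mem_NA.1 hm).1
      have hsq := (Gd_iff.1 hg).2.1
      have hm0 : m ≠ 0 := hsq.ne_zero
      have hml := NA_le hT hm
      have hyb : ∀ p ∈ m.primeFactors, yy T p ≤ 1 / 2 := by
        intro p hp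
        have hpm : p ≤ m := Nat.le_of_mem_primeFactors hp
        have hp0 : (0 : ℝ) < p := by exact_mod_cast (Nat.prime_of_mem_primeFactors hp).pos
        have h1 : (p : ℝ) ≤ T ^ ((1 : ℝ) / 2) := (by exact_mod_cast hpm : (p : ℝ) ≤ m).trans hml
        unfold yy
        rw [div_le_iff₀ hlog]
        calc Real.log p ≤ Real.log (T ^ ((1 : ℝ) / 2)) := Real.log_le_log hp0 h1
          _ = 1 / 2 * Real.log T := Real.log_rpow (by linarith) _
      have h1 := Wn_ge (c := P.c) (b := 1 / 2) P.hc.le hT hsq hyb (by norm_num)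
      have h2 : 0 ≤ yy T m := by
        unfold yy
        exact div_nonneg (Real.log_natCast_nonneg m) hlog.le
      have h3 : 0 ≤ P.c - kap P.c * (1 / 2) ^ 2 := by
        unfold kap
        have hpi : Real.pi ^ 2 ≤ 10 := by
          have h4 := Real.pi_lt_d2
          have h5 := Real.pi_pos
          nlinarith
        have hc0 := P.hc
        have hc1 := P.hc1
        have h6 : P.c ^ 2 ≤ 1 := by nlinarith
        have h7 : Real.pi ^ 2 * P.c ^ 2 ≤ 10 := by
          calc Real.pi ^ 2 * P.c ^ 2 ≤ 10 * 1 :=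
                mul_le_mul hpi h6 (sq_nonneg _) (by norm_num)
            _ = 10 := by norm_num
        have h8 : P.c - Real.pi ^ 2 * P.c ^ 3 / 6 * (1 / 2) ^ 2 =
            P.c * (1 - Real.pi ^ 2 * P.c ^ 2 / 24) := by ring
        rw [h8]
        exact mul_nonneg hc0.le (by linarith)
      apply div_nonneg _ (Nat.cast_nonneg m)
      refine le_trans ?_ h1
      positivity
    classical
    have hsplit := Finset.sum_filter_add_sum_filter_not (RN (NS P T) (T ^ (1 / 2 - 2 * P.e)))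
      (fun n => Gd P T n) (fun n => Wn P.c T n / n)
    have hA : ∑ n ∈ (RN (NS P T) (T ^ (1 / 2 - 2 * P.e))).filter (fun n => Gd P T n),
        Wn P.c T n / n ≤ ∑ m ∈ NA P T, Wn P.c T m / m := by
      apply Finset.sum_le_sum_of_subset_of_nonneg
      · intro m hm
        rw [Finset.mem_filter] at hm
        exact mem_NA_of hT hm.2 (mem_RN.1 hm.1).2.1
      · intro m hm _; exact hpos m hm
    have hB : ∑ n ∈ (RN (NS P T) (T ^ (1 / 2 - 2 * P.e))).filter (fun n => ¬ Gd P T n),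
        Wn P.c T n / n ≤ 2 * ε := by
      have h1 : ∀ n ∈ (RN (NS P T) (T ^ (1 / 2 - 2 * P.e))).filter (fun n => ¬ Gd P T n),
          Wn P.c T n / n ≤ 2 * (1 / (n : ℝ)) := by
        intro n hn
        rw [Finset.mem_filter] at hn
        have h2 := mem_RN.1 hn.1
        have h3 := Wn_le (c := P.c) P.hc.le P.hc1.le hT h2.1 (hle n h2.2.1)
        have h4 : Wn P.c T n ≤ 2 := (le_abs_self _).trans h3
        rw [div_eq_mul_one_div]
        exact mul_le_mul_of_nonneg_right h4 (by positivity)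
      refine (Finset.sum_le_sum h1).trans ?_
      rw [← Finset.mul_sum]
      refine mul_le_mul_of_nonneg_left (le_trans ?_ hT2) (by norm_num)
      refine le_trans (Finset.sum_le_sum_of_subset_of_nonneg
        (t := (RN (NS P T) T).filter (fun n => ¬ Gd P T n)) ?_ ?_) (le_of_eq ?_)
      · intro n hn
        rw [Finset.mem_filter] at hn ⊢
        have h2 := mem_RN.1 hn.1
        exact ⟨mem_RN.2 ⟨h2.1, hle n h2.2.1, h2.2.2⟩, hn.2⟩
      · intros; positivity
      · congr!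
    have hfin : vT P T * (P.c * (1 / 2 - 2 * P.e) ^ 2 - kap P.c * (1 / 2 - 2 * P.e) ^ 4 / 6 - 8 * ε) =
        vT P T * (P.c * (1 / 2 - 2 * P.e) ^ 2 - kap P.c * (1 / 2 - 2 * P.e) ^ 4 / 6 - 4 * ε) -
          4 * ε * vT P T := by ring
    rw [hfin]
    have h5 : 2 * ε ≤ 4 * ε * vT P T := by nlinarith
    linarith

end Pool.Agent.Helper69.PP
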