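import Pool.Agent.Helper69.PP.C3

/-!
# PP-A0: definitions

# PP-A0: rough numbers, definitions
-/

open MeasureTheory Set Filter Topology
open Pool.Agent.Helper57.Zeta Pool.Agent.Helper57.PC Pool.Agent.Helper57.LH Pool.Agent.Helper78.SG
open Pool.Agent.Helper4.SH

namespace Pool.Agent.Helper69.PP

/-- the rough numbers `n ≤ x`: all prime factors are `≥ N` -/
noncomputable def RN (N : ℕ) (x : ℝ) : Finset ℕ := (Finset.Icc 1 ⌊x⌋₊).filter (fun n => ∀ p ∈ n.primeFactors, N ≤ p)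

/-- reciprocal sum of the rough numbers -/
noncomputable def RS (N : ℕ) (x : ℝ) : ℝ := ∑ n ∈ RN N x, 1 / (n : ℝ)

/-- `∏_{p < N} (1 - 1/p)` -/
noncomputable def VP (N : ℕ) : ℝ := ∏ p ∈ N.primesBelow, (1 - 1 / (p : ℝ))

/-- the sifting level -/
noncomputable def NS (P : Par) (T : ℝ) : ℕ := ⌈T ^ P.δ⌉₊

/-- the density `V log T` -/
noncomputable def vT (P : Par) (T : ℝ) : ℝ := VP (NS P T) * Real.log T

/-- the density of the rough numbers is flat on the scale `log n/log T`, up to `ε` -/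
def Flat (P : Par) (ε : ℝ) : Prop := ∀ᶠ T : ℝ in atTop, 1 / 2 ≤ vT P T ∧ vT P T ≤ 2 / P.δ ∧
  ∀ θ ∈ Icc (0:ℝ) 1, θ * vT P T ≤ RS (NS P T) (T ^ θ) ∧ RS (NS P T) (T ^ θ) ≤ (θ + ε) * vT P T

open Classical in
/-- the rough numbers that are not good are negligible -/
def Coll (P : Par) (ε : ℝ) : Prop := ∀ᶠ T : ℝ in atTop,
  ∑ n ∈ (RN (NS P T) T).filter (fun n => ¬ Gd P T n), 1 / (n : ℝ) ≤ ε

/-- `π² c³/6` -/
noncomputable def kap (c : ℝ) : ℝ := Real.pi ^ 2 * c ^ 3 / 6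

end Pool.Agent.Helper69.PP
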