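import Pool.Agent.Helper69.PP.A0

/-!
# PP-A0a: rough numbers

# PP-A0: rough numbers, definitions
-/

open MeasureTheory Set Filter Topology
open Pool.Agent.Helper57.Zeta Pool.Agent.Helper57.PC Pool.Agent.Helper57.LH Pool.Agent.Helper78.SG
open Pool.Agent.Helper4.SH

namespace Pool.Agent.Helper69.PP

theorem mem_RN {N : ℕ} {x : ℝ} {n : ℕ} : n ∈ RN N x ↔ n ≠ 0 ∧ (n : ℝ) ≤ x ∧ ∀ p ∈ n.primeFactors, N ≤ p := by
  unfold RN
  rw [Finset.mem_filter, Finset.mem_Icc]
  constructor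
  · rintro ⟨⟨h1, h2⟩, h3⟩
    have hn : n ≠ 0 := by omega
    exact ⟨hn, (Nat.le_floor_iff' hn).1 h2, h3⟩
  · rintro ⟨hn, h2, h3⟩
    exact ⟨⟨Nat.one_le_iff_ne_zero.2 hn, (Nat.le_floor_iff' hn).2 h2⟩, h3⟩

theorem Gd_iff {P : Par} {T : ℝ} {n : ℕ} : Gd P T n ↔
    n ∈ RN (NS P T) T ∧ Squarefree n ∧ Set.InjOn (ce P.G T) (n.primeFactors : Set ℕ) := by
  rw [mem_RN]
  unfold Gd RF NS
  simp only [Nat.ceil_le]
  tauto

theorem RS_mono {N : ℕ} {x y : ℝ} (h : x ≤ y) : RS N x ≤ RS N y := by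
  unfold RS
  refine Finset.sum_le_sum_of_subset_of_nonneg ?_ (fun _ _ _ => by positivity)
  intro n hn
  rw [mem_RN] at hn ⊢
  exact ⟨hn.1, hn.2.1.trans h, hn.2.2⟩

/-- the multiples of `p`: `m = p m'` -/
theorem RS_mult {N p : ℕ} (hp : p.Prime) (hN : N ≤ p) {x : ℝ} (hx : 0 ≤ x) :
    ∑ n ∈ (RN N x).filter (fun n => p ∣ n), 1 / (n : ℝ) = 1 / p * RS N (x / p) := by
  classical
  have _ := hx
  have hp0 : (0 : ℝ) < p := by exact_mod_cast hp.pos
  have h1 : (RN N x).filter (fun n => p ∣ n) = (RN N (x / p)).image (fun m => p * m) := by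
    ext n
    rw [Finset.mem_filter, Finset.mem_image]
    constructor
    · rintro ⟨hn, m, rfl⟩
      rw [mem_RN] at hn
      have hm : m ≠ 0 := right_ne_zero_of_mul hn.1
      refine ⟨m, mem_RN.2 ⟨hm, ?_, fun q hq => ?_⟩, rfl⟩
      · rw [le_div_iff₀ hp0]
        have := hn.2.1
        push_cast at this
        linarith
      · apply hn.2.2 q
        rw [Nat.primeFactors_mul hp.ne_zero hm]
        exact Finset.mem_union_right _ hq
    · rintro ⟨m, hm, rfl⟩
      rw [mem_RN] at hm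
      refine ⟨mem_RN.2 ⟨mul_ne_zero hp.ne_zero hm.1, ?_, fun q hq => ?_⟩, dvd_mul_right _ _⟩
      · have := (le_div_iff₀ hp0).1 hm.2.1
        push_cast
        linarith
      · rw [Nat.primeFactors_mul hp.ne_zero hm.1, Finset.mem_union, hp.primeFactors,
          Finset.mem_singleton] at hq
        rcases hq with hq | hq
        · rw [hq]; exact hN
        · exact hm.2.2 q hq
  rw [h1, Finset.sum_image]
  · unfold RS
    rw [Finset.mul_sum]
    refine Finset.sum_congr rfl fun m _ => ?_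
    push_cast
    rw [one_div_mul_one_div]
  · intro a _ b _ hab
    exact Nat.eq_of_mul_eq_mul_left hp.pos hab

end Pool.Agent.Helper69.PP
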