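import Pool.Agent.Helper69.PP.A0a

/-!
# PP-A1a: lower bound

# PP-A1: the flat density of the rough numbers

Lower bound: every `k ≤ x` is `a b` with `a` `N`-smooth, `b` `N`-rough, so `log x ≤ ∑_{k ≤ x} 1/k ≤ (∑_{a smooth} 1/a) RS N x` and
`∑_{a smooth} 1/a = VP N ⁻¹` (Mathlib: `EulerProduct.summable_and_hasSum_smoothNumbers_prod_primesBelow_geometric` or
`prod_primesBelow_tsum_eq_tsum_smoothNumbers`). Upper bound: `RS N x · ∑_{a smooth, a ≤ N^u} 1/a ≤ ∑_{k ≤ x N^u} 1/k ≤ 1 + log x + u log N`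
and Rankin: `∑_{a smooth, a > N^u} 1/a ≤ e^(-u) ∏ (1 - p^(β-1))⁻¹`, `β = 1/log N`, `≤ C e^(-u) VP N ⁻¹` by Mertens.
(Or helper57's identity.)
-/

open MeasureTheory Set Filter Topology
open Pool.Agent.Helper57.Zeta Pool.Agent.Helper57.PC Pool.Agent.Helper57.LH Pool.Agent.Helper78.SG
open Pool.Agent.Helper4.SH

namespace Pool.Agent.Helper69.PP

theorem VP_pos (N : ℕ) : 0 < VP N := by
  unfold VP
  refine Finset.prod_pos fun p hp => ?_
  have h2 : 2 ≤ p := (Nat.prime_of_mem_primesBelow hp).two_le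
  have h3 : (2 : ℝ) ≤ p := by exact_mod_cast h2
  have h4 : 1 / (p : ℝ) ≤ 1 / 2 := one_div_le_one_div_of_le (by norm_num) h3
  linarith

/-- reciprocal sum of the integers `≤ M` that are not divisible by the members of `S` -/
private noncomputable def rlA (M : ℕ) (S : Finset ℕ) : ℝ :=
  ∑ n ∈ (Finset.Icc 1 M).filter (fun n => ∀ p ∈ S, ¬ p ∣ n), 1 / (n : ℝ)

private theorem rlA_step (M : ℕ) (S : Finset ℕ) {p : ℕ} (hp : 2 ≤ p) :
    (1 - 1 / (p : ℝ)) * rlA M S ≤ rlA M (insert p S) := by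
  classical
  have hp0 : (0 : ℝ) < p := by exact_mod_cast (by omega : 0 < p)
  have h1 : rlA M S = rlA M (insert p S) +
      ∑ n ∈ ((Finset.Icc 1 M).filter (fun n => ∀ q ∈ S, ¬ q ∣ n)).filter (fun n => p ∣ n),
        1 / (n : ℝ) := by
    unfold rlA
    rw [← Finset.sum_filter_not_add_sum_filter
      ((Finset.Icc 1 M).filter (fun n => ∀ q ∈ S, ¬ q ∣ n)) (fun n => p ∣ n)]
    congr 1
    refine Finset.sum_congr ?_ fun _ _ => rfl
    ext n
    simp only [Finset.mem_filter, Finset.mem_Icc, Finset.mem_insert]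
    constructor
    · rintro ⟨⟨h, h'⟩, h''⟩
      refine ⟨h, ?_⟩
      rintro q (rfl | hq)
      · exact h''
      · exact h' q hq
    · rintro ⟨h, h'⟩
      exact ⟨⟨h, fun q hq => h' q (Or.inr hq)⟩, h' p (Or.inl rfl)⟩
  have h2 : ∑ n ∈ ((Finset.Icc 1 M).filter (fun n => ∀ q ∈ S, ¬ q ∣ n)).filter (fun n => p ∣ n),
        1 / (n : ℝ) ≤ 1 / (p : ℝ) * rlA M S := by
    unfold rlA
    rw [Finset.mul_sum]
    calc _ = ∑ n ∈ ((Finset.Icc 1 M).filter (fun n => ∀ q ∈ S, ¬ q ∣ n)).filter (fun n => p ∣ n),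
          1 / (p : ℝ) * (1 / ((n / p : ℕ) : ℝ)) := by
          refine Finset.sum_congr rfl fun n hn => ?_
          obtain ⟨m, rfl⟩ := (Finset.mem_filter.1 hn).2
          rw [Nat.mul_div_cancel_left m (by omega)]
          push_cast
          rw [one_div_mul_one_div]
      _ = ∑ m ∈ (((Finset.Icc 1 M).filter (fun n => ∀ q ∈ S, ¬ q ∣ n)).filter
            (fun n => p ∣ n)).image (fun n => n / p), 1 / (p : ℝ) * (1 / (m : ℝ)) := by
          rw [Finset.sum_image]
          intro a ha b hb hab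
          obtain ⟨m, rfl⟩ := (Finset.mem_filter.1 ha).2
          obtain ⟨k, rfl⟩ := (Finset.mem_filter.1 hb).2
          simp only [Nat.mul_div_cancel_left _ (by omega : 0 < p)] at hab
          rw [hab]
      _ ≤ _ := by
          refine Finset.sum_le_sum_of_subset_of_nonneg ?_ fun m _ _ => by positivity
          intro m hm
          obtain ⟨n, hn, rfl⟩ := Finset.mem_image.1 hm
          obtain ⟨hn1, m, rfl⟩ := Finset.mem_filter.1 hn
          rw [Finset.mem_filter, Finset.mem_Icc] at hn1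
          rw [Nat.mul_div_cancel_left m (by omega), Finset.mem_filter, Finset.mem_Icc]
          have hm0 : m ≠ 0 := by
            rintro rfl
            simp at hn1
          refine ⟨⟨by omega, ?_⟩, fun q hq hqm => hn1.2 q hq (dvd_mul_of_dvd_right hqm p)⟩
          calc m = 1 * m := (one_mul m).symm
            _ ≤ p * m := Nat.mul_le_mul_right m (by omega)
            _ ≤ M := hn1.1.2
  linarith

private theorem rlA_prod (M : ℕ) (S : Finset ℕ) (hS : ∀ p ∈ S, 2 ≤ p) :
    (∏ p ∈ S, (1 - 1 / (p : ℝ))) * rlA M ∅ ≤ rlA M S := by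
  classical
  induction S using Finset.induction_on with
  | empty => simp
  | insert p S hp ih =>
    have h2 : 2 ≤ p := hS p (Finset.mem_insert_self p S)
    have h3 : (2 : ℝ) ≤ p := by exact_mod_cast h2
    have h4 : 1 / (p : ℝ) ≤ 1 / 2 := one_div_le_one_div_of_le (by norm_num) h3
    have ih' := ih fun q hq => hS q (Finset.mem_insert_of_mem hq)
    rw [Finset.prod_insert hp, mul_assoc]
    exact (mul_le_mul_of_nonneg_left ih' (by linarith)).trans (rlA_step M S h2)

theorem rough_low {N : ℕ} {x : ℝ} (hx : 1 ≤ x) : VP N * Real.log x ≤ RS N x := by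
  classical
  have h1 : Real.log x ≤ rlA ⌊x⌋₊ ∅ := by
    have h := log_le_harmonic_floor x (by linarith)
    have e : ((harmonic ⌊x⌋₊ : ℚ) : ℝ) = rlA ⌊x⌋₊ ∅ := by
      unfold rlA
      rw [harmonic_eq_sum_Icc]
      push_cast
      refine Finset.sum_congr ?_ fun n _ => by rw [one_div]
      ext n
      simp
    rw [← e]
    exact h
  have h2 : rlA ⌊x⌋₊ N.primesBelow = RS N x := by
    unfold rlA RS RN
    refine Finset.sum_congr ?_ fun _ _ => rfl
    ext n
    simp only [Finset.mem_filter, Finset.mem_Icc]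
    constructor
    · rintro ⟨h, h'⟩
      refine ⟨h, fun p hp => ?_⟩
      by_contra hcon
      exact h' p (Nat.mem_primesBelow.2 ⟨by omega, Nat.prime_of_mem_primeFactors hp⟩)
        (Nat.dvd_of_mem_primeFactors hp)
    · rintro ⟨h, h'⟩
      refine ⟨h, fun p hp hpn => ?_⟩
      have hp' := Nat.mem_primesBelow.1 hp
      have := h' p (Nat.mem_primeFactors.2 ⟨hp'.2, hpn, by omega⟩)
      omega
  have h3 := rlA_prod ⌊x⌋₊ N.primesBelow fun p hp => (Nat.prime_of_mem_primesBelow hp).two_le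
  rw [h2] at h3
  exact (mul_le_mul_of_nonneg_left h1 (VP_pos N).le).trans h3

end Pool.Agent.Helper69.PP
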