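import Pool.Agent.Helper69.PP.A1a

/-!
# PP-A1b: Rankin

# PP-A1: the flat density of the rough numbers

Lower bound: every `k ≤ x` is `a b` with `a` `N`-smooth, `b` `N`-rough, so `log x ≤ ∑_{k ≤ x} 1/k ≤ (∑_{a smooth} 1/a) RS N x` and
`∑_{a smooth} 1/a = VP N ⁻¹` (Mathlib: `EulerProduct.summable_and_hasSum_smoothNumbers_prod_primesBelow_geometric` or
`prod_primesBelow_tsum_eq_tsum_smoothNumbers`). Upper bound: `RS N x · ∑_{a smooth, a ≤ N^u} 1/a ≤ ∑_{k ≤ x N^u} 1/k ≤ 1 + log x + u log N`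
and Rankin: `∑_{a smooth, a > N^u} 1/a ≤ e^(-u) ∏ (1 - p^(β-1))⁻¹`, `β = 1/log N`, `≤ C e^(-u) VP N ⁻¹` by Mertens.
(Or helper57's identity.)

`smooth_tail` is proved with the Euler product of Mathlib for the completely multiplicative function `n^(β-1)` (`rpowHom`),
`(1 - 1/p)(1 - x)⁻¹ = 1 + (x - 1/p)/(1 - x)` for `x = p^(β-1) ≤ 2^(1/log 3 - 1) < 1`, `p^β - 1 ≤ 2 β log p` and `vM_upper`.
-/

open MeasureTheory Set Filter Topology
open Pool.Agent.Helper57.Zeta Pool.Agent.Helper57.PC Pool.Agent.Helper57.LH Pool.Agent.Helper78.SG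
open Pool.Agent.Helper4.SH

namespace Pool.Agent.Helper69.PP

open scoped ArithmeticFunction in
/-- `∑_{p < N} log p / p ≤ log N + C` -/
theorem smooth_tail_aux (N : ℕ) (hN : 3 ≤ N) :
    ∑ p ∈ N.primesBelow, Real.log p / p ≤ Real.log N + (Real.log 4 + 4) := by
  refine le_trans ?_ (Pool.Agent.Helper57.LS.vM_upper (N := N) (by omega))
  have h1 : N.primesBelow ⊆ Finset.range (N + 1) := by
    intro p hp
    rw [Nat.mem_primesBelow] at hp
    rw [Finset.mem_range]
    omega
  calc ∑ p ∈ N.primesBelow, Real.log p / p = ∑ p ∈ N.primesBelow, Λ p / p := by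
        refine Finset.sum_congr rfl fun p hp => ?_
        rw [Nat.mem_primesBelow] at hp
        rw [ArithmeticFunction.vonMangoldt_apply_prime hp.2]
    _ ≤ _ := Finset.sum_le_sum_of_subset_of_nonneg h1 fun d _ _ =>
        div_nonneg ArithmeticFunction.vonMangoldt_nonneg (Nat.cast_nonneg d)

/-- the completely multiplicative function `n ^ s` -/
noncomputable def rpowHom (s : ℝ) : ℕ →* ℝ where
  toFun n := (n : ℝ) ^ s
  map_one' := by simp
  map_mul' m n := by
    push_cast
    exact Real.mul_rpow (Nat.cast_nonneg m) (Nat.cast_nonneg n)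

/-- Rankin: the smooth tail -/
theorem smooth_tail : ∃ C : ℝ, 0 < C ∧ ∀ (N : ℕ), 3 ≤ N → ∀ u : ℝ, 0 ≤ u → ∀ X : ℕ,
    VP N * ∑ a ∈ (Finset.Icc 1 X).filter (fun a => a ∈ N.smoothNumbers ∧ (N : ℝ) ^ u < a), 1 / (a : ℝ) ≤ C * Real.exp (-u) := by
  classical
  have hlog3 : 1 < Real.log 3 := by
    rw [Real.lt_log_iff_exp_lt (by norm_num)]
    exact Real.exp_one_lt_three
  obtain ⟨q, hq⟩ : ∃ q : ℝ, q = (2 : ℝ) ^ (1 / Real.log 3 - 1) := ⟨_, rfl⟩
  have hq1 : q < 1 := by
    rw [hq]
    refine Real.rpow_lt_one_of_one_lt_of_neg (by norm_num) ?_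
    rw [sub_neg, div_lt_one (by linarith)]
    exact hlog3
  have hl4 : 0 ≤ Real.log 4 := Real.log_nonneg (by norm_num)
  refine ⟨Real.exp (2 * (1 + (Real.log 4 + 4)) / (1 - q)), Real.exp_pos _, fun N hN u hu X => ?_⟩
  have hN0 : (0 : ℝ) < N := by
    have : 0 < N := by omega
    exact_mod_cast this
  have hN3 : (3 : ℝ) ≤ N := by exact_mod_cast hN
  have hlN3 : Real.log 3 ≤ Real.log N := Real.log_le_log (by norm_num) hN3
  have hlN : 1 < Real.log N := by linarith
  obtain ⟨β, hβ⟩ : ∃ β : ℝ, β = 1 / Real.log N := ⟨_, rfl⟩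
  have hβ0 : 0 < β := by rw [hβ]; positivity
  have hβ1 : β < 1 := by rw [hβ, div_lt_one (by linarith)]; exact hlN
  have hβN : β * Real.log N = 1 := by rw [hβ]; field_simp
  have hβ3 : β ≤ 1 / Real.log 3 := by
    rw [hβ]
    exact one_div_le_one_div_of_le (by linarith) hlN3
  -- the Euler product
  have hf : ∀ {p : ℕ}, p.Prime → ‖rpowHom (β - 1) p‖ < 1 := by
    intro p hp
    have hp1 : (1 : ℝ) < p := by exact_mod_cast hp.one_lt
    show ‖(p : ℝ) ^ (β - 1)‖ < 1
    rw [Real.norm_of_nonneg (by positivity)]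
    exact Real.rpow_lt_one_of_one_lt_of_neg hp1 (by linarith)
  have hE := (EulerProduct.summable_and_hasSum_smoothNumbers_prod_primesBelow_geometric hf N).2
  have hE2 : HasSum ((N.smoothNumbers : Set ℕ).indicator (fun n : ℕ => (n : ℝ) ^ (β - 1)))
      (∏ p ∈ N.primesBelow, (1 - (p : ℝ) ^ (β - 1))⁻¹) := by
    rw [← hasSum_subtype_iff_indicator]
    exact hE
  have hS : ∑ a ∈ (Finset.Icc 1 X).filter (fun a => a ∈ N.smoothNumbers ∧ (N : ℝ) ^ u < a), 1 / (a : ℝ) ≤
      Real.exp (-u) * ∏ p ∈ N.primesBelow, (1 - (p : ℝ) ^ (β - 1))⁻¹ := by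
    have h1 := sum_le_hasSum ((Finset.Icc 1 X).filter (fun a => a ∈ N.smoothNumbers ∧ (N : ℝ) ^ u < a))
      (fun i _ => Set.indicator_nonneg (fun n _ => by positivity) i) hE2
    refine le_trans ?_ (mul_le_mul_of_nonneg_left h1 (Real.exp_pos _).le)
    rw [Finset.mul_sum]
    refine Finset.sum_le_sum fun a ha => ?_
    rw [Finset.mem_filter, Finset.mem_Icc] at ha
    obtain ⟨⟨ha1, _⟩, ha2, ha3⟩ := ha
    rw [Set.indicator_of_mem ha2]
    have ha0 : (0 : ℝ) < a := by exact_mod_cast ha1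
    have h2 : Real.exp u ≤ (a : ℝ) ^ β := by
      calc Real.exp u = ((N : ℝ) ^ u) ^ β := by
            rw [← Real.rpow_mul hN0.le, Real.rpow_def_of_pos hN0]
            congr 1
            calc u = u * (β * Real.log N) := by rw [hβN, mul_one]
              _ = _ := by ring
        _ ≤ (a : ℝ) ^ β := Real.rpow_le_rpow (by positivity) ha3.le hβ0.le
    have h3 : (a : ℝ) ^ (β - 1) = (a : ℝ) ^ β / a := Real.rpow_sub_one ha0.ne' β
    rw [h3, mul_div_assoc', div_le_div_iff_of_pos_right ha0]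
    calc (1 : ℝ) = Real.exp (-u) * Real.exp u := by rw [← Real.exp_add]; simp
      _ ≤ _ := mul_le_mul_of_nonneg_left h2 (Real.exp_pos _).le
  have hVP : 0 ≤ VP N := by
    unfold VP
    refine Finset.prod_nonneg fun p hp => ?_
    have hp1 : (1 : ℝ) ≤ p := by exact_mod_cast (Nat.prime_of_mem_primesBelow hp).one_lt.le
    have : (1 : ℝ) / p ≤ 1 := by rw [div_le_one (by linarith)]; exact hp1
    linarith
  have hP : VP N * ∏ p ∈ N.primesBelow, (1 - (p : ℝ) ^ (β - 1))⁻¹ ≤
      Real.exp (2 * (1 + (Real.log 4 + 4)) / (1 - q)) := by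
    unfold VP
    rw [← Finset.prod_mul_distrib]
    have h1 : ∏ p ∈ N.primesBelow, ((1 - 1 / (p : ℝ)) * (1 - (p : ℝ) ^ (β - 1))⁻¹) ≤
        ∏ p ∈ N.primesBelow, Real.exp (2 * β / (1 - q) * (Real.log p / p)) := by
      refine Finset.prod_le_prod (fun p hp => ?_) fun p hp => ?_
      · have hpp := Nat.prime_of_mem_primesBelow hp
        have hp1 : (1 : ℝ) < p := by exact_mod_cast hpp.one_lt
        have h2 : (1 : ℝ) / p ≤ 1 := by rw [div_le_one (by linarith)]; exact hp1.le
        have h3 : (p : ℝ) ^ (β - 1) < 1 := Real.rpow_lt_one_of_one_lt_of_neg hp1 (by linarith)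
        exact mul_nonneg (by linarith) (inv_nonneg.2 (by linarith))
      · have hpp := Nat.prime_of_mem_primesBelow hp
        have hpN : p < N := Nat.lt_of_mem_primesBelow hp
        have hp1 : (1 : ℝ) < p := by exact_mod_cast hpp.one_lt
        have hp2 : (2 : ℝ) ≤ p := by exact_mod_cast hpp.two_le
        have hp0 : (0 : ℝ) < p := by linarith
        have hlp : 0 ≤ Real.log p := Real.log_nonneg hp1.le
        obtain ⟨x, hx⟩ : ∃ x : ℝ, x = (p : ℝ) ^ (β - 1) := ⟨_, rfl⟩
        rw [← hx]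
        have hxq : x ≤ q := by
          rw [hx, hq]
          calc (p : ℝ) ^ (β - 1) ≤ 2 ^ (β - 1) :=
                Real.rpow_le_rpow_of_nonpos (by norm_num) hp2 (by linarith)
            _ ≤ 2 ^ (1 / Real.log 3 - 1) :=
                Real.rpow_le_rpow_of_exponent_le (by norm_num) (by linarith)
        have hx1 : x < 1 := by linarith
        have hxp : x - 1 / p ≤ 2 * β * (Real.log p / p) := by
          rw [hx, Real.rpow_sub_one hp0.ne', ← sub_div, mul_div_assoc', div_le_div_iff_of_pos_right hp0,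
            Real.rpow_def_of_pos hp0]
          have ht0 : 0 ≤ Real.log p * β := by positivity
          have ht1 : Real.log p * β ≤ 1 := by
            rw [← hβN, mul_comm]
            refine mul_le_mul_of_nonneg_left ?_ hβ0.le
            exact Real.log_le_log hp0 (by exact_mod_cast hpN.le)
          have h4 := Real.abs_exp_sub_one_sub_id_le (x := Real.log p * β)
            (by rw [abs_of_nonneg ht0]; exact ht1)
          have h5 := (abs_le.1 h4).2
          nlinarith
        have hx0 : 0 ≤ x - 1 / p := by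
          rw [hx, Real.rpow_sub_one hp0.ne', ← sub_div]
          have : 1 ≤ (p : ℝ) ^ β := Real.one_le_rpow hp1.le hβ0.le
          exact div_nonneg (by linarith) hp0.le
        have h6 : (1 - 1 / (p : ℝ)) * (1 - x)⁻¹ = 1 + (x - 1 / p) / (1 - x) := by
          have : 1 - x ≠ 0 := by linarith
          field_simp
          ring
        rw [h6]
        have h7 : (x - 1 / p) / (1 - x) ≤ 2 * β / (1 - q) * (Real.log p / p) := by
          calc (x - 1 / p) / (1 - x) ≤ (x - 1 / p) / (1 - q) :=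
                div_le_div_of_nonneg_left hx0 (by linarith) (by linarith)
            _ ≤ (2 * β * (Real.log p / p)) / (1 - q) :=
                div_le_div_of_nonneg_right hxp (by linarith)
            _ = _ := by ring
        have h8 := Real.add_one_le_exp (2 * β / (1 - q) * (Real.log p / p))
        linarith
    refine h1.trans ?_
    rw [← Real.exp_sum, ← Finset.mul_sum]
    refine Real.exp_le_exp.2 ?_
    have h2 := smooth_tail_aux N hN
    have h3 : 0 ≤ 2 * β / (1 - q) := div_nonneg (by linarith) (by linarith)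
    refine (mul_le_mul_of_nonneg_left h2 h3).trans ?_
    have h4 : 2 * β / (1 - q) * (Real.log N + (Real.log 4 + 4)) =
        2 * (β * Real.log N + β * (Real.log 4 + 4)) / (1 - q) := by ring
    rw [h4, hβN]
    refine div_le_div_of_nonneg_right ?_ (by linarith)
    nlinarith
  calc _ ≤ VP N * (Real.exp (-u) * ∏ p ∈ N.primesBelow, (1 - (p : ℝ) ^ (β - 1))⁻¹) :=
        mul_le_mul_of_nonneg_left hS hVP
    _ = (VP N * ∏ p ∈ N.primesBelow, (1 - (p : ℝ) ^ (β - 1))⁻¹) * Real.exp (-u) := by ring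
    _ ≤ _ := mul_le_mul_of_nonneg_right hP (Real.exp_pos _).le

end Pool.Agent.Helper69.PP
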