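import Pool.Agent.Helper69.PP.A1b

/-!
# PP-A1c: upper bound and flatness

# PP-A1: the flat density of the rough numbers

Lower bound: every `k ≤ x` is `a b` with `a` `N`-smooth, `b` `N`-rough, so `log x ≤ ∑_{k ≤ x} 1/k ≤ (∑_{a smooth} 1/a) RS N x` and
`∑_{a smooth} 1/a = VP N ⁻¹` (Mathlib: `EulerProduct.summable_and_hasSum_smoothNumbers_prod_primesBelow_geometric` or
`prod_primesBelow_tsum_eq_tsum_smoothNumbers`). Upper bound: `RS N x · ∑_{a smooth, a ≤ N^u} 1/a ≤ ∑_{k ≤ x N^u} 1/k ≤ 1 + log x + u log N`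
and Rankin: `∑_{a smooth, a > N^u} 1/a ≤ e^(-u) ∏ (1 - p^(β-1))⁻¹`, `β = 1/log N`, `≤ C e^(-u) VP N ⁻¹` by Mertens.
(Or helper57's identity.)
-/

open MeasureTheory Set Filter Topology
open Pool.Agent.Helper57.Zeta Pool.Agent.Helper57.PC Pool.Agent.Helper57.LH Pool.Agent.Helper78.SG
open Pool.Agent.Helper4.SH

namespace Pool.Agent.Helper69.PP

/-- `∑_{a smooth} 1/a = VP N ⁻¹` -/
private theorem a1c_hasSum (N : ℕ) :
    HasSum ((N.smoothNumbers : Set ℕ).indicator (fun n : ℕ => 1 / (n : ℝ))) (VP N)⁻¹ := by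
  have hf : ∀ {p : ℕ}, p.Prime → ‖rpowHom (-1) p‖ < 1 := by
    intro p hp
    have hp1 : (1 : ℝ) < p := by exact_mod_cast hp.one_lt
    show ‖(p : ℝ) ^ (-1 : ℝ)‖ < 1
    rw [Real.norm_of_nonneg (by positivity)]
    exact Real.rpow_lt_one_of_one_lt_of_neg hp1 (by norm_num)
  have hE := (EulerProduct.summable_and_hasSum_smoothNumbers_prod_primesBelow_geometric hf N).2
  have h1 : ∏ p ∈ N.primesBelow, (1 - rpowHom (-1) p)⁻¹ = (VP N)⁻¹ := by
    unfold VP
    rw [← Finset.prod_inv_distrib]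
    refine Finset.prod_congr rfl fun p _ => ?_
    show (1 - (p : ℝ) ^ (-1 : ℝ))⁻¹ = _
    rw [Real.rpow_neg_one, one_div]
  rw [h1] at hE
  rw [← hasSum_subtype_iff_indicator]
  have h2 : ((fun n : ℕ => 1 / (n : ℝ)) ∘ ((↑) : N.smoothNumbers → ℕ)) =
      fun m : N.smoothNumbers => rpowHom (-1) m := by
    funext m
    show 1 / ((m : ℕ) : ℝ) = ((m : ℕ) : ℝ) ^ (-1 : ℝ)
    rw [Real.rpow_neg_one, one_div]
  rw [h2]
  exact hE

/-- harmonic sum bound -/
private theorem a1c_harm {y : ℝ} (hy : 1 ≤ y) :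
    ∑ k ∈ Finset.Icc 1 ⌊y⌋₊, 1 / (k : ℝ) ≤ 1 + Real.log y := by
  have h1 := harmonic_floor_le_one_add_log y hy
  refine le_trans (le_of_eq ?_) h1
  rw [harmonic_eq_sum_Icc]
  push_cast
  refine Finset.sum_congr rfl fun k _ => ?_
  rw [one_div]

/-- smooth times rough: `RS N x · ∑_{a smooth, a ≤ Y} 1/a ≤ 1 + log (x Y)` -/
private theorem a1c_mul {N : ℕ} {x Y : ℝ} (hx : 1 ≤ x) (hY : 1 ≤ Y) :
    RS N x * ∑ a ∈ (Finset.Icc 1 ⌊Y⌋₊).filter (fun a => a ∈ N.smoothNumbers), 1 / (a : ℝ) ≤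
      1 + Real.log (x * Y) := by
  classical
  refine le_trans ?_ (a1c_harm (y := x * Y) (by nlinarith))
  unfold RS
  rw [Finset.sum_mul_sum, ← Finset.sum_product']
  have h1 : ∀ q : ℕ × ℕ, 1 / (q.1 : ℝ) * (1 / (q.2 : ℝ)) = 1 / ((q.1 * q.2 : ℕ) : ℝ) := by
    intro q
    push_cast
    rw [one_div_mul_one_div]
  rw [Finset.sum_congr rfl fun q _ => h1 q]
  have hinj : Set.InjOn (fun q : ℕ × ℕ => q.1 * q.2)
      (((RN N x) ×ˢ ((Finset.Icc 1 ⌊Y⌋₊).filter (fun a => a ∈ N.smoothNumbers)) :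
        Finset (ℕ × ℕ)) : Set (ℕ × ℕ)) := by
    rintro ⟨b, a⟩ h ⟨b', a'⟩ h' heq
    rw [Finset.mem_coe, Finset.mem_product, mem_RN, Finset.mem_filter, Finset.mem_Icc] at h h'
    simp only at h h' heq
    obtain ⟨⟨hb0, _, hb⟩, ⟨ha1, _⟩, ha⟩ := h
    obtain ⟨⟨hb0', _, hb'⟩, ⟨ha1', _⟩, ha'⟩ := h'
    have key : ∀ (b a b' a' : ℕ), b ≠ 0 → a ∈ N.smoothNumbers →
        (∀ p ∈ b.primeFactors, N ≤ p) → a' ∈ N.smoothNumbers → b' ≠ 0 →
        (∀ p ∈ b'.primeFactors, N ≤ p) → b * a = b' * a' → a ∣ a' := by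
      intro b a b' a' hb0 ha hb ha' hb0' hb' heq
      have hco : Nat.Coprime a b' := by
        rw [Nat.coprime_iff_gcd_eq_one]
        by_contra hg
        obtain ⟨p, hp, hpd⟩ := Nat.exists_prime_and_dvd hg
        have hpa : p ∣ a := hpd.trans (Nat.gcd_dvd_left _ _)
        have hpb : p ∣ b' := hpd.trans (Nat.gcd_dvd_right _ _)
        have h1 : p < N := (Nat.mem_smoothNumbers'.1 ha) p hp hpa
        have h2 : N ≤ p := hb' p (Nat.mem_primeFactors.2 ⟨hp, hpb, hb0'⟩)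
        omega
      have hd : a ∣ b' * a' := by
        rw [← heq]
        exact dvd_mul_left _ _
      exact hco.dvd_of_dvd_mul_left hd
    have h1 : a ∣ a' := key b a b' a' hb0 ha hb ha' hb0' hb' heq
    have h2 : a' ∣ a := key b' a' b a hb0' ha' hb' ha hb0 hb heq.symm
    have h3 : a = a' := Nat.dvd_antisymm h1 h2
    subst h3
    have h4 : b = b' := Nat.eq_of_mul_eq_mul_right (by omega) heq
    rw [h4]
  rw [← Finset.sum_image (f := fun k : ℕ => 1 / (k : ℝ)) hinj]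
  refine Finset.sum_le_sum_of_subset_of_nonneg ?_ (fun _ _ _ => by positivity)
  intro k hk
  rw [Finset.mem_image] at hk
  obtain ⟨⟨b, a⟩, hq, rfl⟩ := hk
  rw [Finset.mem_product, mem_RN, Finset.mem_filter, Finset.mem_Icc] at hq
  simp only at hq
  obtain ⟨⟨hb0, hbx, _⟩, ⟨ha1, haY⟩, _⟩ := hq
  rw [Finset.mem_Icc]
  have hb1 : 1 ≤ b := Nat.one_le_iff_ne_zero.2 hb0
  refine ⟨Nat.mul_pos hb1 ha1, ?_⟩
  have haY' : (a : ℝ) ≤ Y := (Nat.le_floor_iff' (by omega)).1 haY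
  have h0 : (b * a : ℕ) ≠ 0 := (Nat.mul_pos hb1 ha1).ne'
  rw [Nat.le_floor_iff' h0]
  push_cast
  exact mul_le_mul hbx haY' (by positivity) (by linarith)

/-- upper bound -/
theorem rough_up : ∃ C : ℝ, 0 < C ∧ ∀ (N : ℕ), 3 ≤ N → ∀ u : ℝ, 0 ≤ u → ∀ x : ℝ, 1 ≤ x →
    RS N x * (1 - C * Real.exp (-u)) ≤ VP N * (1 + Real.log x + u * Real.log N) := by
  classical
  obtain ⟨C, hC, hT⟩ := smooth_tail
  refine ⟨C, hC, fun N hN u hu x hx => ?_⟩
  have hN0 : (0 : ℝ) < N := by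
    have : 0 < N := by omega
    exact_mod_cast this
  have hN1 : (1 : ℝ) ≤ N := by
    have : 1 ≤ N := by omega
    exact_mod_cast this
  have hV := VP_pos N
  have hY : (1 : ℝ) ≤ (N : ℝ) ^ u := Real.one_le_rpow hN1 hu
  obtain ⟨A, hA⟩ : ∃ A : ℝ, A = ∑ a ∈ (Finset.Icc 1 ⌊(N : ℝ) ^ u⌋₊).filter
      (fun a => a ∈ N.smoothNumbers), 1 / (a : ℝ) := ⟨_, rfl⟩
  have h1 : RS N x * A ≤ 1 + Real.log x + u * Real.log N := by
    rw [hA]
    refine (a1c_mul hx hY).trans (le_of_eq ?_)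
    rw [Real.log_mul (by linarith) (by linarith), Real.log_rpow hN0]
    ring
  -- the whole smooth sum
  have h2 : (VP N)⁻¹ ≤ A + C * Real.exp (-u) * (VP N)⁻¹ := by
    refine le_of_tendsto' (a1c_hasSum N).tendsto_sum_nat fun X => ?_
    have h3 := hT N hN u hu X
    have h4 : ∑ a ∈ (Finset.Icc 1 X).filter (fun a => a ∈ N.smoothNumbers ∧ (N : ℝ) ^ u < a),
        1 / (a : ℝ) ≤ C * Real.exp (-u) * (VP N)⁻¹ := by
      rw [← div_eq_mul_inv, le_div_iff₀ hV]
      linarith [mul_comm (VP N) (∑ a ∈ (Finset.Icc 1 X).filter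
        (fun a => a ∈ N.smoothNumbers ∧ (N : ℝ) ^ u < a), 1 / (a : ℝ))]
    have h5 : ∑ i ∈ Finset.range X, (N.smoothNumbers : Set ℕ).indicator
        (fun n : ℕ => 1 / (n : ℝ)) i ≤
        ∑ a ∈ ((Finset.Icc 1 ⌊(N : ℝ) ^ u⌋₊).filter (fun a => a ∈ N.smoothNumbers)) ∪
          ((Finset.Icc 1 X).filter (fun a => a ∈ N.smoothNumbers ∧ (N : ℝ) ^ u < a)),
          1 / (a : ℝ) := by
      rw [← Finset.sum_filter_add_sum_filter_not (Finset.range X)
        (fun i => i ∈ N.smoothNumbers)]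
      have h6 : ∑ i ∈ (Finset.range X).filter (fun i => ¬ i ∈ N.smoothNumbers),
          (N.smoothNumbers : Set ℕ).indicator (fun n : ℕ => 1 / (n : ℝ)) i = 0 := by
        refine Finset.sum_eq_zero fun i hi => ?_
        rw [Finset.mem_filter] at hi
        exact Set.indicator_of_notMem hi.2 _
      rw [h6, add_zero]
      have h7 : ∑ i ∈ (Finset.range X).filter (fun i => i ∈ N.smoothNumbers),
          (N.smoothNumbers : Set ℕ).indicator (fun n : ℕ => 1 / (n : ℝ)) i =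
          ∑ i ∈ (Finset.range X).filter (fun i => i ∈ N.smoothNumbers), 1 / (i : ℝ) := by
        refine Finset.sum_congr rfl fun i hi => ?_
        rw [Finset.mem_filter] at hi
        exact Set.indicator_of_mem hi.2 _
      rw [h7]
      refine Finset.sum_le_sum_of_subset_of_nonneg ?_ (fun _ _ _ => by positivity)
      intro i hi
      rw [Finset.mem_filter, Finset.mem_range] at hi
      have hi0 : i ≠ 0 := Nat.ne_zero_of_mem_smoothNumbers hi.2
      rw [Finset.mem_union, Finset.mem_filter, Finset.mem_filter, Finset.mem_Icc, Finset.mem_Icc]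
      by_cases hiY : (N : ℝ) ^ u < i
      · right
        exact ⟨⟨by omega, by omega⟩, hi.2, hiY⟩
      · left
        refine ⟨⟨by omega, ?_⟩, hi.2⟩
        rw [Nat.le_floor_iff' hi0]
        exact not_lt.1 hiY
    refine h5.trans ?_
    have h8 := Finset.sum_union_inter (s₁ := (Finset.Icc 1 ⌊(N : ℝ) ^ u⌋₊).filter
        (fun a => a ∈ N.smoothNumbers)) (s₂ := (Finset.Icc 1 X).filter
        (fun a => a ∈ N.smoothNumbers ∧ (N : ℝ) ^ u < a)) (f := fun a : ℕ => 1 / (a : ℝ))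
    have h9 : 0 ≤ ∑ a ∈ ((Finset.Icc 1 ⌊(N : ℝ) ^ u⌋₊).filter (fun a => a ∈ N.smoothNumbers)) ∩
          ((Finset.Icc 1 X).filter (fun a => a ∈ N.smoothNumbers ∧ (N : ℝ) ^ u < a)),
          1 / (a : ℝ) := Finset.sum_nonneg fun _ _ => by positivity
    rw [← hA] at h8
    linarith
  have h3 : 1 - C * Real.exp (-u) ≤ VP N * A := by
    have h4 := mul_le_mul_of_nonneg_left h2 hV.le
    have h5 : VP N * (VP N)⁻¹ = 1 := mul_inv_cancel₀ hV.ne'
    have h6 : VP N * (A + C * Real.exp (-u) * (VP N)⁻¹) =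
        VP N * A + C * Real.exp (-u) * (VP N * (VP N)⁻¹) := by ring
    rw [h6, h5] at h4
    linarith
  have hRS : 0 ≤ RS N x := by
    unfold RS
    exact Finset.sum_nonneg fun _ _ => by positivity
  calc RS N x * (1 - C * Real.exp (-u)) ≤ RS N x * (VP N * A) :=
        mul_le_mul_of_nonneg_left h3 hRS
    _ = VP N * (RS N x * A) := by ring
    _ ≤ _ := mul_le_mul_of_nonneg_left h1 hV.le

/-- the rough numbers `≤ x < N` are only `1` -/
private theorem a1c_RS_one {N : ℕ} {x : ℝ} (hx : 1 ≤ x) (hxN : x < N) : RS N x = 1 := by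
  have h1 : RN N x = {1} := by
    ext n
    rw [mem_RN, Finset.mem_singleton]
    constructor
    · rintro ⟨hn, hnx, hp⟩
      by_contra hne
      obtain ⟨p, hpp, hpd⟩ := Nat.exists_prime_and_dvd hne
      have h2 := hp p (Nat.mem_primeFactors.2 ⟨hpp, hpd, hn⟩)
      have h3 : p ≤ n := Nat.le_of_dvd (Nat.pos_of_ne_zero hn) hpd
      have h4 : (N : ℝ) ≤ n := by exact_mod_cast h2.trans h3
      linarith
    · rintro rfl
      refine ⟨one_ne_zero, by simpa using hx, ?_⟩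
      intro p hp
      simp at hp
  unfold RS
  rw [h1]
  simp

/-- `V log T ≤ 2/δ`: the rough numbers `< N` are only `1`, so `V log (N-1) ≤ 1` -/
theorem VP_up {N : ℕ} (hN : 3 ≤ N) : VP N * Real.log (N - 1) ≤ 1 := by
  have hN3 : (3 : ℝ) ≤ N := by exact_mod_cast hN
  have h1 := rough_low (N := N) (x := (N : ℝ) - 1) (by linarith)
  rwa [a1c_RS_one (by linarith) (by linarith)] at h1

/-- flatness for small `δ` -/
theorem flat {ε : ℝ} (hε : 0 < ε) : ∃ δ0 : ℝ, 0 < δ0 ∧ ∀ P : Par, P.δ ≤ δ0 → Flat P ε := by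
  obtain ⟨C, hC, hup⟩ := rough_up
  obtain ⟨m, hm⟩ : ∃ m : ℝ, m = min ε 1 := ⟨_, rfl⟩
  have hm0 : 0 < m := by rw [hm]; exact lt_min hε one_pos
  have hm1 : m ≤ 1 := by rw [hm]; exact min_le_right _ _
  have hmε : m ≤ ε := by rw [hm]; exact min_le_left _ _
  obtain ⟨η, hη⟩ : ∃ η : ℝ, η = m / 4 := ⟨_, rfl⟩
  have hη0 : 0 < η := by rw [hη]; positivity
  obtain ⟨u, hu⟩ : ∃ u : ℝ, u = max 1 (Real.log (C / η)) := ⟨_, rfl⟩
  have hu1 : 1 ≤ u := by rw [hu]; exact le_max_left _ _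
  have hu0 : 0 < u := by linarith
  have huC : C * Real.exp (-u) ≤ η := by
    have h1 : Real.log (C / η) ≤ u := by rw [hu]; exact le_max_right _ _
    have h2 : C / η ≤ Real.exp u := by
      rw [← Real.log_le_iff_le_exp (by positivity)]
      exact h1
    rw [Real.exp_neg, ← div_eq_mul_inv, div_le_iff₀ (Real.exp_pos _)]
    rw [div_le_iff₀ hη0] at h2
    linarith
  refine ⟨m / (4 * u), by positivity, fun P hP => ?_⟩
  have hδ := P.hδ
  have huδ : u * P.δ ≤ m / 4 := by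
    have h1 := mul_le_mul_of_nonneg_left hP hu0.le
    have h2 : u * (m / (4 * u)) = m / 4 := by field_simp
    linarith
  have hT1 : ∀ᶠ T : ℝ in atTop, 2 ≤ T ^ (P.δ / 2) :=
    (tendsto_rpow_atTop (by linarith : 0 < P.δ / 2)).eventually_ge_atTop 2
  have hT2 : ∀ᶠ T : ℝ in atTop, 4 * (1 + u) / m ≤ Real.log T :=
    Real.tendsto_log_atTop.eventually_ge_atTop _
  filter_upwards [hT1, hT2, eventually_gt_atTop 1] with T h1 h2 h3
  have hT0 : 0 < T := by linarith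
  have hL : 0 < Real.log T := Real.log_pos h3
  obtain ⟨L, hLd⟩ : ∃ L : ℝ, L = Real.log T := ⟨_, rfl⟩
  rw [← hLd] at hL h2
  have hLu : (1 + u) / L ≤ m / 4 := by
    rw [div_le_iff₀ hL]
    rw [div_le_iff₀ hm0] at h2
    linarith
  have hsq : T ^ P.δ = T ^ (P.δ / 2) * T ^ (P.δ / 2) := by
    rw [← Real.rpow_add hT0]
    congr 1
    ring
  obtain ⟨y, hy⟩ : ∃ y : ℝ, y = T ^ (P.δ / 2) := ⟨_, rfl⟩
  rw [← hy] at h1 hsq
  obtain ⟨N, hN⟩ : ∃ N : ℕ, N = NS P T := ⟨_, rfl⟩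
  have hN1 : T ^ P.δ ≤ N := by rw [hN]; exact Nat.le_ceil _
  have hN2 : (N : ℝ) < T ^ P.δ + 1 := by
    rw [hN]
    exact Nat.ceil_lt_add_one (by positivity)
  have hN4 : (4 : ℝ) ≤ N := by
    rw [hsq] at hN1
    nlinarith
  have hN3 : 3 ≤ N := by
    have : (3 : ℝ) ≤ N := by linarith
    exact_mod_cast this
  have hV := VP_pos N
  have hlogN : Real.log N ≤ P.δ * L + 1 := by
    have h5 : (N : ℝ) ≤ Real.exp (P.δ * L + 1) := by
      rw [Real.exp_add, hLd, mul_comm P.δ, ← Real.rpow_def_of_pos hT0]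
      have h6 : (2 : ℝ) ≤ Real.exp 1 := by
        have := Real.add_one_le_exp (1 : ℝ)
        linarith
      have h7 : (1 : ℝ) ≤ T ^ P.δ := by
        rw [hsq]
        nlinarith
      nlinarith
    have h6 := Real.log_le_log (by linarith) h5
    rwa [Real.log_exp] at h6
  have hvT : vT P T = VP N * L := by
    unfold vT
    rw [hN, hLd]
  have hv0 : 0 < vT P T := by
    rw [hvT]
    exact mul_pos hV hL
  -- the master inequality
  have key : ∀ θ : ℝ, 0 ≤ θ → RS N (T ^ θ) * (1 - η) ≤ vT P T * (θ + m / 2) := by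
    intro θ hθ
    have h5 := hup N hN3 u hu0.le (T ^ θ) (Real.one_le_rpow h3.le hθ)
    rw [Real.log_rpow hT0, ← hLd] at h5
    have hRS : 0 ≤ RS N (T ^ θ) := by
      unfold RS
      exact Finset.sum_nonneg fun _ _ => by positivity
    have h6 : RS N (T ^ θ) * (1 - η) ≤ RS N (T ^ θ) * (1 - C * Real.exp (-u)) :=
      mul_le_mul_of_nonneg_left (by linarith) hRS
    refine h6.trans (h5.trans ?_)
    rw [hvT]
    have h7 : 1 + θ * L + u * Real.log N ≤ L * (θ + m / 2) := by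
      have h8 := mul_le_mul_of_nonneg_left hlogN hu0.le
      have h9 : 1 + u ≤ m / 4 * L := by rwa [div_le_iff₀ hL] at hLu
      have h10 : u * P.δ * L ≤ m / 4 * L := mul_le_mul_of_nonneg_right huδ hL.le
      nlinarith
    calc VP N * (1 + θ * L + u * Real.log N) ≤ VP N * (L * (θ + m / 2)) :=
          mul_le_mul_of_nonneg_left h7 hV.le
      _ = _ := by ring
  refine ⟨?_, ?_, ?_⟩
  · -- `1/2 ≤ vT`
    have h5 := key 0 le_rfl
    rw [Real.rpow_zero, a1c_RS_one le_rfl (by linarith)] at h5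
    have h6 : 1 - η ≥ 3 / 4 := by rw [hη]; linarith
    have h7 : vT P T * (0 + m / 2) ≤ vT P T * (1 / 2) :=
      mul_le_mul_of_nonneg_left (by linarith) hv0.le
    linarith
  · -- `vT ≤ 2/δ`
    have h5 := VP_up hN3
    have h6 : P.δ / 2 * L ≤ Real.log (N - 1) := by
      have h7 : y ≤ (N : ℝ) - 1 := by
        rw [hsq] at hN1
        nlinarith
      have h8 := Real.log_le_log (by linarith) h7
      rw [hy, Real.log_rpow hT0, ← hLd] at h8
      exact h8
    have h7 : VP N * (P.δ / 2 * L) ≤ 1 := (mul_le_mul_of_nonneg_left h6 hV.le).trans h5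
    rw [hvT, le_div_iff₀ hδ]
    linarith
  · rintro θ ⟨hθ0, hθ1⟩
    rw [← hN]
    constructor
    · have h5 := rough_low (N := N) (x := T ^ θ) (Real.one_le_rpow h3.le hθ0)
      rw [Real.log_rpow hT0, ← hLd] at h5
      rw [hvT]
      linarith
    · have h5 := key θ hθ0
      have h6 : θ + m / 2 ≤ (1 - η) * (θ + m) := by
        rw [hη]
        nlinarith
      have h7 : RS N (T ^ θ) * (1 - η) ≤ (vT P T * (θ + m)) * (1 - η) := by
        calc _ ≤ vT P T * (θ + m / 2) := h5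
          _ ≤ vT P T * ((1 - η) * (θ + m)) := mul_le_mul_of_nonneg_left h6 hv0.le
          _ = _ := by ring
      have h8 : 0 < 1 - η := by rw [hη]; linarith
      have h9 := le_of_mul_le_mul_right h7 h8
      have h10 : vT P T * (θ + m) ≤ vT P T * (θ + ε) :=
        mul_le_mul_of_nonneg_left (by linarith) hv0.le
      linarith

end Pool.Agent.Helper69.PP
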