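import Pool.Agent.Helper69.PP.MomSum
import Pool.Agent.Helper69.PP.A0a

/-!
# PP-A2c: not coprime

# PP-A2: collisions, parameters

Not good: divisible by the square of a prime `≥ N` (`∑_{p ≥ N} 1/p² · RS ≤ (2/N) RS`) or by two distinct primes of one cell
(`∑_l (∑_{p ∈ cell l} 1/p)² RS`; the cells that occur have `l ≥ δ G`; `∑_{p ∈ cell l} 1/p ≤ 2/(l-1)` for `T` large, by `mert_log` with
`a = δ/2`, so the sum is `≤ 8/(δ G)`).
-/

open MeasureTheory Set Filter Topology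
open Pool.Agent.Helper57.Zeta Pool.Agent.Helper57.PC Pool.Agent.Helper57.LH Pool.Agent.Helper78.SG
open Pool.Agent.Helper4.SH

namespace Pool.Agent.Helper69.PP

private lemma good_div {P : Par} {T : ℝ} {n p : ℕ} (h : Gd P T n)
    (hpn : p ∣ n) : n / p ∈ (Finset.Icc 1 ⌊T⌋₊).filter
      (fun n => ∀ p ∈ n.primeFactors, ⌈T ^ P.δ⌉₊ ≤ p) := by
  obtain ⟨⟨h0, h1⟩, -, -, h4⟩ := h
  have hpos : 0 < n := Nat.pos_of_ne_zero h0
  have hd : n / p ∣ n := Nat.div_dvd_of_dvd hpn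
  have hdpos : 0 < n / p := Nat.pos_of_dvd_of_pos hd hpos
  rw [Finset.mem_filter, Finset.mem_Icc]
  refine ⟨⟨hdpos, ?_⟩, ?_⟩
  · apply Nat.le_floor
    have : ((n / p : ℕ) : ℝ) ≤ n := by exact_mod_cast Nat.le_of_dvd hpos hd
    linarith
  · intro q hq
    have hq' : q ∈ n.primeFactors := Nat.primeFactors_mono hd h0 hq
    exact Nat.ceil_le.2 (h1 q hq')

/-- pairs that are not coprime are negligible: a common prime factor is `≥ N` -/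
theorem noncop (P : Par) {ε : ℝ} (hε : 0 < ε) : ∀ᶠ T : ℝ in atTop,
    ∑ x ∈ ((NA P T) ×ˢ (NB P T)).filter (fun x => ¬ Nat.Coprime x.1 x.2), 1 / ((x.1 : ℝ) * x.2) ≤ ε := by
  classical
  obtain ⟨C, hC, hC1⟩ := rough_sum P.δ P.hδ (by linarith [P.hδ1])
  filter_upwards [hC1, eventually_ge_atTop (1 : ℝ),
    (tendsto_rpow_atTop P.hδ).eventually_ge_atTop (2 * C ^ 2 / ε)] with T hT hT1 hT2
  set S := (Finset.Icc 1 ⌊T⌋₊).filter (fun n => ∀ p ∈ n.primeFactors, ⌈T ^ P.δ⌉₊ ≤ p) with hS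
  set A := ((NA P T) ×ˢ (NB P T)).filter (fun x => ¬ Nat.Coprime x.1 x.2) with hA
  set N := ⌈T ^ P.δ⌉₊ with hN
  have hN1 : T ^ P.δ ≤ N := Nat.le_ceil _
  have hTd : 0 < T ^ P.δ := Real.rpow_pos_of_pos (by linarith) _
  have hN0 : 0 < N := by
    have : (0 : ℝ) < N := lt_of_lt_of_le hTd hN1
    exact_mod_cast this
  let f : ℕ × ℕ → ℕ × ℕ × ℕ := fun x =>
    ((Nat.gcd x.1 x.2).minFac, x.1 / (Nat.gcd x.1 x.2).minFac, x.2 / (Nat.gcd x.1 x.2).minFac)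
  let h : ℕ × ℕ × ℕ → ℝ := fun y => ((y.1 : ℝ) ^ 2)⁻¹ * (1 / (y.2.1 : ℝ) * (1 / (y.2.2 : ℝ)))
  have hprop : ∀ x ∈ A, Gd P T x.1 ∧ Gd P T x.2 ∧ ((Nat.gcd x.1 x.2).minFac).Prime ∧
      (Nat.gcd x.1 x.2).minFac ∣ x.1 ∧ (Nat.gcd x.1 x.2).minFac ∣ x.2 := by
    intro x hx
    rw [hA, Finset.mem_filter, Finset.mem_product] at hx
    obtain ⟨⟨h1, h2⟩, h3⟩ := hx
    have h1' := (Finset.mem_filter.1 h1).2.1
    have h2' := (Finset.mem_filter.1 h2).2.1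
    refine ⟨h1', h2', Nat.minFac_prime h3, ?_, ?_⟩
    · exact (Nat.minFac_dvd _).trans (Nat.gcd_dvd_left _ _)
    · exact (Nat.minFac_dvd _).trans (Nat.gcd_dvd_right _ _)
  have hinj : Set.InjOn f A := by
    intro x hx y hy hxy
    obtain ⟨-, -, hp, h1, h2⟩ := hprop x hx
    obtain ⟨-, -, hq, h3, h4⟩ := hprop y hy
    have e1 : (Nat.gcd x.1 x.2).minFac = (Nat.gcd y.1 y.2).minFac := congrArg Prod.fst hxy
    have e2 : x.1 / (Nat.gcd x.1 x.2).minFac = y.1 / (Nat.gcd y.1 y.2).minFac :=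
      congrArg (fun z => z.2.1) hxy
    have e3 : x.2 / (Nat.gcd x.1 x.2).minFac = y.2 / (Nat.gcd y.1 y.2).minFac :=
      congrArg (fun z => z.2.2) hxy
    apply Prod.ext
    · rw [← Nat.div_mul_cancel h1, ← Nat.div_mul_cancel h3, e2, e1]
    · rw [← Nat.div_mul_cancel h2, ← Nat.div_mul_cancel h4, e3, e1]
  have hsum : ∑ x ∈ A, 1 / ((x.1 : ℝ) * x.2) = ∑ y ∈ A.image f, h y := by
    rw [Finset.sum_image hinj]
    apply Finset.sum_congr rfl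
    intro x hx
    obtain ⟨⟨⟨h01, -⟩, -⟩, ⟨⟨h02, -⟩, -⟩, hp, h1, h2⟩ := hprop x hx
    show 1 / ((x.1 : ℝ) * x.2) = ((((Nat.gcd x.1 x.2).minFac : ℕ) : ℝ) ^ 2)⁻¹ *
      (1 / ((x.1 / (Nat.gcd x.1 x.2).minFac : ℕ) : ℝ) *
        (1 / ((x.2 / (Nat.gcd x.1 x.2).minFac : ℕ) : ℝ)))
    set p := (Nat.gcd x.1 x.2).minFac with hpdef
    have hp0 : (p : ℝ) ≠ 0 := by exact_mod_cast hp.ne_zero
    rw [Nat.cast_div h1 hp0, Nat.cast_div h2 hp0]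
    have hx1 : (x.1 : ℝ) ≠ 0 := by exact_mod_cast h01
    have hx2 : (x.2 : ℝ) ≠ 0 := by exact_mod_cast h02
    field_simp
  have hsub : A.image f ⊆ (Finset.Ioo (N - 1) (⌊T⌋₊ + 1)) ×ˢ (S ×ˢ S) := by
    intro y hy
    obtain ⟨x, hx, rfl⟩ := Finset.mem_image.1 hy
    obtain ⟨h1, h2, hp, h3, h4⟩ := hprop x hx
    rw [Finset.mem_product, Finset.mem_product]
    refine ⟨?_, good_div h1 h3, good_div h2 h4⟩
    show (Nat.gcd x.1 x.2).minFac ∈ _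
    rw [Finset.mem_Ioo]
    have h5 : (Nat.gcd x.1 x.2).minFac ∈ x.1.primeFactors :=
      Nat.mem_primeFactors.2 ⟨hp, h3, h1.1.1⟩
    have h6 : N ≤ (Nat.gcd x.1 x.2).minFac := Nat.ceil_le.2 (h1.1.2 _ h5)
    have h7 : (Nat.gcd x.1 x.2).minFac ≤ ⌊T⌋₊ :=
      (Nat.le_of_dvd (Nat.pos_of_ne_zero h1.1.1) h3).trans (Nat.le_floor h1.2.2.2)
    omega
  have hh0 : ∀ y, 0 ≤ h y := fun y => by positivity
  rw [hsum]
  calc ∑ y ∈ A.image f, h y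
      ≤ ∑ y ∈ (Finset.Ioo (N - 1) (⌊T⌋₊ + 1)) ×ˢ (S ×ˢ S), h y :=
        Finset.sum_le_sum_of_subset_of_nonneg hsub (fun y _ _ => hh0 y)
    _ = (∑ p ∈ Finset.Ioo (N - 1) (⌊T⌋₊ + 1), ((p : ℝ) ^ 2)⁻¹) *
        ((∑ a ∈ S, 1 / (a : ℝ)) * ∑ b ∈ S, 1 / (b : ℝ)) := by
        rw [Finset.sum_mul_sum S S, Finset.sum_product, Finset.sum_mul]
        apply Finset.sum_congr rfl
        intro p _
        rw [Finset.sum_product, Finset.mul_sum]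
        apply Finset.sum_congr rfl
        intro a _
        rw [Finset.mul_sum]
    _ ≤ (2 / T ^ P.δ) * (C * C) := by
        have h1 := sum_Ioo_inv_sq_le (α := ℝ) (N - 1) (⌊T⌋₊ + 1)
        have h2 : ((N - 1 : ℕ) : ℝ) + 1 = N := by
          rw [Nat.cast_sub hN0]; push_cast; ring
        rw [h2] at h1
        have h3 : (2 : ℝ) / N ≤ 2 / T ^ P.δ := by gcongr
        have h4 : 0 ≤ ∑ a ∈ S, 1 / (a : ℝ) := Finset.sum_nonneg (fun _ _ => by positivity)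
        have h5 : 0 ≤ ∑ p ∈ Finset.Ioo (N - 1) (⌊T⌋₊ + 1), ((p : ℝ) ^ 2)⁻¹ :=
          Finset.sum_nonneg (fun _ _ => by positivity)
        exact mul_le_mul (h1.trans h3) (mul_le_mul hT hT h4 hC.le) (mul_nonneg h4 h4) (by positivity)
    _ ≤ ε := by
        rw [div_mul_eq_mul_div, div_le_iff₀ hTd]
        rw [div_le_iff₀ hε] at hT2
        nlinarith

end Pool.Agent.Helper69.PP
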