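import Pool.Agent.Helper69.PP.A3c

/-!
# PP-A4: definitions

# PP-A4: the sum over the denominators, with boxes of numbers `q n'`, `q` prime

Box `i`: `q ∈ (T^u, T^u']` prime, `n' ∈ (T^w, T^w']` rough, `w' ≤ u`, so `q` is the largest prime factor of `q n'` and all pairs of all
boxes give distinct numbers; `1/3 ≤ u + w`, so the numbers are `> T^(1/3 - 2e)`.
-/

open MeasureTheory Set Filter Topology
open Pool.Agent.Helper57.Zeta Pool.Agent.Helper57.PC Pool.Agent.Helper57.LH Pool.Agent.Helper78.SG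
open Pool.Agent.Helper4.SH

namespace Pool.Agent.Helper69.PP

/-- lower bound of `W(n) - λ` on a box -/
noncomputable def bphi (c lam u w : ℝ) : ℝ := 2 * c * (u + w) - 2 * kap c * (u ^ 3 + w ^ 3) - lam

/-- admissible families of boxes -/
structure Boxes (P : Par) (lam : ℝ) {m : ℕ} (u u' w w' : Fin m → ℝ) : Prop where
  hu : ∀ i, 1 / 7 ≤ u i ∧ u i < u' i
  hw : ∀ i, 0 ≤ w i ∧ w i < w' i
  hwu : ∀ i, w' i ≤ u i
  hsz : ∀ i, 1 / 3 ≤ u i + w i
  hTB : ∀ i, (u' i ≤ 1 / 3 - 2 * P.e ∧ w' i ≤ 1 / 7 - 2 * P.e) ∨ (u' i ≤ 1 / 4 - 2 * P.e ∧ w' i ≤ 1 / 5 - 2 * P.e)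
  hdis : ∀ i j, i ≠ j → u' i ≤ u j ∨ u' j ≤ u i ∨ w' i ≤ w j ∨ w' j ≤ w i
  hphi : ∀ i, 0 ≤ bphi P.c lam (u i) (w i)

open Classical in
/-- the numbers of the box `i` -/
noncomputable def BX (P : Par) (T u u' w w' : ℝ) : Finset ℕ :=
  (((PP T).filter (fun q => u < yy T q ∧ yy T q ≤ u')) ×ˢ ((RN (NS P T) (T ^ w')).filter (fun n : ℕ => T ^ w < (n : ℝ)))).image
    (fun x => x.1 * x.2)

end Pool.Agent.Helper69.PP
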