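import Pool.Agent.Helper69.PP.A4
import Pool.Agent.Helper69.PP.A0c

/-!
# PP-A4a: one box

# PP-A4: the sum over the denominators, with boxes of numbers `q n'`, `q` prime

Box `i`: `q ∈ (T^u, T^u']` prime, `n' ∈ (T^w, T^w']` rough, `w' ≤ u`, so `q` is the largest prime factor of `q n'` and all pairs of all
boxes give distinct numbers; `1/3 ≤ u + w`, so the numbers are `> T^(1/3 - 2e)`.
-/

open MeasureTheory Set Filter Topology
open Pool.Agent.Helper57.Zeta Pool.Agent.Helper57.PC Pool.Agent.Helper57.LH Pool.Agent.Helper78.SG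
open Pool.Agent.Helper4.SH

namespace Pool.Agent.Helper69.PP

/-- one box -/
theorem box_sum (P : Par) {ε : ℝ} (hε : 0 < ε) (hε1 : ε ≤ 1) (hF : Flat P ε) {u u' w w' : ℝ} (hu : 1 / 7 ≤ u) (huu : u < u')
    (hu1 : u' ≤ 1 / 3) (hw : 0 ≤ w) (hww : w < w') (hw1 : w' ≤ u) : ∀ᶠ T : ℝ in atTop,
    vT P T * (Real.log (u' / u) * (w' - w) - 2 * ε) ≤
      ∑ q ∈ (PP T).filter (fun q => u < yy T q ∧ yy T q ≤ u'),
        ∑ n ∈ (RN (NS P T) (T ^ w')).filter (fun n : ℕ => T ^ w < (n : ℝ)), 1 / ((q : ℝ) * n) := by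
  have hu0 : 0 < u := by linarith
  have hM := mert_log (a := 1 / 7) (by norm_num) hε
  filter_upwards [hM, hF, eventually_gt_atTop (1:ℝ)] with T hMT hFT hT
  obtain ⟨hv1, -, hfl⟩ := hFT
  have hv0 : 0 ≤ vT P T := by linarith
  have hA := hMT u u' hu huu.le (by linarith)
  set A := Real.log (u' / u) with hAdef
  set a := ∑ p ∈ (PP T).filter (fun p => u < yy T p ∧ yy T p ≤ u'), 1 / (p : ℝ) with hadef
  set b := ∑ n ∈ (RN (NS P T) (T ^ w')).filter (fun n : ℕ => T ^ w < (n : ℝ)), 1 / (n : ℝ) with hbdef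
  have ha0 : 0 ≤ a := Finset.sum_nonneg (fun p _ => by positivity)
  have hb0 : 0 ≤ b := Finset.sum_nonneg (fun p _ => by positivity)
  have haA : A - ε ≤ a := by
    have := (abs_le.mp hA).1
    linarith
  have hprod : ∑ q ∈ (PP T).filter (fun q => u < yy T q ∧ yy T q ≤ u'),
        ∑ n ∈ (RN (NS P T) (T ^ w')).filter (fun n : ℕ => T ^ w < (n : ℝ)), 1 / ((q : ℝ) * n) = a * b := by
    rw [hadef, hbdef, Finset.sum_mul_sum]
    refine Finset.sum_congr rfl (fun q _ => Finset.sum_congr rfl (fun n _ => ?_))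
    rw [one_div_mul_one_div]
  rw [hprod]
  -- the inner sum
  have hbB : (w' - w - ε) * vT P T ≤ b := by
    have h1 := (hfl w' ⟨by linarith, by linarith⟩).1
    have h2 := (hfl w ⟨hw, by linarith⟩).2
    have h3 : RS (NS P T) (T ^ w') ≤ b + RS (NS P T) (T ^ w) := by
      unfold RS
      rw [← Finset.sum_filter_add_sum_filter_not (RN (NS P T) (T ^ w')) (fun n : ℕ => T ^ w < (n : ℝ))]
      rw [hbdef]
      refine add_le_add le_rfl ?_
      refine Finset.sum_le_sum_of_subset_of_nonneg ?_ (fun i _ _ => by positivity)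
      intro n hn
      rw [Finset.mem_filter] at hn
      obtain ⟨hn1, hn2⟩ := hn
      unfold RN at hn1 ⊢
      rw [Finset.mem_filter, Finset.mem_Icc] at hn1 ⊢
      refine ⟨⟨hn1.1.1, ?_⟩, hn1.2⟩
      exact Nat.le_floor (not_lt.mp hn2)
    nlinarith
  have hA0 : 0 ≤ A := Real.log_nonneg (by rw [le_div_iff₀ hu0]; linarith)
  have hA1 : A ≤ 1 := by
    rw [hAdef, Real.log_le_iff_le_exp (div_pos (by linarith) hu0)]
    have h1 : u' / u ≤ 7 / 3 := by
      rw [div_le_iff₀ hu0]; linarith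
    have := Real.exp_one_gt_d9
    linarith
  have hB0 : 0 < w' - w := by linarith
  have hB1 : w' - w ≤ 1 := by linarith
  by_cases hB : w' - w ≤ ε
  · have h1 : A * (w' - w) - 2 * ε ≤ 0 := by nlinarith
    calc vT P T * (A * (w' - w) - 2 * ε) ≤ 0 := mul_nonpos_of_nonneg_of_nonpos hv0 h1
      _ ≤ a * b := mul_nonneg ha0 hb0
  · push Not at hB
    have h1 : a * ((w' - w - ε) * vT P T) ≤ a * b := mul_le_mul_of_nonneg_left hbB ha0
    have h2 : (A - ε) * ((w' - w - ε) * vT P T) ≤ a * ((w' - w - ε) * vT P T) :=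
      mul_le_mul_of_nonneg_right haA (mul_nonneg (by linarith) hv0)
    have h3 : vT P T * (A * (w' - w) - 2 * ε) ≤ (A - ε) * ((w' - w - ε) * vT P T) := by
      have h4 : A * (w' - w) - 2 * ε ≤ (A - ε) * (w' - w - ε) := by nlinarith
      calc vT P T * (A * (w' - w) - 2 * ε) ≤ vT P T * ((A - ε) * (w' - w - ε)) := mul_le_mul_of_nonneg_left h4 hv0
        _ = _ := by ring
    linarith

end Pool.Agent.Helper69.PP
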