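import Pool.Agent.Helper69.PP.A4a
import Pool.Agent.Helper69.PP.A3a
import Pool.Agent.Helper69.PP.A3b
import Pool.Agent.Helper69.PP.A3c

/-!
# PP-A4b: denominators

# PP-A4: the sum over the denominators, with boxes of numbers `q n'`, `q` prime

Box `i`: `q ∈ (T^u, T^u']` prime, `n' ∈ (T^w, T^w']` rough, `w' ≤ u`, so `q` is the largest prime factor of `q n'` and all pairs of all
boxes give distinct numbers; `1/3 ≤ u + w`, so the numbers are `> T^(1/3 - 2e)`.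
-/

open MeasureTheory Set Filter Topology
open Pool.Agent.Helper57.Zeta Pool.Agent.Helper57.PC Pool.Agent.Helper57.LH Pool.Agent.Helper78.SG
open Pool.Agent.Helper4.SH

namespace Pool.Agent.Helper69.PP

/-- the pairs of a box -/
private noncomputable def h30X (P : Par) (T u u' w w' : ℝ) : Finset (ℕ × ℕ) :=
  ((PP T).filter (fun q => u < yy T q ∧ yy T q ≤ u')) ×ˢ
    ((RN (NS P T) (T ^ w')).filter (fun n : ℕ => T ^ w < (n : ℝ)))

private theorem h30_yy_lt {T : ℝ} (hT : 1 < T) {u : ℝ} {q : ℕ} (hq : q ≠ 0) : u < yy T q ↔ T ^ u < (q : ℝ) := by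
  have hL : 0 < Real.log T := Real.log_pos hT
  have hq0 : (0:ℝ) < q := by exact_mod_cast Nat.pos_of_ne_zero hq
  rw [yy, lt_div_iff₀ hL, ← Real.log_rpow (by linarith),
    Real.log_lt_log_iff (Real.rpow_pos_of_pos (by linarith) _) hq0]

private theorem h30_yy_le {T : ℝ} (hT : 1 < T) {u : ℝ} {q : ℕ} (hq : q ≠ 0) : yy T q ≤ u ↔ (q : ℝ) ≤ T ^ u := by
  rw [← not_lt, h30_yy_lt hT hq, not_lt]

/-- the data of a pair of a box -/
private structure h30F (P : Par) (T u u' w w' : ℝ) (q n : ℕ) : Prop where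
  hq : q.Prime
  hq1 : T ^ u < (q : ℝ)
  hq2 : (q : ℝ) ≤ T ^ u'
  hy1 : u < yy T q
  hy2 : yy T q ≤ u'
  hn0 : n ≠ 0
  hn1 : T ^ w < (n : ℝ)
  hn2 : (n : ℝ) ≤ T ^ w'
  hz1 : w < yy T n
  hz2 : yy T n ≤ w'
  hnr : ∀ p ∈ n.primeFactors, NS P T ≤ p

private theorem h30_mem {P : Par} {T u u' w w' : ℝ} (hT : 1 < T) {x : ℕ × ℕ} (hx : x ∈ h30X P T u u' w w') :
    h30F P T u u' w w' x.1 x.2 := by
  rw [h30X, Finset.mem_product, Finset.mem_filter, Finset.mem_filter] at hx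
  obtain ⟨⟨hq, hq1, hq2⟩, hn, hn1⟩ := hx
  have hqp : x.1.Prime := by
    rw [PP, Finset.mem_filter] at hq
    exact hq.2
  obtain ⟨hn0, hn2, hnr⟩ := mem_RN.1 hn
  exact ⟨hqp, (h30_yy_lt hT hqp.ne_zero).1 hq1, (h30_yy_le hT hqp.ne_zero).1 hq2, hq1, hq2, hn0, hn1, hn2,
    (h30_yy_lt hT hn0).2 hn1, (h30_yy_le hT hn0).2 hn2, hnr⟩

/-- `q` is the largest prime factor -/
private theorem h30_inj {P : Par} {T : ℝ} (hT : 1 < T) {u₁ u₁' w₁ w₁' u₂ u₂' w₂ w₂' : ℝ} (h₁ : w₁' ≤ u₁) (h₂ : w₂' ≤ u₂)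
    {q₁ n₁ q₂ n₂ : ℕ} (H₁ : h30F P T u₁ u₁' w₁ w₁' q₁ n₁) (H₂ : h30F P T u₂ u₂' w₂ w₂' q₂ n₂)
    (he : q₁ * n₁ = q₂ * n₂) : q₁ = q₂ ∧ n₁ = n₂ := by
  have key : q₁ = q₂ := by
    by_contra hne
    have d1 : q₁ ∣ n₂ := by
      have : q₁ ∣ q₂ * n₂ := he ▸ Dvd.intro n₁ rfl
      rcases (Nat.Prime.dvd_mul H₁.hq).1 this with h | h
      · exact absurd ((Nat.prime_dvd_prime_iff_eq H₁.hq H₂.hq).1 h) hne
      · exact h
    have d2 : q₂ ∣ n₁ := by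
      have : q₂ ∣ q₁ * n₁ := he.symm ▸ Dvd.intro n₂ rfl
      rcases (Nat.Prime.dvd_mul H₂.hq).1 this with h | h
      · exact absurd ((Nat.prime_dvd_prime_iff_eq H₂.hq H₁.hq).1 h).symm hne
      · exact h
    have l1 : (q₁ : ℝ) ≤ n₂ := by exact_mod_cast Nat.le_of_dvd (Nat.pos_of_ne_zero H₂.hn0) d1
    have l2 : (q₂ : ℝ) ≤ n₁ := by exact_mod_cast Nat.le_of_dvd (Nat.pos_of_ne_zero H₁.hn0) d2
    have m1 : T ^ w₁' ≤ T ^ u₁ := Real.rpow_le_rpow_of_exponent_le hT.le h₁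
    have m2 : T ^ w₂' ≤ T ^ u₂ := Real.rpow_le_rpow_of_exponent_le hT.le h₂
    have := H₁.hq1
    have := H₂.hq1
    have := H₁.hn2
    have := H₂.hn2
    linarith
  refine ⟨key, ?_⟩
  subst key
  exact Nat.eq_of_mul_eq_mul_left H₁.hq.pos he

private theorem h30_RN {P : Par} {T : ℝ} (hT : 1 < T) {u u' w w' : ℝ} (hu : 1 / 7 ≤ u) (hs : u' + w' ≤ 1) {q n : ℕ}
    (H : h30F P T u u' w w' q n) : q * n ∈ RN (NS P T) T := by
  have hT0 : (0:ℝ) < T := by linarith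
  rw [mem_RN]
  refine ⟨mul_ne_zero H.hq.ne_zero H.hn0, ?_, ?_⟩
  · push_cast
    calc (q : ℝ) * n ≤ T ^ u' * T ^ w' := mul_le_mul H.hq2 H.hn2 (Nat.cast_nonneg _) (Real.rpow_nonneg hT0.le _)
      _ = T ^ (u' + w') := (Real.rpow_add hT0 _ _).symm
      _ ≤ T ^ (1 : ℝ) := Real.rpow_le_rpow_of_exponent_le hT.le hs
      _ = T := Real.rpow_one T
  · intro p hp
    rw [Nat.primeFactors_mul H.hq.ne_zero H.hn0, Finset.mem_union, H.hq.primeFactors, Finset.mem_singleton] at hp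
    rcases hp with rfl | hp
    · rw [NS, Nat.ceil_le]
      have h1 : T ^ P.δ ≤ T ^ u := Real.rpow_le_rpow_of_exponent_le hT.le (by linarith [P.hδ1])
      exact h1.trans H.hq1.le
    · exact H.hnr p hp

private theorem h30_gt {P : Par} {T : ℝ} (hT : 1 < T) {u u' w w' : ℝ} (hs : 1 / 3 ≤ u + w) {q n : ℕ}
    (H : h30F P T u u' w w' q n) : T ^ (1 / 3 - 2 * P.e) < ((q * n : ℕ) : ℝ) := by
  have hT0 : (0:ℝ) < T := by linarith
  push_cast
  calc T ^ (1 / 3 - 2 * P.e) ≤ T ^ (u + w) := Real.rpow_le_rpow_of_exponent_le hT.le (by linarith [P.he])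
    _ = T ^ u * T ^ w := Real.rpow_add hT0 _ _
    _ < (q : ℝ) * n := mul_lt_mul'' H.hq1 H.hn1 (Real.rpow_nonneg hT0.le _) (Real.rpow_nonneg hT0.le _)

private theorem h30_pi : Real.pi ^ 2 ≤ 10 := by
  have h1 := Real.pi_lt_d2
  have h0 := Real.pi_pos
  nlinarith

private theorem h30_kap_le {c : ℝ} (hc : 0 ≤ c) : kap c ≤ 5 / 3 * c ^ 3 := by
  have := h30_pi
  have h3 : 0 ≤ c ^ 3 := pow_nonneg hc 3
  rw [kap]
  nlinarith

private theorem h30_kap_nonneg {c : ℝ} (hc : 0 ≤ c) : 0 ≤ kap c := by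
  rw [kap]
  positivity

private theorem h30_mono {c : ℝ} (hc : 0 ≤ c) (hc1 : c ≤ 1) {a b : ℝ} (ha : 0 ≤ a) (hab : a ≤ b) (hb : b ≤ 1 / 3) :
    2 * c * a - 2 * kap c * a ^ 3 ≤ 2 * c * b - 2 * kap c * b ^ 3 := by
  have hk := h30_kap_le hc
  have hk0 := h30_kap_nonneg hc
  have hc3 : c ^ 3 ≤ c := by
    have : c ^ 2 ≤ 1 := pow_le_one₀ hc hc1
    nlinarith
  have hk1 : kap c ≤ 5 / 3 * c := by linarith
  have hsum : b ^ 2 + a * b + a ^ 2 ≤ 1 / 3 := by nlinarith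
  have hd : 0 ≤ b - a := by linarith
  have h1 : kap c * (b ^ 2 + a * b + a ^ 2) ≤ c := by
    have hs0 : 0 ≤ b ^ 2 + a * b + a ^ 2 := by
      have : 0 ≤ a * b := mul_nonneg ha (ha.trans hab)
      positivity
    nlinarith
  have h2 : 0 ≤ (b - a) * (c - kap c * (b ^ 2 + a * b + a ^ 2)) := mul_nonneg hd (by linarith)
  nlinarith

/-- lower bound of `W - λ` on a box -/
private theorem h30_W {P : Par} {T lam : ℝ} (hT : 1 < T) {u u' w w' : ℝ} (hu : 1 / 7 ≤ u) (hu1 : u' ≤ 1 / 3) (hw : 0 ≤ w)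
    (hw1 : w' ≤ 1 / 3) {q n : ℕ} (H : h30F P T u u' w w' q n) (hG : Gd P T (q * n)) :
    bphi P.c lam u w ≤ Wn P.c T (q * n) - lam := by
  have hsq : Squarefree (q * n) := hG.2.1
  have hn : Squarefree n := hsq.squarefree_of_dvd (Dvd.intro_left q rfl)
  have hqn : ¬ q ∣ n := by
    intro hd
    have h1 : q * q ∣ q * n := Nat.mul_dvd_mul_left q hd
    exact H.hq.one_lt.ne' (Nat.isUnit_iff.1 (hsq q h1))
  have h1 := Wn_mul_ge (c := P.c) P.hc.le hT H.hq hn hqn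
  have h2 := h30_mono P.hc.le P.hc1.le (by linarith : 0 ≤ u) H.hy1.le (H.hy2.trans hu1)
  have h3 := h30_mono P.hc.le P.hc1.le hw H.hz1.le (H.hz2.trans hw1)
  rw [bphi]
  linarith

private theorem h30_bphi_le {c lam u w : ℝ} (hc : 0 ≤ c) (hc1 : c ≤ 1) (hl : 0 ≤ lam) (hu : 0 ≤ u)
    (hw : 0 ≤ w) (huw : u + w ≤ 1 / 2) : bphi c lam u w ≤ 1 := by
  have hk0 := h30_kap_nonneg hc
  have h1 : 0 ≤ kap c * (u ^ 3 + w ^ 3) := by positivity
  rw [bphi]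
  nlinarith

/-- the terms of the denominators above `T^(1/3 - 2e)` are nonnegative -/
private theorem h30_nonneg {P : Par} (hPe : P.e = 1 / 100000) (hPc : 1 / 2 ≤ P.c) {T lam : ℝ} (hT : 1 < T)
    (hl1 : lam ≤ 3 / 10) {n : ℕ} (hn : n ∈ NB P T) (hgt : T ^ (1 / 3 - 2 * P.e) < (n : ℝ)) :
    0 ≤ (Wn P.c T n - lam) / n := by
  classical
  have hG : Gd P T n := by
    rw [NB, Finset.mem_filter] at hn
    exact hn.2.1
  have hn0 : n ≠ 0 := hG.1.1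
  have h1 := Wn_ge (c := P.c) (b := 1 / 3) P.hc.le hT hG.2.1 (fun p hp => NB_prime hT hn hp) (by norm_num)
  have hy : 1 / 3 - 2 * P.e < yy T n := (h30_yy_lt hT hn0).2 hgt
  have hk := h30_kap_le P.hc.le
  have hc1 := P.hc1
  have hch : P.c ^ 3 ≤ 7 / 4 * P.c - 3 / 4 := by
    nlinarith [mul_nonneg (mul_nonneg (sub_nonneg.2 hPc) (sub_nonneg.2 hc1.le)) (by linarith : 0 ≤ P.c + 3 / 2)]
  have h2 : 47 / 100 ≤ P.c - kap P.c * (1 / 3) ^ 2 := by nlinarith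
  have hy2 : 333 / 1000 ≤ yy T n := by rw [hPe] at hy; linarith
  have h3 : 2 * (47 / 100) * (333 / 1000) ≤ 2 * (P.c - kap P.c * (1 / 3) ^ 2) * yy T n := by
    have h4 : (2 : ℝ) * (47 / 100) ≤ 2 * (P.c - kap P.c * (1 / 3) ^ 2) := by linarith
    exact mul_le_mul h4 hy2 (by norm_num) (by linarith)
  apply div_nonneg _ (Nat.cast_nonneg _)
  linarith

open Classical in
/-- the small denominators -/
private theorem h30_small {P : Par} {ε T lam : ℝ} (hε : 0 < ε) (hT : 1 < T) (hl0 : 0 ≤ lam) (hl1 : lam ≤ 3 / 10)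
    (hv : 1 / 2 ≤ vT P T) {θ : ℝ} (hθ : θ = 1 / 3 - 2 * P.e)
    (hRS : RS (NS P T) (T ^ θ) ≤ (θ + ε) * vT P T)
    (hCo : ∑ n ∈ (RN (NS P T) T).filter (fun n => ¬ Gd P T n), 1 / (n : ℝ) ≤ ε)
    (hRW : vT P T * (P.c * θ ^ 2 - kap P.c * θ ^ 4 / 6 - 4 * ε) ≤ ∑ n ∈ RN (NS P T) (T ^ θ), Wn P.c T n / n) :
    vT P T * (P.c * θ ^ 2 - kap P.c * θ ^ 4 / 6 - lam * θ - 20 * ε) ≤
      ∑ n ∈ (NB P T).filter (fun n : ℕ => (n : ℝ) ≤ T ^ θ), (Wn P.c T n - lam) / n := by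
  have hθ1 : θ ≤ 1 := by rw [hθ]; linarith [P.he]
  have hTθ : T ^ θ ≤ T := by
    calc T ^ θ ≤ T ^ (1 : ℝ) := Real.rpow_le_rpow_of_exponent_le hT.le hθ1
      _ = T := Real.rpow_one T
  have hset : (NB P T).filter (fun n : ℕ => (n : ℝ) ≤ T ^ θ) = (RN (NS P T) (T ^ θ)).filter (fun n => Gd P T n) := by
    ext n
    rw [Finset.mem_filter, Finset.mem_filter, mem_RN]
    constructor
    · rintro ⟨h1, h2⟩
      have hG : Gd P T n := by
        rw [NB, Finset.mem_filter] at h1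
        exact h1.2.1
      obtain ⟨h3, _, _⟩ := Gd_iff.1 hG
      obtain ⟨h4, _, h5⟩ := mem_RN.1 h3
      exact ⟨⟨h4, h2, h5⟩, hG⟩
    · rintro ⟨⟨_, h2, _⟩, hG⟩
      exact ⟨mem_NB_of hT hG (by rw [← hθ]; exact h2), h2⟩
  rw [hset]
  have hsplit := Finset.sum_filter_add_sum_filter_not (RN (NS P T) (T ^ θ)) (fun n => Gd P T n)
    (fun n => (Wn P.c T n - lam) / n)
  have htot : ∑ n ∈ RN (NS P T) (T ^ θ), (Wn P.c T n - lam) / n =
      ∑ n ∈ RN (NS P T) (T ^ θ), Wn P.c T n / n - lam * RS (NS P T) (T ^ θ) := by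
    rw [RS, Finset.mul_sum, ← Finset.sum_sub_distrib]
    refine Finset.sum_congr rfl (fun n _ => ?_)
    ring
  have hbad : ∑ n ∈ (RN (NS P T) (T ^ θ)).filter (fun n => ¬ Gd P T n), (Wn P.c T n - lam) / n ≤ 3 * ε := by
    have h1 : ∑ n ∈ (RN (NS P T) (T ^ θ)).filter (fun n => ¬ Gd P T n), (Wn P.c T n - lam) / n ≤
        ∑ n ∈ (RN (NS P T) (T ^ θ)).filter (fun n => ¬ Gd P T n), 3 * (1 / (n : ℝ)) := by
      refine Finset.sum_le_sum (fun n hn => ?_)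
      rw [Finset.mem_filter, mem_RN] at hn
      have hW := Wn_le (c := P.c) P.hc.le P.hc1.le hT hn.1.1 (hn.1.2.1.trans hTθ)
      have hW2 := (abs_le.1 hW).2
      rw [mul_one_div]
      exact div_le_div_of_nonneg_right (by linarith) (Nat.cast_nonneg _)
    have h2 : ∑ n ∈ (RN (NS P T) (T ^ θ)).filter (fun n => ¬ Gd P T n), 3 * (1 / (n : ℝ)) ≤
        ∑ n ∈ (RN (NS P T) T).filter (fun n => ¬ Gd P T n), 3 * (1 / (n : ℝ)) := by
      refine Finset.sum_le_sum_of_subset_of_nonneg ?_ (fun n _ _ => by positivity)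
      intro n hn
      rw [Finset.mem_filter, mem_RN] at hn ⊢
      exact ⟨⟨hn.1.1, hn.1.2.1.trans hTθ, hn.1.2.2⟩, hn.2⟩
    rw [← Finset.mul_sum] at h1
    rw [← Finset.mul_sum, ← Finset.mul_sum] at h2
    linarith
  have hlRS : lam * RS (NS P T) (T ^ θ) ≤ lam * ((θ + ε) * vT P T) := mul_le_mul_of_nonneg_left hRS hl0
  have hεv : ε ≤ 2 * (ε * vT P T) := by nlinarith
  have hlε : lam * (ε * vT P T) ≤ ε * vT P T := by
    have : 0 ≤ ε * vT P T := by nlinarith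
    nlinarith
  nlinarith

open Classical in
/-- one box, good pairs -/
private theorem h30_boxgood {P : Par} {ε T lam : ℝ} (hε : 0 < ε) (hT : 1 < T) (hl0 : 0 ≤ lam)
    (hv : 1 / 2 ≤ vT P T) {u u' w w' : ℝ} (hu : 1 / 7 ≤ u) (huu : u < u') (hu1 : u' ≤ 1 / 3) (hw : 0 ≤ w) (hww : w < w')
    (hwu : w' ≤ u) (huw : u + w ≤ 1 / 2) (hphi : 0 ≤ bphi P.c lam u w)
    (hCo : ∑ n ∈ (RN (NS P T) T).filter (fun n => ¬ Gd P T n), 1 / (n : ℝ) ≤ ε)
    (hbx : vT P T * (Real.log (u' / u) * (w' - w) - 2 * ε) ≤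
      ∑ q ∈ (PP T).filter (fun q => u < yy T q ∧ yy T q ≤ u'),
        ∑ n ∈ (RN (NS P T) (T ^ w')).filter (fun n : ℕ => T ^ w < (n : ℝ)), 1 / ((q : ℝ) * n)) :
    vT P T * (bphi P.c lam u w * (Real.log (u' / u) * (w' - w))) - 4 * (ε * vT P T) ≤
      ∑ x ∈ (h30X P T u u' w w').filter (fun x => Gd P T (x.1 * x.2)),
        (Wn P.c T (x.1 * x.2) - lam) / ((x.1 * x.2 : ℕ) : ℝ) := by
  have hsum : ∑ q ∈ (PP T).filter (fun q => u < yy T q ∧ yy T q ≤ u'),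
        ∑ n ∈ (RN (NS P T) (T ^ w')).filter (fun n : ℕ => T ^ w < (n : ℝ)), 1 / ((q : ℝ) * n) =
      ∑ x ∈ h30X P T u u' w w', 1 / ((x.1 * x.2 : ℕ) : ℝ) := by
    rw [h30X, Finset.sum_product]
    refine Finset.sum_congr rfl (fun q _ => Finset.sum_congr rfl (fun n _ => ?_))
    push_cast
    rfl
  rw [hsum, ← Finset.sum_filter_add_sum_filter_not (h30X P T u u' w w') (fun x => Gd P T (x.1 * x.2))
    (fun x => 1 / ((x.1 * x.2 : ℕ) : ℝ))] at hbx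
  have hbad : ∑ x ∈ (h30X P T u u' w w').filter (fun x => ¬ Gd P T (x.1 * x.2)), 1 / ((x.1 * x.2 : ℕ) : ℝ) ≤ ε := by
    have hinj : Set.InjOn (fun x : ℕ × ℕ => x.1 * x.2)
        ((h30X P T u u' w w').filter (fun x => ¬ Gd P T (x.1 * x.2)) : Set (ℕ × ℕ)) := by
      intro x hx y hy hxy
      rw [Finset.mem_coe, Finset.mem_filter] at hx hy
      obtain ⟨h1, h2⟩ := h30_inj hT hwu hwu (h30_mem hT hx.1) (h30_mem hT hy.1) hxy
      exact Prod.ext h1 h2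
    rw [← Finset.sum_image (f := fun n : ℕ => 1 / (n : ℝ)) hinj]
    refine le_trans (Finset.sum_le_sum_of_subset_of_nonneg ?_ (fun n _ _ => by positivity)) hCo
    intro n hn
    rw [Finset.mem_image] at hn
    obtain ⟨x, hx, rfl⟩ := hn
    rw [Finset.mem_filter] at hx ⊢
    exact ⟨h30_RN hT hu (by linarith) (h30_mem hT hx.1), hx.2⟩
  have hmain : bphi P.c lam u w *
      ∑ x ∈ (h30X P T u u' w w').filter (fun x => Gd P T (x.1 * x.2)), 1 / ((x.1 * x.2 : ℕ) : ℝ) ≤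
      ∑ x ∈ (h30X P T u u' w w').filter (fun x => Gd P T (x.1 * x.2)),
        (Wn P.c T (x.1 * x.2) - lam) / ((x.1 * x.2 : ℕ) : ℝ) := by
    rw [Finset.mul_sum]
    refine Finset.sum_le_sum (fun x hx => ?_)
    rw [Finset.mem_filter] at hx
    rw [mul_one_div]
    exact div_le_div_of_nonneg_right (h30_W hT hu hu1 hw (by linarith) (h30_mem hT hx.1) hx.2) (Nat.cast_nonneg _)
  refine le_trans ?_ hmain
  have hb1 : bphi P.c lam u w ≤ 1 :=
    h30_bphi_le P.hc.le P.hc1.le hl0 (by linarith) hw huw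
  have h1 : vT P T * (Real.log (u' / u) * (w' - w) - 2 * ε) - ε ≤
      ∑ x ∈ (h30X P T u u' w w').filter (fun x => Gd P T (x.1 * x.2)), 1 / ((x.1 * x.2 : ℕ) : ℝ) := by linarith
  have h2 := mul_le_mul_of_nonneg_left h1 hphi
  refine le_trans ?_ h2
  have hεv : ε ≤ 2 * (ε * vT P T) := by nlinarith
  have h3 : bphi P.c lam u w * (2 * (ε * vT P T) + ε) ≤ 1 * (4 * (ε * vT P T)) := by
    refine mul_le_mul hb1 (by linarith) ?_ (by norm_num)
    nlinarith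
  nlinarith

/-- denominators -/
theorem sumB (P : Par) (hPe : P.e = 1 / 100000) (hPc : 1 / 2 ≤ P.c) {ε : ℝ} (hε : 0 < ε) (hε1 : ε ≤ 1 / 1000) (hδ : P.δ ≤ ε)
    (hF : Flat P ε) (hC : Coll P ε) {lam : ℝ} (hl0 : 0 ≤ lam) (hl1 : lam ≤ 3 / 10) {m : ℕ} {u u' w w' : Fin m → ℝ}
    (hB : Boxes P lam u u' w w') : ∀ᶠ T : ℝ in atTop,
    vT P T * (P.c * (1 / 3 - 2 * P.e) ^ 2 - kap P.c * (1 / 3 - 2 * P.e) ^ 4 / 6 - lam * (1 / 3 - 2 * P.e) +
      (∑ i, bphi P.c lam (u i) (w i) * (Real.log (u' i / u i) * (w' i - w i))) - (20 + 4 * m) * ε) ≤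
      ∑ n ∈ NB P T, (Wn P.c T n - lam) / n := by
  classical
  have hu1 : ∀ i, u' i ≤ 1 / 3 := by
    intro i
    rcases hB.hTB i with h | h
    · linarith [P.he, h.1]
    · linarith [P.he, h.1]
  have hbx : ∀ᶠ T : ℝ in atTop, ∀ i, vT P T * (Real.log (u' i / u i) * (w' i - w i) - 2 * ε) ≤
      ∑ q ∈ (PP T).filter (fun q => u i < yy T q ∧ yy T q ≤ u' i),
        ∑ n ∈ (RN (NS P T) (T ^ w' i)).filter (fun n : ℕ => T ^ w i < (n : ℝ)), 1 / ((q : ℝ) * n) := by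
    rw [Filter.eventually_all]
    intro i
    exact box_sum P hε (by linarith) hF (hB.hu i).1 (hB.hu i).2 (hu1 i) (hB.hw i).1 (hB.hw i).2 (hB.hwu i)
  have hRW := RW_ge P hε hδ hF (θ := 1 / 3 - 2 * P.e) (by rw [hPe]; norm_num) (by rw [hPe]; norm_num)
  filter_upwards [hbx, hRW, hF, hC, eventually_gt_atTop (1 : ℝ)] with T hbx hRW hF hCo hT
  obtain ⟨hv, _, hRS⟩ := hF
  have hθ0 : (0:ℝ) ≤ 1 / 3 - 2 * P.e := by rw [hPe]; norm_num
  have hθ1 : 1 / 3 - 2 * P.e ≤ 1 := by rw [hPe]; norm_num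
  have hsm := h30_small hε hT hl0 hl1 hv rfl (hRS _ ⟨hθ0, hθ1⟩).2 hCo hRW
  set θ : ℝ := 1 / 3 - 2 * P.e with hθ
  set Xg : Fin m → Finset (ℕ × ℕ) :=
    fun i => (h30X P T (u i) (u' i) (w i) (w' i)).filter (fun x => Gd P T (x.1 * x.2)) with hXg
  set D : Finset (Σ _ : Fin m, ℕ × ℕ) := Finset.univ.sigma Xg with hD
  have hmem : ∀ s ∈ D, h30F P T (u s.1) (u' s.1) (w s.1) (w' s.1) s.2.1 s.2.2 ∧ Gd P T (s.2.1 * s.2.2) := by
    intro s hs
    rw [hD, Finset.mem_sigma] at hs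
    obtain ⟨hX, hG⟩ := Finset.mem_filter.1 hs.2
    exact ⟨h30_mem hT hX, hG⟩
  have hinj : Set.InjOn (fun s : (Σ _ : Fin m, ℕ × ℕ) => s.2.1 * s.2.2) (D : Set (Σ _ : Fin m, ℕ × ℕ)) := by
    rintro ⟨i, q, n⟩ hs ⟨j, q2, n2⟩ ht hst
    obtain ⟨Hs, _⟩ := hmem _ (Finset.mem_coe.1 hs)
    obtain ⟨Ht, _⟩ := hmem _ (Finset.mem_coe.1 ht)
    dsimp only at Hs Ht hst
    obtain ⟨rfl, rfl⟩ := h30_inj hT (hB.hwu i) (hB.hwu j) Hs Ht hst
    have hij : i = j := by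
      by_contra hne
      rcases hB.hdis i j hne with h | h | h | h
      · linarith [Hs.hy2, Ht.hy1]
      · linarith [Hs.hy1, Ht.hy2]
      · linarith [Hs.hz2, Ht.hz1]
      · linarith [Hs.hz1, Ht.hz2]
    subst hij
    rfl
  have hlarge : ∑ i, (vT P T * (bphi P.c lam (u i) (w i) * (Real.log (u' i / u i) * (w' i - w i))) -
      4 * (ε * vT P T)) ≤
      ∑ n ∈ (NB P T).filter (fun n : ℕ => ¬ (n : ℝ) ≤ T ^ θ), (Wn P.c T n - lam) / n := by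
    calc _ ≤ ∑ i, ∑ x ∈ Xg i, (Wn P.c T (x.1 * x.2) - lam) / ((x.1 * x.2 : ℕ) : ℝ) := by
          refine Finset.sum_le_sum (fun i _ => ?_)
          refine h30_boxgood hε hT hl0 hv (hB.hu i).1 (hB.hu i).2 (hu1 i) (hB.hw i).1 (hB.hw i).2 (hB.hwu i)
            ?_ (hB.hphi i) hCo (hbx i)
          have h1 := (hB.hu i).2
          have h2 := (hB.hw i).2
          rcases hB.hTB i with h | h
          · linarith [P.he, h.1, h.2]
          · linarith [P.he, h.1, h.2]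
      _ = ∑ s ∈ D, (Wn P.c T (s.2.1 * s.2.2) - lam) / ((s.2.1 * s.2.2 : ℕ) : ℝ) := by
          rw [hD, Finset.sum_sigma]
      _ = ∑ n ∈ D.image (fun s => s.2.1 * s.2.2), (Wn P.c T n - lam) / n := by
          rw [Finset.sum_image hinj]
      _ ≤ _ := by
          refine Finset.sum_le_sum_of_subset_of_nonneg ?_ ?_
          · intro k hk
            rw [Finset.mem_image] at hk
            obtain ⟨s, hs, rfl⟩ := hk
            obtain ⟨H, hG⟩ := hmem s hs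
            rw [Finset.mem_filter]
            refine ⟨mem_NB_mul hT H.hq hG ?_, not_le.2 (h30_gt hT (hB.hsz s.1) H)⟩
            rcases hB.hTB s.1 with h | h
            · exact Or.inl ⟨H.hy2.trans h.1, H.hz2.trans h.2⟩
            · exact Or.inr ⟨H.hy2.trans h.1, H.hz2.trans h.2⟩
          · intro n hn _
            rw [Finset.mem_filter] at hn
            exact h30_nonneg hPe hPc hT hl1 hn.1 (not_le.1 hn.2)
  rw [Finset.sum_sub_distrib, ← Finset.mul_sum, Finset.sum_const, Finset.card_univ, Fintype.card_fin,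
    nsmul_eq_mul] at hlarge
  rw [← Finset.sum_filter_add_sum_filter_not (NB P T) (fun n : ℕ => (n : ℝ) ≤ T ^ θ)
    (fun n => (Wn P.c T n - lam) / n)]
  linarith

end Pool.Agent.Helper69.PP
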