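import Pool.Agent.Helper69.PP.A4b

/-!
# PP-A5b: certificate

# PP-A5: the arithmetic inequality

`BT - μ AT = ∑_{IX} (W(m) + W(n) - μ)/(mn) ≥ ∑_{NA × NB} - 5 · (not coprime)`, and
`∑_{NA × NB} = S_B ∑_{NA} W/m + S_A ∑_{NB} W/n - μ S_A S_B ≥ S_A ∑_{NB} (W - λ)/n`, `λ = μ - w_A`, `∑_{NA} W/m ≥ w_A S_A` (`sumA`).

The certificate: 7 boxes with disjoint `u` intervals, the bound `1 - u/u' ≤ log (u'/u)`, and
`κ = kap c ≤ 0.25902`; the value is at least `0.0009`.
-/

open MeasureTheory Set Filter Topology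
open Pool.Agent.Helper57.Zeta Pool.Agent.Helper57.PC Pool.Agent.Helper57.LH Pool.Agent.Helper78.SG
open Pool.Agent.Helper4.SH

namespace Pool.Agent.Helper69.PP

private lemma term_ge {c lam u u' w w' : ℝ} (h0 : 0 ≤ bphi c lam u w) (hu : 0 < u) (hu' : 0 < u')
    (hw : w ≤ w') :
    bphi c lam u w * ((1 - u / u') * (w' - w)) ≤
      bphi c lam u w * (Real.log (u' / u) * (w' - w)) := by
  apply mul_le_mul_of_nonneg_left _ h0
  apply mul_le_mul_of_nonneg_right _ (sub_nonneg.mpr hw)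
  have h := Real.one_sub_inv_le_log_of_pos (div_pos hu' hu)
  rwa [inv_div] at h

private noncomputable def cu : Fin 7 → ℝ := ![172 / 1000, 198 / 1000, 224 / 1000, 25 / 100, 27 / 100, 29 / 100, 31 / 100]
private noncomputable def cu' : Fin 7 → ℝ := ![198 / 1000, 224 / 1000, 2499 / 10000, 27 / 100, 29 / 100, 31 / 100, 3333 / 10000]
private noncomputable def cw : Fin 7 → ℝ := ![1614 / 10000, 1354 / 10000, 1094 / 10000, 834 / 10000, 634 / 10000, 434 / 10000, 234 / 10000]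
private noncomputable def cw' : Fin 7 → ℝ := ![172 / 1000, 198 / 1000, 1999 / 10000, 1428 / 10000, 1428 / 10000, 1428 / 10000, 1428 / 10000]

/-- the numerical certificate for `c = 0.54` -/
theorem boxes_exist (P : Par) (hPe : P.e = 1 / 100000) (hPc : P.c = 54 / 100) {lam : ℝ}
    (hlam : lam ≤ 1 - 54 / 100 - 2 * (54 / 100 * (1 / 2 - 2 * P.e) ^ 2 - kap (54 / 100) * (1 / 2 - 2 * P.e) ^ 4 / 6) + 1 / 10000)
    (hlam0 : 0 ≤ lam) :
    ∃ (m : ℕ) (u u' w w' : Fin m → ℝ), m ≤ 200 ∧ Boxes P lam u u' w w' ∧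
      1 / 2000 ≤ P.c * (1 / 3 - 2 * P.e) ^ 2 - kap P.c * (1 / 3 - 2 * P.e) ^ 4 / 6 - lam * (1 / 3 - 2 * P.e) +
        ∑ i, bphi P.c lam (u i) (w i) * (Real.log (u' i / u i) * (w' i - w i)) := by
  have hk1 : kap (54 / 100) ≤ 25902 / 100000 := by
    unfold kap
    have h1 := Real.pi_lt_d4
    have h2 := Real.pi_pos
    nlinarith
  have hk0 : 0 ≤ kap (54 / 100) := by unfold kap; positivity
  rw [hPe] at hlam
  generalize hκ : kap (54 / 100) = κ at *
  have hphi : ∀ i : Fin 7, 0 ≤ bphi P.c lam (cu i) (cw i) := by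
    intro i
    rw [hPc]
    unfold bphi
    rw [hκ]
    fin_cases i <;> simp [cu, cw] <;> nlinarith
  refine ⟨7, cu, cu', cw, cw', by norm_num, ⟨?_, ?_, ?_, ?_, ?_, ?_, hphi⟩, ?_⟩
  · intro i
    fin_cases i <;> simp [cu, cu'] <;> norm_num
  · intro i
    fin_cases i <;> simp [cw, cw'] <;> norm_num
  · intro i
    fin_cases i <;> simp [cu, cw'] <;> norm_num
  · intro i
    fin_cases i <;> simp [cu, cw] <;> norm_num
  · intro i
    rw [hPe]
    fin_cases i <;> simp [cu', cw'] <;> norm_num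
  · intro i j hij
    fin_cases i <;> fin_cases j <;> simp [cu, cu'] at hij ⊢ <;> norm_num
  · have hsum : ∑ i, bphi P.c lam (cu i) (cw i) * ((1 - cu i / cu' i) * (cw' i - cw i)) ≤
        ∑ i, bphi P.c lam (cu i) (cw i) * (Real.log (cu' i / cu i) * (cw' i - cw i)) := by
      apply Finset.sum_le_sum
      intro i _
      apply term_ge (hphi i)
      · fin_cases i <;> simp [cu]
      · fin_cases i <;> simp [cu']
      · fin_cases i <;> simp [cw, cw'] <;> norm_num
    refine le_trans ?_ (add_le_add_right hsum _)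
    rw [hPc, hPe, hκ]
    simp only [Fin.sum_univ_succ, Fin.sum_univ_zero, bphi, hκ, cu, cu', cw, cw']
    simp
    norm_num
    nlinarith

end Pool.Agent.Helper69.PP
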