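import Pool.Agent.Helper69.PP.Defs

/-!
# PP-C1: types: US, ty, Gd, sizes

# PP-C: cells, types, sizes (elementary)

`n` good: `n = ∏ p` over `n.primeFactors` (squarefree), `US (ty n) = ∑_{p | n} ce p` (the cells are distinct), `ce p - 1 < G log p/L ≤ ce p`
for `p ≥ 2`; at most `1/δ` prime factors since `T^(δ ω(n)) ≤ n ≤ T`.
-/

open MeasureTheory Set Filter Topology
open Pool.Agent.Helper57.Zeta Pool.Agent.Helper57.PC Pool.Agent.Helper57.LH Pool.Agent.Helper78.SG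
open Pool.Agent.Helper4.SH

namespace Pool.Agent.Helper69.PP

theorem US_mono {σ τ : Finset ℕ} (h : σ ⊆ τ) : US σ ≤ US τ := by
  unfold US
  exact Finset.sum_le_sum_of_subset h

theorem US_union_le (σ τ : Finset ℕ) : US (σ ∪ τ) ≤ US σ + US τ := by
  unfold US
  have h := Finset.sum_union_inter (s₁ := σ) (s₂ := τ) (f := fun l : ℕ => l)
  omega

theorem ty_dvd {G : ℕ} {T : ℝ} {n d : ℕ} (hn : n ≠ 0) (hd : d ∣ n) : ty G T d ⊆ ty G T n := by
  unfold ty
  exact Finset.image_subset_image (Nat.primeFactors_mono hd hn)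

theorem Gd_dvd {P : Par} {T : ℝ} {n d : ℕ} (h : Gd P T n) (hd : d ∣ n) : Gd P T d := by
  obtain ⟨⟨hn, hp⟩, hsq, hinj, hT⟩ := h
  have hsub := Nat.primeFactors_mono hd hn
  refine ⟨⟨ne_zero_of_dvd_ne_zero hn hd, fun p hp' => hp p (hsub hp')⟩,
    hsq.squarefree_of_dvd hd, hinj.mono (by exact_mod_cast hsub), ?_⟩
  have h1 : (d : ℝ) ≤ n := by exact_mod_cast Nat.le_of_dvd (Nat.pos_of_ne_zero hn) hd
  linarith

private lemma h99_log {n : ℕ} (hn : n ≠ 0) (hsq : Squarefree n) :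
    Real.log n = ∑ p ∈ n.primeFactors, Real.log p := by
  conv_lhs => rw [← Nat.prod_primeFactors_of_squarefree hsq]
  push_cast
  rw [Real.log_prod]
  intro p hp
  have := (Nat.prime_of_mem_primeFactors hp).pos
  exact_mod_cast this.ne'

/-- at most `K` prime factors -/
theorem ty_card {P : Par} {T : ℝ} (hT : 1 < T) {n : ℕ} (h : Gd P T n) : n.primeFactors.card ≤ P.K := by
  obtain ⟨⟨hn, hp⟩, hsq, hinj, hnT⟩ := h
  have hL : 0 < Real.log T := Real.log_pos hT
  have hn0 : (0 : ℝ) < n := by exact_mod_cast Nat.pos_of_ne_zero hn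
  have h1 := h99_log hn hsq
  have h2 : Real.log n ≤ Real.log T := Real.log_le_log hn0 hnT
  have h3 : (n.primeFactors.card : ℝ) * (P.δ * Real.log T) ≤ ∑ p ∈ n.primeFactors, Real.log p := by
    rw [← nsmul_eq_mul]
    apply Finset.card_nsmul_le_sum
    intro p hp'
    have h4 := hp p hp'
    have h5 := Real.log_le_log (Real.rpow_pos_of_pos (by linarith) _) h4
    rwa [Real.log_rpow (by linarith)] at h5
  have h6 : (n.primeFactors.card : ℝ) * P.δ ≤ 1 := by
    have h7 : (n.primeFactors.card : ℝ) * P.δ * Real.log T ≤ 1 * Real.log T := by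
      calc (n.primeFactors.card : ℝ) * P.δ * Real.log T
          = (n.primeFactors.card : ℝ) * (P.δ * Real.log T) := by ring
        _ ≤ Real.log n := by rw [h1]; exact h3
        _ ≤ 1 * Real.log T := by linarith
    exact le_of_mul_le_mul_right h7 hL
  have h8 : (n.primeFactors.card : ℝ) ≤ 1 / P.δ := by
    rw [le_div_iff₀ P.hδ]; exact h6
  have h9 : (n.primeFactors.card : ℝ) ≤ (⌈1 / P.δ⌉₊ : ℝ) := h8.trans (Nat.le_ceil _)
  unfold Par.K
  exact_mod_cast h9

theorem US_ty {P : Par} {T : ℝ} {n : ℕ} (h : Gd P T n) : US (ty P.G T n) = ∑ p ∈ n.primeFactors, ce P.G T p := by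
  unfold US ty
  exact Finset.sum_image h.2.2.1

theorem US_ge_log {P : Par} {T : ℝ} (hT : 1 < T) {n : ℕ} (h : Gd P T n) :
    P.G * Real.log n / Real.log T ≤ US (ty P.G T n) := by
  rw [US_ty h, h99_log h.1.1 h.2.1, Finset.mul_sum, Finset.sum_div]
  push_cast
  refine Finset.sum_le_sum fun p _ => ?_
  unfold ce
  exact Nat.le_ceil _

theorem US_le_log {P : Par} {T : ℝ} (hT : 1 < T) {n : ℕ} (h : Gd P T n) :
    (US (ty P.G T n) : ℝ) ≤ P.G * Real.log n / Real.log T + P.K := by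
  have hc := ty_card hT h
  have hL : 0 < Real.log T := Real.log_pos hT
  rw [US_ty h, h99_log h.1.1 h.2.1, Finset.mul_sum, Finset.sum_div]
  push_cast
  have h1 : ∑ p ∈ n.primeFactors, (ce P.G T p : ℝ) ≤
      ∑ p ∈ n.primeFactors, ((P.G : ℝ) * Real.log p / Real.log T + 1) := by
    refine Finset.sum_le_sum fun p hp => ?_
    unfold ce
    have hp1 : (1 : ℝ) ≤ p := by exact_mod_cast (Nat.prime_of_mem_primeFactors hp).one_lt.le
    have hlp := Real.log_nonneg hp1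
    exact (Nat.ceil_lt_add_one (by positivity)).le
  rw [Finset.sum_add_distrib, Finset.sum_const, nsmul_eq_mul, mul_one] at h1
  have h2 : (n.primeFactors.card : ℝ) ≤ P.K := by exact_mod_cast hc
  linarith

theorem ty_sub {P : Par} {T : ℝ} (hT : 1 < T) {n : ℕ} (h : Gd P T n) : ty P.G T n ⊆ Finset.range (P.G + 1) := by
  have hL : 0 < Real.log T := Real.log_pos hT
  intro l hl
  unfold ty at hl
  rw [Finset.mem_image] at hl
  obtain ⟨p, hp, rfl⟩ := hl
  rw [Finset.mem_range, Nat.lt_succ_iff]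
  unfold ce
  apply Nat.ceil_le.2
  have hp0 : (0 : ℝ) < p := by exact_mod_cast (Nat.prime_of_mem_primeFactors hp).pos
  have hpn : (p : ℝ) ≤ n := by
    exact_mod_cast Nat.le_of_dvd (Nat.pos_of_ne_zero h.1.1) (Nat.dvd_of_mem_primeFactors hp)
  have h1 : Real.log p ≤ Real.log T := Real.log_le_log hp0 (hpn.trans h.2.2.2)
  rw [div_le_iff₀ hL]
  gcongr

theorem TA_mono {P : Par} {σ τ : Finset ℕ} (h : σ ⊆ τ) (hτ : TA P τ) : TA P σ := by
  unfold TA at *
  have h1 : (US σ : ℝ) ≤ US τ := by exact_mod_cast US_mono h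
  linarith

theorem TB_mono {P : Par} {σ τ : Finset ℕ} (h : σ ⊆ τ) (hτ : TB P τ) : TB P σ := by
  obtain ⟨ρ, hρ, h2⟩ := hτ
  have h3 : (US (ρ ∩ σ) : ℝ) ≤ US ρ := by exact_mod_cast US_mono Finset.inter_subset_left
  have h4 : (US (σ \ (ρ ∩ σ)) : ℝ) ≤ US (τ \ ρ) := by
    have : σ \ (ρ ∩ σ) ⊆ τ \ ρ := by
      intro x hx
      simp only [Finset.mem_sdiff, Finset.mem_inter] at hx ⊢
      exact ⟨h hx.1, fun h5 => hx.2 ⟨h5, hx.1⟩⟩
    exact_mod_cast US_mono this
  refine ⟨ρ ∩ σ, Finset.inter_subset_right, ?_⟩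
  rcases h2 with h2 | h2
  · exact Or.inl ⟨by linarith [h2.1], by linarith [h2.2]⟩
  · exact Or.inr ⟨by linarith [h2.1], by linarith [h2.2]⟩

/-- the size of a denominator type -/
theorem TB_size {P : Par} {τ : Finset ℕ} (hτ : TB P τ) : (US τ : ℝ) ≤ (10 / 21 - 2 * P.e) * P.G := by
  obtain ⟨ρ, hρ, h2⟩ := hτ
  have h1 : US τ = US (τ \ ρ) + US ρ := by
    unfold US
    exact (Finset.sum_sdiff hρ).symm
  have h3 : (US τ : ℝ) = US (τ \ ρ) + US ρ := by exact_mod_cast h1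
  have hG : (0 : ℝ) ≤ P.G := Nat.cast_nonneg _
  rcases h2 with h2 | h2 <;> nlinarith [h2.1, h2.2]

end Pool.Agent.Helper69.PP
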