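import Pool.Agent.Helper69.PP.C1

/-!
# PP-C2: index sets, net sizes, classes

# PP-C: cells, types, sizes (elementary)

`n` good: `n = ∏ p` over `n.primeFactors` (squarefree), `US (ty n) = ∑_{p | n} ce p` (the cells are distinct), `ce p - 1 < G log p/L ≤ ce p`
for `p ≥ 2`; at most `1/δ` prime factors since `T^(δ ω(n)) ≤ n ≤ T`.
-/

open MeasureTheory Set Filter Topology
open Pool.Agent.Helper57.Zeta Pool.Agent.Helper57.PC Pool.Agent.Helper57.LH Pool.Agent.Helper78.SG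
open Pool.Agent.Helper4.SH

namespace Pool.Agent.Helper69.PP

theorem mem_NA {P : Par} {T : ℝ} {n : ℕ} : n ∈ NA P T ↔ Gd P T n ∧ TA P (ty P.G T n) := by
  classical
  unfold NA
  rw [Finset.mem_filter, Finset.mem_range]
  refine ⟨fun h => h.2, fun h => ⟨?_, h⟩⟩
  have h1 : (n : ℝ) ≤ T := h.1.2.2.2
  have h2 : n ≤ ⌊T⌋₊ := Nat.le_floor h1
  omega

theorem mem_NB {P : Par} {T : ℝ} {n : ℕ} : n ∈ NB P T ↔ Gd P T n ∧ TB P (ty P.G T n) := by
  classical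
  unfold NB
  rw [Finset.mem_filter, Finset.mem_range]
  refine ⟨fun h => h.2, fun h => ⟨?_, h⟩⟩
  have h1 : (n : ℝ) ≤ T := h.1.2.2.2
  have h2 : n ≤ ⌊T⌋₊ := Nat.le_floor h1
  omega

theorem NA_dvd {P : Par} {T : ℝ} {n d : ℕ} (hn : n ∈ NA P T) (hd : d ∣ n) : d ∈ NA P T := by
  rw [mem_NA] at hn ⊢
  exact ⟨Gd_dvd hn.1 hd, TA_mono (ty_dvd hn.1.1.1 hd) hn.2⟩

theorem NB_dvd {P : Par} {T : ℝ} {n d : ℕ} (hn : n ∈ NB P T) (hd : d ∣ n) : d ∈ NB P T := by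
  rw [mem_NB] at hn ⊢
  exact ⟨Gd_dvd hn.1 hd, TB_mono (ty_dvd hn.1.1.1 hd) hn.2⟩

/-- from sizes to logarithms -/
theorem le_rpow_of_US {P : Par} {T : ℝ} (hT : 1 < T) {n : ℕ} (h : Gd P T n) {a : ℝ}
    (hU : (US (ty P.G T n) : ℝ) ≤ a * P.G) : (n : ℝ) ≤ T ^ a := by
  have hL : 0 < Real.log T := Real.log_pos hT
  have hG : (0 : ℝ) < P.G := by exact_mod_cast P.hG0
  have hn : (0 : ℝ) < n := by exact_mod_cast Nat.pos_of_ne_zero h.1.1
  have h1 : P.G * Real.log n / Real.log T ≤ a * P.G := (US_ge_log hT h).trans hU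
  rw [div_le_iff₀ hL] at h1
  have h2 : Real.log n ≤ a * Real.log T := by
    have h3 : (P.G : ℝ) * Real.log n ≤ P.G * (a * Real.log T) := by
      calc (P.G : ℝ) * Real.log n ≤ a * P.G * Real.log T := h1
        _ = _ := by ring
    exact le_of_mul_le_mul_left h3 hG
  rw [← Real.exp_log hn, Real.rpow_def_of_pos (by linarith)]
  apply Real.exp_le_exp.mpr
  linarith [mul_comm a (Real.log T)]

theorem NA_le {P : Par} {T : ℝ} (hT : 1 < T) {n : ℕ} (hn : n ∈ NA P T) : (n : ℝ) ≤ T ^ ((1 : ℝ) / 2) := by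
  rw [mem_NA] at hn
  refine le_rpow_of_US hT hn.1 ?_
  have hG : (0 : ℝ) < P.G := by exact_mod_cast P.hG0
  have h1 : (US (ty P.G T n) : ℝ) ≤ (1 / 2 - P.e) * P.G := hn.2
  have := P.he
  nlinarith

theorem NB_le {P : Par} {T : ℝ} (hT : 1 < T) {n : ℕ} (hn : n ∈ NB P T) : (n : ℝ) ≤ T ^ ((10 : ℝ) / 21) := by
  rw [mem_NB] at hn
  refine le_rpow_of_US hT hn.1 ?_
  have hG : (0 : ℝ) < P.G := by exact_mod_cast P.hG0
  have h1 := TB_size hn.2
  have := P.he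
  nlinarith

theorem Gd_one (P : Par) {T : ℝ} (hT : 1 < T) : Gd P T 1 := by
  refine ⟨⟨one_ne_zero, ?_⟩, squarefree_one, ?_, ?_⟩
  · intro p hp
    simp at hp
  · simp
  · push_cast
    exact hT.le

theorem ty_one (G : ℕ) (T : ℝ) : ty G T 1 = ∅ := by
  simp [ty]

theorem one_mem_NA (P : Par) {T : ℝ} (hT : 1 < T) : 1 ∈ NA P T := by
  rw [mem_NA]
  refine ⟨Gd_one P hT, ?_⟩
  have hG : (0 : ℝ) < P.G := by exact_mod_cast P.hG0
  have := P.he1
  rw [ty_one]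
  unfold TA US
  simp only [Finset.sum_empty, Nat.cast_zero]
  apply mul_nonneg _ hG.le
  linarith

theorem one_mem_NB (P : Par) {T : ℝ} (hT : 1 < T) : 1 ∈ NB P T := by
  rw [mem_NB]
  refine ⟨Gd_one P hT, ?_⟩
  have hG : (0 : ℝ) < P.G := by exact_mod_cast P.hG0
  have := P.he1
  rw [ty_one]
  refine ⟨∅, Finset.Subset.refl _, Or.inl ⟨?_, ?_⟩⟩
  · unfold US
    simp only [Finset.sum_empty, Nat.cast_zero]
    apply mul_nonneg _ hG.le
    linarith
  · unfold US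
    simp only [Finset.sdiff_empty, Finset.sum_empty, Nat.cast_zero]
    apply mul_nonneg _ hG.le
    linarith

theorem mem_IX {P : Par} {T : ℝ} {x : ℕ × ℕ} :
    x ∈ IX P T ↔ x.1 ∈ NA P T ∧ x.2 ∈ NB P T ∧ Nat.Coprime x.1 x.2 := by
  unfold IX
  rw [Finset.mem_filter, Finset.mem_product, and_assoc]

theorem IX_ne {P : Par} {T : ℝ} {x : ℕ × ℕ} (hx : x ∈ IX P T) : x.1 ≠ 0 ∧ x.2 ≠ 0 := by
  rw [mem_IX, mem_NA, mem_NB] at hx
  exact ⟨hx.1.1.1.1, hx.2.1.1.1.1⟩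

/-- net size and frequency -/
theorem phn_vv {P : Par} {T : ℝ} (hT : 1 < T) {x : ℕ × ℕ} (hx : x ∈ IX P T) :
    |P.G * phn x / Real.log T - vv P T x| ≤ P.K := by
  rw [mem_IX, mem_NA, mem_NB] at hx
  obtain ⟨⟨h1, -⟩, ⟨h2, -⟩, -⟩ := hx
  have a1 := US_ge_log hT h1
  have a2 := US_le_log hT h1
  have b1 := US_ge_log hT h2
  have b2 := US_le_log hT h2
  have e : (P.G : ℝ) * phn x / Real.log T - ((vv P T x : ℤ) : ℝ) =
      (P.G * Real.log x.1 / Real.log T - US (ty P.G T x.1)) -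
        (P.G * Real.log x.2 / Real.log T - US (ty P.G T x.2)) := by
    unfold phn vv
    push_cast
    ring
  rw [e, abs_le]
  constructor <;> linarith

/-- the frequencies of class `k` -/
theorem dk_phn {P : Par} {T : ℝ} (hT : 1 < T) {x y : ℕ × ℕ} (hx : x ∈ IX P T) (hy : y ∈ IX P T) :
    |phn x - phn y| ≤ ((dk P T x y : ℝ) + 2 * P.K) / P.G * Real.log T := by
  have hL : 0 < Real.log T := Real.log_pos hT
  have hG : (0 : ℝ) < P.G := by exact_mod_cast P.hG0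
  have h1 := phn_vv hT hx
  have h2 := phn_vv hT hy
  have hd : ((dk P T x y : ℕ) : ℝ) = |(vv P T x : ℝ) - (vv P T y : ℝ)| := by
    unfold dk
    rw [Nat.cast_natAbs]
    push_cast
    rfl
  have h3 : |P.G * (phn x - phn y) / Real.log T| ≤ (dk P T x y : ℝ) + 2 * P.K := by
    have e : (P.G : ℝ) * (phn x - phn y) / Real.log T =
        (P.G * phn x / Real.log T - vv P T x) - (P.G * phn y / Real.log T - vv P T y) +
          ((vv P T x : ℝ) - vv P T y) := by ring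
    rw [e, hd]
    have h4 := abs_add_le ((P.G * phn x / Real.log T - vv P T x) -
      (P.G * phn y / Real.log T - vv P T y)) ((vv P T x : ℝ) - vv P T y)
    have h5 := abs_sub (P.G * phn x / Real.log T - vv P T x) (P.G * phn y / Real.log T - vv P T y)
    linarith
  have h6 : |phn x - phn y| = |P.G * (phn x - phn y) / Real.log T| / P.G * Real.log T := by
    rw [abs_div, abs_mul, abs_of_pos hG, abs_of_pos hL]
    field_simp
  rw [h6]
  gcongr

theorem dk_mem {P : Par} {T : ℝ} {x y : ℕ × ℕ} (hx : x ∈ IX P T) (hy : y ∈ IX P T) : dk P T x y ∈ KR P := by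
  have hG : (0 : ℝ) < P.G := by exact_mod_cast P.hG0
  rw [mem_IX, mem_NA, mem_NB] at hx hy
  obtain ⟨⟨-, x1⟩, ⟨-, x2⟩, -⟩ := hx
  obtain ⟨⟨-, y1⟩, ⟨-, y2⟩, -⟩ := hy
  have X1 : (US (ty P.G T x.1) : ℝ) ≤ (1 / 2 - P.e) * P.G := x1
  have X2 := TB_size x2
  have Y1 : (US (ty P.G T y.1) : ℝ) ≤ (1 / 2 - P.e) * P.G := y1
  have Y2 := TB_size y2
  have he := P.he
  have p1 : (0 : ℝ) ≤ US (ty P.G T x.1) := Nat.cast_nonneg _
  have p2 : (0 : ℝ) ≤ US (ty P.G T x.2) := Nat.cast_nonneg _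
  have p3 : (0 : ℝ) ≤ US (ty P.G T y.1) := Nat.cast_nonneg _
  have p4 : (0 : ℝ) ≤ US (ty P.G T y.2) := Nat.cast_nonneg _
  have hd : ((dk P T x y : ℕ) : ℝ) = |(vv P T x : ℝ) - (vv P T y : ℝ)| := by
    unfold dk
    rw [Nat.cast_natAbs]
    push_cast
    rfl
  have hb : ((dk P T x y : ℕ) : ℝ) ≤ (41 / 42 : ℝ) * P.G := by
    rw [hd, abs_le]
    unfold vv
    push_cast
    constructor <;> nlinarith
  unfold KR
  rw [Finset.mem_range]
  have := Nat.le_floor hb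
  omega

end Pool.Agent.Helper69.PP
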