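import Pool.Agent.Helper69.PP.C3

/-!
# PP-E0: Liouville, diagonals

# PP-E: mean values

`mean_FF`: `gmv` (`Helper4/SH/GMV`) with index set `IX × IX`, `a = x.1 * y.2`, `b = x.2 * y.1 ≤ T^(41/42)`, `δ = 1/42`; the diagonal
`x.1 y.2 = x.2 y.1` with both pairs coprime is `x = y`.
-/

open MeasureTheory Set Filter Topology
open Pool.Agent.Helper57.Zeta Pool.Agent.Helper57.PC Pool.Agent.Helper57.LH Pool.Agent.Helper78.SG
open Pool.Agent.Helper4.SH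

namespace Pool.Agent.Helper69.PP

theorem lam_mul {m n : ℕ} (hm : m ≠ 0) (hn : n ≠ 0) : lam (m * n) = lam m * lam n := by
  unfold lam
  rw [ArithmeticFunction.cardFactors_mul hm hn, pow_add]

theorem lam_mul_self (n : ℕ) : lam n * lam n = 1 := by
  unfold lam
  rw [← pow_add]
  exact Even.neg_one_pow ⟨_, rfl⟩

theorem lam_prime {p : ℕ} (hp : p.Prime) : lam p = -1 := by
  unfold lam
  rw [ArithmeticFunction.cardFactors_apply_prime hp, pow_one]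

private lemma IX_facts {P : Par} {T : ℝ} {x : ℕ × ℕ} (hx : x ∈ IX P T) :
    x.1 ≠ 0 ∧ x.2 ≠ 0 ∧ Nat.Coprime x.1 x.2 := by
  simp only [IX, NA, NB, Finset.mem_filter, Finset.mem_product] at hx
  exact ⟨hx.1.1.2.1.1.1, hx.1.2.2.1.1.1, hx.2⟩

/-- the diagonal of `|M|²` -/
theorem diag_eq {P : Par} {T : ℝ} {x y : ℕ × ℕ} (hx : x ∈ IX P T) (hy : y ∈ IX P T)
    (h : x.1 * y.2 = x.2 * y.1) : x = y := by
  obtain ⟨hx1, hx2, hxc⟩ := IX_facts hx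
  obtain ⟨hy1, hy2, hyc⟩ := IX_facts hy
  have h1 : x.1 ∣ y.1 := hxc.dvd_of_dvd_mul_left ⟨y.2, h.symm⟩
  have h2 : y.1 ∣ x.1 := hyc.dvd_of_dvd_mul_right ⟨x.2, by rw [h]; ring⟩
  have h3 : x.1 = y.1 := Nat.dvd_antisymm h1 h2
  have h4 : y.2 = x.2 := by
    apply Nat.eq_of_mul_eq_mul_left (Nat.pos_of_ne_zero hx1)
    rw [h, h3]; ring
  exact Prod.ext h3 h4.symm

/-- the diagonal for a prime: `x.1 | y.1 x.2` and coprimality give `x.1 | y.1`, `y.2 | x.2`, quotients `u, v` with `u v = p` -/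
theorem diag_prime {P : Par} {T : ℝ} {x y : ℕ × ℕ} (hx : x ∈ IX P T) (hy : y ∈ IX P T) {p : ℕ} (hp : p.Prime)
    (h : x.1 * y.2 * p = x.2 * y.1) : (y.1 = p * x.1 ∧ y.2 = x.2) ∨ (y.1 = x.1 ∧ x.2 = p * y.2) := by
  obtain ⟨hx1, hx2, hxc⟩ := IX_facts hx
  obtain ⟨hy1, hy2, hyc⟩ := IX_facts hy
  have h1 : x.1 ∣ y.1 := hxc.dvd_of_dvd_mul_left ⟨y.2 * p, by rw [← h]; ring⟩
  obtain ⟨u, hu⟩ := h1
  have h2 : y.2 * p = x.2 * u := by
    apply Nat.eq_of_mul_eq_mul_left (Nat.pos_of_ne_zero hx1)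
    rw [← mul_assoc, h, hu]; ring
  have hcu : Nat.Coprime u y.2 := Nat.Coprime.coprime_dvd_left ⟨x.1, by rw [hu]; ring⟩ hyc
  have h3 : y.2 ∣ x.2 := hcu.symm.dvd_of_dvd_mul_right ⟨p, h2.symm⟩
  obtain ⟨w, hw⟩ := h3
  have h4 : p = w * u := by
    apply Nat.eq_of_mul_eq_mul_left (Nat.pos_of_ne_zero hy2)
    rw [h2, hw]; ring
  have hup' : u ∣ p := ⟨w, by rw [h4]; ring⟩
  rcases (Nat.dvd_prime hp).1 hup' with hu1 | hup
  · right
    rw [hu1, mul_one] at h4 hu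
    exact ⟨hu, by rw [hw, h4]; ring⟩
  · left
    have hw1 : w = 1 := by
      have : w * u = 1 * u := by rw [← h4, hup, one_mul]
      exact Nat.eq_of_mul_eq_mul_right (by rw [hup]; exact hp.pos) this
    rw [hup] at hu
    rw [hw1, mul_one] at hw
    exact ⟨by rw [hu]; ring, hw.symm⟩

end Pool.Agent.Helper69.PP
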