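import Pool.Agent.Helper69.PP.E0

/-!
# PP-E2: diagonal over primes

# PP-E: mean values

`mean_FF`: `gmv` (`Helper4/SH/GMV`) with index set `IX × IX`, `a = x.1 * y.2`, `b = x.2 * y.1 ≤ T^(41/42)`, `δ = 1/42`; the diagonal
`x.1 y.2 = x.2 y.1` with both pairs coprime is `x = y`.
-/

open MeasureTheory Set Filter Topology
open Pool.Agent.Helper57.Zeta Pool.Agent.Helper57.PC Pool.Agent.Helper57.LH Pool.Agent.Helper78.SG
open Pool.Agent.Helper4.SH

namespace Pool.Agent.Helper69.PP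

/-- the prime factors of `n ≤ T` are the primes of `PP T` dividing `n` -/
theorem e2_filter {T : ℝ} {n : ℕ} (hn : n ≠ 0) (hnT : (n : ℝ) ≤ T) :
    (PP T).filter (fun p => p ∣ n) = n.primeFactors := by
  ext p
  simp only [PP, Finset.mem_filter, Finset.mem_range, Nat.mem_primeFactors]
  constructor
  · rintro ⟨⟨_, hp⟩, hd⟩
    exact ⟨hp, hd, hn⟩
  · rintro ⟨hp, hd, _⟩
    refine ⟨⟨?_, hp⟩, hd⟩
    have h1 : p ≤ n := Nat.le_of_dvd (Nat.pos_of_ne_zero hn) hd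
    have h2 : n ≤ ⌊T⌋₊ := Nat.le_floor hnT
    omega

theorem e2_Wn (c : ℝ) {T : ℝ} {n : ℕ} (hn : n ≠ 0) (hnT : (n : ℝ) ≤ T) (a : ℝ) :
    ∑ p ∈ PP T, (if p ∣ n then -(a * (2 * yy T p * SBc c (yy T p))) else 0) = -(a * Wn c T n) := by
  rw [← Finset.sum_filter, e2_filter hn hnT, Finset.sum_neg_distrib, ← Finset.mul_sum]
  rfl

theorem e2_prime {T : ℝ} {p : ℕ} (hp : p ∈ PP T) : p.Prime := by
  simp only [PP, Finset.mem_filter] at hp
  exact hp.2

/-- the value of a term of the first kind -/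
theorem e2_val {T : ℝ} {a b p : ℕ} (ha : a ≠ 0) (hb : b ≠ 0) (hp : p.Prime) (S : ℝ) :
    cfn (a, b) * cfn (p * a, b) * (2 * ww T p * S) = -(1 / (((p * a : ℕ) : ℝ) * b) * (2 * yy T p * S)) := by
  have hp0 : (0 : ℝ) < p := by exact_mod_cast hp.pos
  have ha0 : (0 : ℝ) < a := by exact_mod_cast Nat.pos_of_ne_zero ha
  have hb0 : (0 : ℝ) < b := by exact_mod_cast Nat.pos_of_ne_zero hb
  have e1 : lam (p * a) = - lam a := by
    rw [lam_mul hp.ne_zero ha, lam_prime hp]; ring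
  have ea := lam_mul_self a
  have eb := lam_mul_self b
  have s1 : Real.sqrt ((a : ℝ) * b) ≠ 0 := (Real.sqrt_pos.2 (by positivity)).ne'
  have s2 : Real.sqrt (p : ℝ) ≠ 0 := (Real.sqrt_pos.2 hp0).ne'
  have s3 : Real.sqrt (((p * a : ℕ) : ℝ) * b) = Real.sqrt p * Real.sqrt ((a : ℝ) * b) := by
    rw [Nat.cast_mul, mul_assoc, Real.sqrt_mul hp0.le]
  have q1 : Real.sqrt ((a : ℝ) * b) * Real.sqrt ((a : ℝ) * b) = a * b := Real.mul_self_sqrt (by positivity)
  have q2 : Real.sqrt (p : ℝ) * Real.sqrt (p : ℝ) = p := Real.mul_self_sqrt hp0.le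
  have k0 : lam a * lam b * (-lam a * lam b) = -1 := by
    calc lam a * lam b * (-lam a * lam b) = -((lam a * lam a) * (lam b * lam b)) := by ring
      _ = -1 := by rw [ea, eb]; ring
  simp only [cfn, ww, yy]
  rw [s3, e1, Nat.cast_mul, div_mul_div_comm, k0]
  have d1 : Real.sqrt ((a : ℝ) * b) * (Real.sqrt p * Real.sqrt ((a : ℝ) * b)) = Real.sqrt p * (a * b) := by
    calc _ = Real.sqrt p * (Real.sqrt ((a : ℝ) * b) * Real.sqrt ((a : ℝ) * b)) := by ring
      _ = _ := by rw [q1]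
  have d2 : (p : ℝ) * a * b = Real.sqrt p * Real.sqrt p * (a * b) := by rw [q2]; ring
  rw [d1, d2]
  by_cases hL : Real.log T = 0
  · simp [hL]
  · field_simp

theorem e2_val2 {T : ℝ} {a b p : ℕ} (ha : a ≠ 0) (hb : b ≠ 0) (hp : p.Prime) (S : ℝ) :
    cfn (a, p * b) * cfn (a, b) * (2 * ww T p * S) = -(1 / ((a : ℝ) * ((p * b : ℕ) : ℝ)) * (2 * yy T p * S)) := by
  have h := e2_val (T := T) hb ha hp S
  have c1 : ∀ u v : ℕ, cfn (u, v) = cfn (v, u) := by
    intro u v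
    simp only [cfn]
    rw [mul_comm (lam u), mul_comm (u : ℝ)]
  rw [c1 a (p * b), c1 a b, mul_comm (cfn (p * b, a)), h, mul_comm (a : ℝ)]

/-- the diagonal over the primes is `-BT` (`NA`, `NB` are closed under divisors) -/
theorem diag_total (P : Par) {T : ℝ} (hT : 1 < T) :
    ∑ x ∈ IX P T, ∑ y ∈ IX P T, ∑ p ∈ PP T,
      (if x.1 * y.2 * p = x.2 * y.1 then cfn x * cfn y * (2 * ww T p * SBc P.c (yy T p)) else 0) = -BT P T := by
  classical
  have _ := hT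
  have key : ∀ x ∈ IX P T, ∀ y ∈ IX P T, ∀ p ∈ PP T,
      (if x.1 * y.2 * p = x.2 * y.1 then cfn x * cfn y * (2 * ww T p * SBc P.c (yy T p)) else 0) =
        (if y.1 = p * x.1 ∧ y.2 = x.2 then -(1 / ((y.1 : ℝ) * y.2) * (2 * yy T p * SBc P.c (yy T p))) else 0) +
        (if y.1 = x.1 ∧ x.2 = p * y.2 then -(1 / ((x.1 : ℝ) * x.2) * (2 * yy T p * SBc P.c (yy T p))) else 0) := by
    intro x hx y hy p hp
    have hpp := e2_prime hp
    obtain ⟨hx1, hx2⟩ := IX_ne hx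
    obtain ⟨hy1, hy2⟩ := IX_ne hy
    obtain ⟨x1, x2⟩ := x
    obtain ⟨y1, y2⟩ := y
    simp only at hx1 hx2 hy1 hy2 ⊢
    by_cases h1 : y1 = p * x1 ∧ y2 = x2
    · have h2 : ¬ (y1 = x1 ∧ x2 = p * y2) := by
        rintro ⟨h2, _⟩
        have h3 := h1.1
        rw [h2] at h3
        have : x1 * 1 < x1 * p := Nat.mul_lt_mul_of_pos_left hpp.one_lt (Nat.pos_of_ne_zero hx1)
        rw [mul_comm p] at h3
        omega
      have h0 : x1 * y2 * p = x2 * y1 := by rw [h1.1, h1.2]; ring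
      rw [if_pos h1, if_neg h2, if_pos h0, add_zero]
      obtain ⟨rfl, rfl⟩ := h1
      exact e2_val hx1 hx2 hpp _
    · by_cases h2 : y1 = x1 ∧ x2 = p * y2
      · have h0 : x1 * y2 * p = x2 * y1 := by rw [h2.1, h2.2]; ring
        rw [if_neg h1, if_pos h2, if_pos h0, zero_add]
        obtain ⟨rfl, rfl⟩ := h2
        exact e2_val2 hx1 hy2 hpp _
      · rw [if_neg h1, if_neg h2, add_zero, if_neg]
        intro h0
        rcases diag_prime hx hy hpp h0 with h | h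
        · exact h1 h
        · exact h2 h
  have s0 : ∑ x ∈ IX P T, ∑ y ∈ IX P T, ∑ p ∈ PP T,
      (if x.1 * y.2 * p = x.2 * y.1 then cfn x * cfn y * (2 * ww T p * SBc P.c (yy T p)) else 0) =
      ∑ x ∈ IX P T, ∑ y ∈ IX P T, ∑ p ∈ PP T,
        ((if y.1 = p * x.1 ∧ y.2 = x.2 then -(1 / ((y.1 : ℝ) * y.2) * (2 * yy T p * SBc P.c (yy T p))) else 0) +
        (if y.1 = x.1 ∧ x.2 = p * y.2 then -(1 / ((x.1 : ℝ) * x.2) * (2 * yy T p * SBc P.c (yy T p))) else 0)) :=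
    Finset.sum_congr rfl fun x hx => Finset.sum_congr rfl fun y hy => Finset.sum_congr rfl fun p hp => key x hx y hy p hp
  rw [s0]
  simp only [Finset.sum_add_distrib]
  have A : ∑ x ∈ IX P T, ∑ y ∈ IX P T, ∑ p ∈ PP T,
      (if y.1 = p * x.1 ∧ y.2 = x.2 then -(1 / ((y.1 : ℝ) * y.2) * (2 * yy T p * SBc P.c (yy T p))) else 0) =
      ∑ y ∈ IX P T, -(1 / ((y.1 : ℝ) * y.2) * Wn P.c T y.1) := by
    rw [Finset.sum_comm]
    refine Finset.sum_congr rfl fun y hy => ?_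
    rw [Finset.sum_comm]
    obtain ⟨hyA, hyB, hyc⟩ := mem_IX.1 hy
    rw [← e2_Wn P.c (IX_ne hy).1 (mem_NA.1 hyA).1.2.2.2]
    refine Finset.sum_congr rfl fun p hp => ?_
    have hpp := e2_prime hp
    by_cases hd : p ∣ y.1
    · rw [if_pos hd]
      obtain ⟨a, ha⟩ := hd
      have hm : (a, y.2) ∈ IX P T := by
        refine mem_IX.2 ⟨NA_dvd hyA ⟨p, by rw [ha, mul_comm]⟩, hyB, ?_⟩
        exact Nat.Coprime.coprime_dvd_left ⟨p, by rw [ha, mul_comm]⟩ hyc
      rw [Finset.sum_eq_single (a, y.2)]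
      · rw [if_pos ⟨ha, rfl⟩]
      · intro x hx hne
        rw [if_neg]
        rintro ⟨h1, h2⟩
        apply hne
        have : p * x.1 = p * a := by rw [← h1, ha]
        have h3 := Nat.eq_of_mul_eq_mul_left hpp.pos this
        exact Prod.ext h3 h2.symm
      · intro h
        exact absurd hm h
    · rw [if_neg hd]
      refine Finset.sum_eq_zero fun x _ => ?_
      rw [if_neg]
      rintro ⟨h1, _⟩
      exact hd ⟨x.1, h1⟩
  have B : ∑ x ∈ IX P T, ∑ y ∈ IX P T, ∑ p ∈ PP T,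
      (if y.1 = x.1 ∧ x.2 = p * y.2 then -(1 / ((x.1 : ℝ) * x.2) * (2 * yy T p * SBc P.c (yy T p))) else 0) =
      ∑ x ∈ IX P T, -(1 / ((x.1 : ℝ) * x.2) * Wn P.c T x.2) := by
    refine Finset.sum_congr rfl fun x hx => ?_
    rw [Finset.sum_comm]
    obtain ⟨hxA, hxB, hxc⟩ := mem_IX.1 hx
    rw [← e2_Wn P.c (IX_ne hx).2 (mem_NB.1 hxB).1.2.2.2]
    refine Finset.sum_congr rfl fun p hp => ?_
    have hpp := e2_prime hp
    by_cases hd : p ∣ x.2
    · rw [if_pos hd]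
      obtain ⟨a, ha⟩ := hd
      have hm : (x.1, a) ∈ IX P T := by
        refine mem_IX.2 ⟨hxA, NB_dvd hxB ⟨p, by rw [ha, mul_comm]⟩, ?_⟩
        exact Nat.Coprime.coprime_dvd_right ⟨p, by rw [ha, mul_comm]⟩ hxc
      rw [Finset.sum_eq_single (x.1, a)]
      · rw [if_pos ⟨rfl, ha⟩]
      · intro y hy hne
        rw [if_neg]
        rintro ⟨h1, h2⟩
        apply hne
        have : p * y.2 = p * a := by rw [← h2, ha]
        have h3 := Nat.eq_of_mul_eq_mul_left hpp.pos this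
        exact Prod.ext h1 h3
      · intro h
        exact absurd hm h
    · rw [if_neg hd]
      refine Finset.sum_eq_zero fun y _ => ?_
      rw [if_neg]
      rintro ⟨_, h2⟩
      exact hd ⟨y.2, h2⟩
  rw [A, B, ← Finset.sum_add_distrib]
  simp only [BT]
  rw [← Finset.sum_neg_distrib]
  refine Finset.sum_congr rfl fun x _ => ?_
  ring

end Pool.Agent.Helper69.PP
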