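import Pool.Agent.Helper69.PP.E0

/-!
# PP-F0: definitions

# PP-F: the factorisation of the cell sums

`GT P T τ`: the good numbers of type `τ`. For `l ∈ τ` every element is uniquely `p m'` with `p ∈ PC P l T` and `m'` good of type
`τ \ {l}` (and conversely `p m'` is good of type `τ` as soon as `US τ ≤ G`, because then `p m' ≤ T^(US τ/G) ≤ T`). So for `l` in both types
`MM τ1 τ2 = (|P_l|² - W_l) MM (τ1 \ l) (τ2 \ l)`, for `l` only in `τ1`: `MM τ1 τ2 = - P_l MM (τ1 \ l) τ2`, for `l` only in `τ2`: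
`MM τ1 τ2 = - conj P_l MM τ1 (τ2 \ l)` (primes in distinct cells are distinct, so coprimality concerns only the common cells).
-/

open MeasureTheory Set Filter Topology
open Pool.Agent.Helper57.Zeta Pool.Agent.Helper57.PC Pool.Agent.Helper57.LH Pool.Agent.Helper78.SG
open Pool.Agent.Helper4.SH

namespace Pool.Agent.Helper69.PP

open Classical in
/-- the good numbers of type `τ` -/
noncomputable def GT (P : Par) (T : ℝ) (τ : Finset ℕ) : Finset ℕ :=
  (Finset.range (⌊T⌋₊ + 1)).filter (fun n => Gd P T n ∧ ty P.G T n = τ)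

/-- the sum over coprime pairs of given types -/
noncomputable def MM (P : Par) (T t : ℝ) (τ1 τ2 : Finset ℕ) : ℂ :=
  ∑ x ∈ ((GT P T τ1) ×ˢ (GT P T τ2)).filter (fun x => Nat.Coprime x.1 x.2),
    (cfn x : ℂ) * Complex.exp (((t * phn x : ℝ) : ℂ) * Complex.I)

open Classical in
/-- the quadruples of types of class `k` -/
noncomputable def QT (P : Par) (k : ℕ) : Finset ((Finset ℕ × Finset ℕ) × (Finset ℕ × Finset ℕ)) :=
  let Q := ((Finset.range (P.G + 1)).powerset ×ˢ (Finset.range (P.G + 1)).powerset).filter (fun q => TA P q.1 ∧ TB P q.2)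
  (Q ×ˢ Q).filter (fun z => (((US z.1.1 : ℤ) - US z.1.2) - ((US z.2.1 : ℤ) - US z.2.2)).natAbs = k)

end Pool.Agent.Helper69.PP
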