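import Pool.Agent.Helper69.PP.F1

/-!
# PP-F2: factorisation

# PP-F: the factorisation of the cell sums

`GT P T τ`: the good numbers of type `τ`. For `l ∈ τ` every element is uniquely `p m'` with `p ∈ PC P l T` and `m'` good of type
`τ \ {l}` (and conversely `p m'` is good of type `τ` as soon as `US τ ≤ G`, because then `p m' ≤ T^(US τ/G) ≤ T`). So for `l` in both types
`MM τ1 τ2 = (|P_l|² - W_l) MM (τ1 \ l) (τ2 \ l)`, for `l` only in `τ1`: `MM τ1 τ2 = - P_l MM (τ1 \ l) τ2`, for `l` only in `τ2`: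
`MM τ1 τ2 = - conj P_l MM τ1 (τ2 \ l)` (primes in distinct cells are distinct, so coprimality concerns only the common cells).
-/

open MeasureTheory Set Filter Topology
open Pool.Agent.Helper57.Zeta Pool.Agent.Helper57.PC Pool.Agent.Helper57.LH Pool.Agent.Helper78.SG
open Pool.Agent.Helper4.SH

namespace Pool.Agent.Helper69.PP

/-- the summand -/
private noncomputable def gg (t : ℝ) (m n : ℕ) : ℂ :=
  if Nat.Coprime m n then (cfn (m, n) : ℂ) * Complex.exp (((t * phn (m, n) : ℝ) : ℂ) * Complex.I) else 0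

/-- `p^(-1/2+it)` -/
private noncomputable def ap (t : ℝ) (p : ℕ) : ℂ :=
  ((1 / Real.sqrt p : ℝ) : ℂ) * Complex.exp (((t * Real.log p : ℝ) : ℂ) * Complex.I)

private theorem MM_gg (P : Par) (T t : ℝ) (τ1 τ2 : Finset ℕ) :
    MM P T t τ1 τ2 = ∑ m ∈ GT P T τ1, ∑ n ∈ GT P T τ2, gg t m n := by
  unfold MM gg
  rw [Finset.sum_filter, Finset.sum_product]

private theorem Pl_ap (P : Par) (l : ℕ) (T t : ℝ) : Pl P l T t = ∑ p ∈ PC P l T, ap t p := by
  unfold Pl DP ap
  rfl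

private theorem ap_conj (t : ℝ) (p : ℕ) : (starRingEnd ℂ) (ap t p) =
    ((1 / Real.sqrt p : ℝ) : ℂ) * Complex.exp (((-(t * Real.log p) : ℝ) : ℂ) * Complex.I) := by
  unfold ap
  rw [map_mul, Complex.conj_ofReal, ← Complex.exp_conj, map_mul, Complex.conj_ofReal, Complex.conj_I]
  congr 2
  push_cast
  ring

private theorem ap_mul_conj (t : ℝ) {p : ℕ} : ap t p * (starRingEnd ℂ) (ap t p) = ((1 / (p : ℝ) : ℝ) : ℂ) := by
  rw [ap_conj]
  unfold ap
  have h1 : Complex.exp (((t * Real.log p : ℝ) : ℂ) * Complex.I) *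
      Complex.exp (((-(t * Real.log p) : ℝ) : ℂ) * Complex.I) = 1 := by
    rw [← Complex.exp_add, ← add_mul, ← Complex.ofReal_add, add_neg_cancel]
    simp
  have h2 : ((1 / Real.sqrt p : ℝ) : ℂ) * ((1 / Real.sqrt p : ℝ) : ℂ) = ((1 / (p : ℝ) : ℝ) : ℂ) := by
    rw [← Complex.ofReal_mul]
    congr 1
    rw [div_mul_div_comm, one_mul, Real.mul_self_sqrt (Nat.cast_nonneg p)]
  calc _ = (((1 / Real.sqrt p : ℝ) : ℂ) * ((1 / Real.sqrt p : ℝ) : ℂ)) *
      (Complex.exp (((t * Real.log p : ℝ) : ℂ) * Complex.I) *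
      Complex.exp (((-(t * Real.log p) : ℝ) : ℂ) * Complex.I)) := by ring
    _ = _ := by rw [h1, h2, mul_one]

private theorem gg_left (t : ℝ) {p m n : ℕ} (hp : p.Prime) (hm : m ≠ 0) (hn : n ≠ 0) (hpn : ¬ p ∣ n) :
    gg t (p * m) n = -(ap t p) * gg t m n := by
  have hp0 : (0 : ℝ) < (p : ℝ) := by exact_mod_cast hp.pos
  have hm0 : (0 : ℝ) < (m : ℝ) := by exact_mod_cast Nat.pos_of_ne_zero hm
  have hn0 : (0 : ℝ) < (n : ℝ) := by exact_mod_cast Nat.pos_of_ne_zero hn
  have hco : Nat.Coprime (p * m) n ↔ Nat.Coprime m n := by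
    rw [Nat.coprime_mul_iff_left]
    exact ⟨fun h => h.2, fun h => ⟨(Nat.Prime.coprime_iff_not_dvd hp).2 hpn, h⟩⟩
  unfold gg
  by_cases h : Nat.Coprime m n
  · rw [if_pos h, if_pos (hco.2 h)]
    have e1 : cfn (p * m, n) = -(1 / Real.sqrt p) * cfn (m, n) := by
      unfold cfn
      simp only
      rw [lam_mul hp.ne_zero hm, lam_prime hp]
      push_cast
      rw [mul_assoc (p : ℝ), Real.sqrt_mul hp0.le]
      have : Real.sqrt p ≠ 0 := (Real.sqrt_pos.2 hp0).ne'
      have : Real.sqrt (m * n) ≠ 0 := (Real.sqrt_pos.2 (by positivity)).ne'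
      field_simp
    have e2 : phn (p * m, n) = Real.log p + phn (m, n) := by
      unfold phn
      simp only
      push_cast
      rw [Real.log_mul hp0.ne' hm0.ne']
      ring
    rw [e1, e2]
    unfold ap
    have e3 : Complex.exp (((t * (Real.log p + phn (m, n)) : ℝ) : ℂ) * Complex.I) =
        Complex.exp (((t * Real.log p : ℝ) : ℂ) * Complex.I) *
        Complex.exp (((t * phn (m, n) : ℝ) : ℂ) * Complex.I) := by
      rw [← Complex.exp_add]
      congr 1
      push_cast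
      ring
    rw [e3]
    push_cast
    ring
  · rw [if_neg h, if_neg (fun h' => h (hco.1 h')), mul_zero]

private theorem gg_right (t : ℝ) {q m n : ℕ} (hq : q.Prime) (hm : m ≠ 0) (hn : n ≠ 0) (hqm : ¬ q ∣ m) :
    gg t m (q * n) = -((starRingEnd ℂ) (ap t q)) * gg t m n := by
  have hp0 : (0 : ℝ) < (q : ℝ) := by exact_mod_cast hq.pos
  have hm0 : (0 : ℝ) < (m : ℝ) := by exact_mod_cast Nat.pos_of_ne_zero hm
  have hn0 : (0 : ℝ) < (n : ℝ) := by exact_mod_cast Nat.pos_of_ne_zero hn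
  have hco : Nat.Coprime m (q * n) ↔ Nat.Coprime m n := by
    rw [Nat.coprime_mul_iff_right]
    exact ⟨fun h => h.2, fun h => ⟨((Nat.Prime.coprime_iff_not_dvd hq).2 hqm).symm, h⟩⟩
  unfold gg
  by_cases h : Nat.Coprime m n
  · rw [if_pos h, if_pos (hco.2 h)]
    have e1 : cfn (m, q * n) = -(1 / Real.sqrt q) * cfn (m, n) := by
      unfold cfn
      simp only
      rw [lam_mul hq.ne_zero hn, lam_prime hq]
      push_cast
      rw [mul_left_comm (m : ℝ), Real.sqrt_mul hp0.le]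
      have : Real.sqrt q ≠ 0 := (Real.sqrt_pos.2 hp0).ne'
      have : Real.sqrt (m * n) ≠ 0 := (Real.sqrt_pos.2 (by positivity)).ne'
      field_simp
    have e2 : phn (m, q * n) = -Real.log q + phn (m, n) := by
      unfold phn
      simp only
      push_cast
      rw [Real.log_mul hp0.ne' hn0.ne']
      ring
    rw [e1, e2, ap_conj]
    have e3 : Complex.exp (((t * (-Real.log q + phn (m, n)) : ℝ) : ℂ) * Complex.I) =
        Complex.exp (((-(t * Real.log q) : ℝ) : ℂ) * Complex.I) *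
        Complex.exp (((t * phn (m, n) : ℝ) : ℂ) * Complex.I) := by
      rw [← Complex.exp_add]
      congr 1
      push_cast
      ring
    rw [e3]
    push_cast
    ring
  · rw [if_neg h, if_neg (fun h' => h (hco.1 h')), mul_zero]

private theorem mem_PC_prime {P : Par} {T : ℝ} {l p : ℕ} (hp : p ∈ PC P l T) : p.Prime ∧ ce P.G T p = l := by
  unfold PC PP at hp
  rw [Finset.mem_filter, Finset.mem_filter] at hp
  exact ⟨hp.1.2, hp.2.2⟩

private theorem GT_ne {P : Par} {T : ℝ} {τ : Finset ℕ} {n : ℕ} (hn : n ∈ GT P T τ) : n ≠ 0 := by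
  classical
  unfold GT at hn
  rw [Finset.mem_filter] at hn
  exact hn.2.1.1.1

private theorem GT_ndvd {P : Par} {T : ℝ} {τ : Finset ℕ} {n l p : ℕ} (hn : n ∈ GT P T τ) (hp : p ∈ PC P l T)
    (hl : l ∉ τ) : ¬ p ∣ n := by
  intro hd
  classical
  obtain ⟨hpp, hce⟩ := mem_PC_prime hp
  have hn0 := GT_ne hn
  unfold GT at hn
  rw [Finset.mem_filter] at hn
  apply hl
  rw [← hn.2.2, ← hce]
  unfold ty
  exact Finset.mem_image_of_mem _ (Nat.mem_primeFactors.2 ⟨hpp, hd, hn0⟩)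

theorem MM_both {P : Par} {T : ℝ} (hT : 1 < T) (t : ℝ) {τ1 τ2 : Finset ℕ} (h1 : US τ1 ≤ P.G) (h2 : US τ2 ≤ P.G) {l : ℕ}
    (hl1 : l ∈ τ1) (hl2 : l ∈ τ2) :
    MM P T t τ1 τ2 = ((‖Pl P l T t‖ ^ 2 - Wl P l T : ℝ) : ℂ) * MM P T t (τ1.erase l) (τ2.erase l) := by
  classical
  rw [MM_gg, MM_gg, GT_sum hT hl1 h1]
  have step : ∀ p ∈ PC P l T, ∀ m ∈ GT P T (τ1.erase l),
      ∑ n ∈ GT P T τ2, gg t (p * m) n =
        ∑ q ∈ PC P l T, (if p = q then 0 else ap t p * (starRingEnd ℂ) (ap t q)) *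
          ∑ n ∈ GT P T (τ2.erase l), gg t m n := by
    intro p hp m hm
    rw [GT_sum hT hl2 h2]
    apply Finset.sum_congr rfl
    intro q hq
    rw [Finset.mul_sum]
    apply Finset.sum_congr rfl
    intro n hn
    have hpp := (mem_PC_prime hp).1
    have hqp := (mem_PC_prime hq).1
    have hm0 := GT_ne hm
    have hn0 := GT_ne hn
    have hpn : ¬ p ∣ n := GT_ndvd hn hp (Finset.notMem_erase l τ2)
    have hqm : ¬ q ∣ m := GT_ndvd hm hq (Finset.notMem_erase l τ1)
    by_cases hpq : p = q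
    · rw [if_pos hpq, zero_mul]
      unfold gg
      rw [if_neg]
      intro hco
      have h3 : p ∣ Nat.gcd (p * m) (q * n) :=
        Nat.dvd_gcd (dvd_mul_right p m) (by rw [← hpq]; exact dvd_mul_right p n)
      rw [hco] at h3
      exact hpp.one_lt.ne' (Nat.dvd_one.1 h3)
    · rw [if_neg hpq]
      have hpqn : ¬ p ∣ q * n := by
        rw [hpp.dvd_mul]
        rintro (h3 | h3)
        · exact hpq ((Nat.prime_dvd_prime_iff_eq hpp hqp).1 h3)
        · exact hpn h3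
      rw [gg_left t hpp hm0 (mul_ne_zero hqp.ne_zero hn0) hpqn, gg_right t hqp hm0 hn0 hqm]
      ring
  calc ∑ p ∈ PC P l T, ∑ m ∈ GT P T (τ1.erase l), ∑ n ∈ GT P T τ2, gg t (p * m) n
      = ∑ p ∈ PC P l T, ∑ m ∈ GT P T (τ1.erase l),
          ∑ q ∈ PC P l T, (if p = q then 0 else ap t p * (starRingEnd ℂ) (ap t q)) *
          ∑ n ∈ GT P T (τ2.erase l), gg t m n :=
        Finset.sum_congr rfl fun p hp => Finset.sum_congr rfl fun m hm => step p hp m hm
    _ = ∑ p ∈ PC P l T, (∑ q ∈ PC P l T, (if p = q then 0 else ap t p * (starRingEnd ℂ) (ap t q))) *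
          ∑ m ∈ GT P T (τ1.erase l), ∑ n ∈ GT P T (τ2.erase l), gg t m n := by
        apply Finset.sum_congr rfl
        intro p _
        rw [Finset.mul_sum]
        apply Finset.sum_congr rfl
        intro m _
        rw [Finset.sum_mul]
    _ = (∑ p ∈ PC P l T, ∑ q ∈ PC P l T, (if p = q then 0 else ap t p * (starRingEnd ℂ) (ap t q))) *
          ∑ m ∈ GT P T (τ1.erase l), ∑ n ∈ GT P T (τ2.erase l), gg t m n := by
        rw [Finset.sum_mul]
    _ = _ := by
        congr 1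
        have e1 : ∀ p ∈ PC P l T, ∑ q ∈ PC P l T, (if p = q then 0 else ap t p * (starRingEnd ℂ) (ap t q)) =
            ap t p * (starRingEnd ℂ) (Pl P l T t) - ((1 / (p : ℝ) : ℝ) : ℂ) := by
          intro p hp
          have e2 : ∀ q ∈ PC P l T, (if p = q then 0 else ap t p * (starRingEnd ℂ) (ap t q)) =
              ap t p * (starRingEnd ℂ) (ap t q) -
                (if p = q then ap t p * (starRingEnd ℂ) (ap t q) else 0) := by
            intro q _
            split_ifs <;> simp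
          rw [Finset.sum_congr rfl e2, Finset.sum_sub_distrib, Finset.sum_ite_eq, if_pos hp, ap_mul_conj,
            ← Finset.mul_sum, Pl_ap, map_sum]
        rw [Finset.sum_congr rfl e1, Finset.sum_sub_distrib, ← Finset.sum_mul, ← Pl_ap, Complex.mul_conj,
          Complex.normSq_eq_norm_sq]
        unfold Wl
        push_cast
        rfl

theorem MM_left {P : Par} {T : ℝ} (hT : 1 < T) (t : ℝ) {τ1 τ2 : Finset ℕ} (h1 : US τ1 ≤ P.G) (h2 : US τ2 ≤ P.G) {l : ℕ}
    (hl1 : l ∈ τ1) (hl2 : l ∉ τ2) :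
    MM P T t τ1 τ2 = -(Pl P l T t) * MM P T t (τ1.erase l) τ2 := by
  rw [MM_gg, MM_gg, GT_sum hT hl1 h1]
  have step : ∀ p ∈ PC P l T, ∀ m ∈ GT P T (τ1.erase l),
      ∑ n ∈ GT P T τ2, gg t (p * m) n = -(ap t p) * ∑ n ∈ GT P T τ2, gg t m n := by
    intro p hp m hm
    rw [Finset.mul_sum]
    apply Finset.sum_congr rfl
    intro n hn
    exact gg_left t (mem_PC_prime hp).1 (GT_ne hm) (GT_ne hn) (GT_ndvd hn hp hl2)
  rw [Finset.sum_congr rfl fun p hp => Finset.sum_congr rfl fun m hm => step p hp m hm]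
  rw [Pl_ap, ← Finset.sum_neg_distrib, Finset.sum_mul]
  apply Finset.sum_congr rfl
  intro p _
  rw [Finset.mul_sum]

theorem MM_right {P : Par} {T : ℝ} (hT : 1 < T) (t : ℝ) {τ1 τ2 : Finset ℕ} (h1 : US τ1 ≤ P.G) (h2 : US τ2 ≤ P.G) {l : ℕ}
    (hl1 : l ∉ τ1) (hl2 : l ∈ τ2) :
    MM P T t τ1 τ2 = -((starRingEnd ℂ) (Pl P l T t)) * MM P T t τ1 (τ2.erase l) := by
  rw [MM_gg, MM_gg]
  have step : ∀ m ∈ GT P T τ1, ∑ n ∈ GT P T τ2, gg t m n =
      -((starRingEnd ℂ) (Pl P l T t)) * ∑ n ∈ GT P T (τ2.erase l), gg t m n := by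
    intro m hm
    rw [GT_sum hT hl2 h2, Pl_ap, map_sum, ← Finset.sum_neg_distrib, Finset.sum_mul]
    apply Finset.sum_congr rfl
    intro q hq
    rw [Finset.mul_sum]
    apply Finset.sum_congr rfl
    intro n hn
    exact gg_right t (mem_PC_prime hq).1 (GT_ne hm) (GT_ne hn) (GT_ndvd hm hq hl1)
  rw [Finset.sum_congr rfl step, Finset.mul_sum]

end Pool.Agent.Helper69.PP
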