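import Pool.Agent.Helper69.PP.F2
import Pool.Agent.Helper4.SH.WSum

/-!
# PP-F3: bound by R

# PP-F: the factorisation of the cell sums

`GT P T τ`: the good numbers of type `τ`. For `l ∈ τ` every element is uniquely `p m'` with `p ∈ PC P l T` and `m'` good of type
`τ \ {l}` (and conversely `p m'` is good of type `τ` as soon as `US τ ≤ G`, because then `p m' ≤ T^(US τ/G) ≤ T`). So for `l` in both types
`MM τ1 τ2 = (|P_l|² - W_l) MM (τ1 \ l) (τ2 \ l)`, for `l` only in `τ1`: `MM τ1 τ2 = - P_l MM (τ1 \ l) τ2`, for `l` only in `τ2`: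
`MM τ1 τ2 = - conj P_l MM τ1 (τ2 \ l)` (primes in distinct cells are distinct, so coprimality concerns only the common cells).
-/

open MeasureTheory Set Filter Topology
open Pool.Agent.Helper57.Zeta Pool.Agent.Helper57.PC Pool.Agent.Helper57.LH Pool.Agent.Helper78.SG
open Pool.Agent.Helper4.SH

namespace Pool.Agent.Helper69.PP

open Pool.Agent.Helper57.LS in
open scoped ArithmeticFunction in
/-- the masses of the cells are at most `1` (the cells are short) -/
theorem Wl_le (P : Par) : ∀ᶠ T : ℝ in atTop, ∀ l ∈ Finset.range (P.G + 1), Wl P l T ≤ 1 := by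
  have hC := CMe_pos
  have hδ := P.hδ
  have hG0 : (0 : ℝ) < P.G := by exact_mod_cast P.hG0
  filter_upwards [eventually_ge_atTop (Real.exp (4 * CMe / P.δ + 1))] with T hT l _
  have hT0 : 0 < T := (Real.exp_pos _).trans_le hT
  have hL1 : 4 * CMe / P.δ + 1 ≤ Real.log T := by
    rw [Real.le_log_iff_exp_le hT0]; exact hT
  have hCδ : 0 < 4 * CMe / P.δ := by positivity
  have hL0 : 0 < Real.log T := by linarith
  set L := Real.log T with hL
  rcases Nat.eq_zero_or_pos l with hl0 | hl0
  · subst hl0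
    have hem : PC P 0 T = ∅ := by
      rw [Finset.eq_empty_iff_forall_notMem]
      intro p hp
      unfold PC at hp
      rw [Finset.mem_filter] at hp
      obtain ⟨hp1, -, hp3⟩ := hp
      have hpr : p.Prime := by
        unfold PP at hp1
        exact (Finset.mem_filter.1 hp1).2
      unfold ce at hp3
      rw [Nat.ceil_eq_zero] at hp3
      have h1 : 0 < Real.log p := Real.log_pos (by exact_mod_cast hpr.one_lt)
      have h2 : 0 < (P.G : ℝ) * Real.log p / Real.log T := by positivity
      linarith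
    unfold Wl
    rw [hem, Finset.sum_empty]
    exact zero_le_one
  · set b : ℝ := l * L / P.G with hb
    set a : ℝ := ((l : ℝ) - 1) * L / P.G with ha
    have hl1 : (1 : ℝ) ≤ l := by exact_mod_cast hl0
    have ha0 : 0 ≤ a := by
      rw [ha]
      have : 0 ≤ (l : ℝ) - 1 := by linarith
      positivity
    have hab : a ≤ b := by
      rw [ha, hb]
      gcongr
      linarith
    have hb0 : 0 ≤ b := ha0.trans hab
    have hba : b - a = L / P.G := by
      rw [hb, ha]
      field_simp
      ring
    have hmem : ∀ p ∈ PC P l T, p.Prime ∧ P.δ * L ≤ Real.log p ∧ (p : ℝ) ≤ Real.exp b ∧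
        Real.exp a < p := by
      intro p hp
      unfold PC at hp
      rw [Finset.mem_filter] at hp
      obtain ⟨hp1, hp2, hp3⟩ := hp
      have hpr : p.Prime := by
        unfold PP at hp1
        exact (Finset.mem_filter.1 hp1).2
      have hp0 : (0 : ℝ) < p := by exact_mod_cast hpr.pos
      refine ⟨hpr, ?_, ?_, ?_⟩
      · have h1 := Real.log_le_log (Real.rpow_pos_of_pos hT0 _) hp2
        rwa [Real.log_rpow hT0] at h1
      · have h1 : (P.G : ℝ) * Real.log p / Real.log T ≤ l := by
          rw [← hp3]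
          exact Nat.le_ceil _
        rw [div_le_iff₀ hL0] at h1
        rw [← Real.log_le_iff_le_exp hp0, hb, le_div_iff₀ hG0]
        linarith
      · have h1 : (l : ℝ) - 1 < (P.G : ℝ) * Real.log p / Real.log T := by
          have h2 : l - 1 < ⌈(P.G : ℝ) * Real.log p / Real.log T⌉₊ := by
            unfold ce at hp3
            omega
          rw [Nat.lt_ceil] at h2
          rwa [Nat.cast_sub hl0, Nat.cast_one] at h2
        rw [lt_div_iff₀ hL0] at h1
        rw [← Real.lt_log_iff_exp_lt hp0, ha, div_lt_iff₀ hG0]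
        linarith
    have h1 : Wl P l T ≤ (P.δ * L)⁻¹ * ∑ n ∈ PC P l T, Λ n / n := by
      unfold Wl
      rw [Finset.mul_sum]
      refine Finset.sum_le_sum fun p hp => ?_
      obtain ⟨hpr, h2, -, -⟩ := hmem p hp
      have hp0 : (0 : ℝ) < p := by exact_mod_cast hpr.pos
      rw [ArithmeticFunction.vonMangoldt_apply_prime hpr]
      have h3 : 0 < P.δ * L := by positivity
      rw [inv_mul_eq_div, div_div, div_le_div_iff₀ hp0 (by positivity)]
      nlinarith
    have h2 : ∑ n ∈ PC P l T, Λ n / n ≤ ∑ n ∈ Finset.range (NX b + 1) \ Finset.range (NX a + 1), Λ n / n := by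
      refine Finset.sum_le_sum_of_subset_of_nonneg ?_ fun n _ _ =>
        div_nonneg ArithmeticFunction.vonMangoldt_nonneg (Nat.cast_nonneg _)
      intro p hp
      obtain ⟨-, -, h3, h4⟩ := hmem p hp
      rw [Finset.mem_sdiff, Finset.mem_range, Finset.mem_range]
      unfold NX
      constructor
      · have := (Nat.le_floor_iff (Real.exp_pos b).le).2 h3
        omega
      · intro h5
        have h6 : p ≤ ⌊Real.exp a⌋₊ := by omega
        have h7 := (Nat.le_floor_iff (Real.exp_pos a).le).1 h6
        linarith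
    have h3 : ∑ n ∈ Finset.range (NX b + 1) \ Finset.range (NX a + 1), Λ n / n =
        (∑ n ∈ Finset.range (NX b + 1), Λ n / n) - ∑ n ∈ Finset.range (NX a + 1), Λ n / n := by
      rw [Finset.sum_sdiff_eq_sub]
      apply Finset.range_subset_range.2
      unfold NX
      have := Nat.floor_le_floor (Real.exp_le_exp.2 hab)
      omega
    have h4 := (abs_le.1 (mertens hb0)).2
    have h5 := (abs_le.1 (mertens ha0)).1
    have h6 : ∑ n ∈ PC P l T, Λ n / n ≤ L / P.G + 2 * CMe := by linarith
    have h7 : Wl P l T ≤ (P.δ * L)⁻¹ * (L / P.G + 2 * CMe) :=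
      h1.trans (mul_le_mul_of_nonneg_left h6 (by positivity))
    have h8 : (P.δ * P.G)⁻¹ ≤ 1 / 4000 := by
      have h9 := P.hG
      have h10 : 1 / P.δ ≤ (⌈1 / P.δ⌉₊ : ℝ) := Nat.le_ceil _
      have h11 := P.he1
      rw [div_le_iff₀ hG0] at h9
      have h12 : 1 / P.δ ≤ P.G / 4000 := by nlinarith
      rw [div_le_iff₀ hδ] at h12
      rw [inv_le_comm₀ (by positivity) (by norm_num)]
      linarith
    have h9 : (P.δ * L)⁻¹ * (2 * CMe) ≤ 1 / 2 := by
      rw [inv_mul_eq_div, div_le_iff₀ (by positivity)]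
      have : 4 * CMe / P.δ ≤ L := by linarith
      rw [div_le_iff₀ hδ] at this
      linarith
    have h10 : (P.δ * L)⁻¹ * (L / P.G) = (P.δ * P.G)⁻¹ := by
      field_simp
    rw [mul_add, h10] at h7
    linarith

theorem Rl_pos (P : Par) (T t : ℝ) (l : ℕ) : 0 < Rl P T t l := by
  unfold Rl
  positivity

theorem MM_empty_le (P : Par) (T t : ℝ) : ‖MM P T t ∅ ∅‖ ≤ 1 := by
  classical
  have h1 : ∀ n ∈ GT P T ∅, n = 1 := by
    intro n hn
    unfold GT at hn
    rw [Finset.mem_filter] at hn
    obtain ⟨-, h2, h3⟩ := hn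
    unfold ty at h3
    rw [Finset.image_eq_empty, Nat.primeFactors_eq_empty] at h3
    rcases h3 with h3 | h3
    · exact absurd h3 h2.1.1
    · exact h3
  unfold MM
  have h2 : ((GT P T ∅) ×ˢ (GT P T ∅)).filter (fun x => Nat.Coprime x.1 x.2) ⊆ {(1, 1)} := by
    intro x hx
    rw [Finset.mem_filter, Finset.mem_product] at hx
    rw [Finset.mem_singleton]
    exact Prod.ext (h1 _ hx.1.1) (h1 _ hx.1.2)
  refine (norm_sum_le _ _).trans ((Finset.sum_le_sum_of_subset_of_nonneg h2
    fun _ _ _ => norm_nonneg _).trans ?_)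
  rw [Finset.sum_singleton, norm_mul, Complex.norm_exp_ofReal_mul_I, mul_one]
  unfold cfn lam
  simp

/-- the bound by the product of the `R_l` -/
theorem MM_le (P : Par) : ∀ᶠ T : ℝ in atTop, ∀ (t : ℝ) (τ1 τ2 : Finset ℕ), US τ1 ≤ P.G → US τ2 ≤ P.G →
    ‖MM P T t τ1 τ2‖ ≤ (∏ l ∈ τ1, Rl P T t l) * ∏ l ∈ τ2, Rl P T t l := by
  classical
  filter_upwards [Wl_le P, eventually_gt_atTop 1] with T hW hT t
  have key : ∀ n : ℕ, ∀ τ1 τ2 : Finset ℕ, τ1.card + τ2.card ≤ n → US τ1 ≤ P.G → US τ2 ≤ P.G →
      ‖MM P T t τ1 τ2‖ ≤ (∏ l ∈ τ1, Rl P T t l) * ∏ l ∈ τ2, Rl P T t l := by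
    intro n
    induction n with
    | zero =>
      intro τ1 τ2 hn _ _
      have e1 : τ1 = ∅ := Finset.card_eq_zero.1 (by omega)
      have e2 : τ2 = ∅ := Finset.card_eq_zero.1 (by omega)
      subst e1 e2
      simpa using MM_empty_le P T t
    | succ n ih =>
      intro τ1 τ2 hn h1 h2
      have hUS : ∀ (τ : Finset ℕ) (l : ℕ), US (τ.erase l) ≤ US τ := fun τ l =>
        Finset.sum_le_sum_of_subset (Finset.erase_subset _ _)
      have hlU : ∀ (τ : Finset ℕ) (l : ℕ), l ∈ τ → l ≤ US τ := fun τ l hl =>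
        Finset.single_le_sum (f := fun l => l) (fun _ _ => Nat.zero_le _) hl
      rcases Finset.eq_empty_or_nonempty τ1 with e1 | ⟨l, hl1⟩
      · rcases Finset.eq_empty_or_nonempty τ2 with e2 | ⟨l, hl2⟩
        · subst e1 e2
          simpa using MM_empty_le P T t
        · have hl1 : l ∉ τ1 := by rw [e1]; simp
          rw [MM_right hT t h1 h2 hl1 hl2, norm_mul, norm_neg, Complex.norm_conj,
            ← Finset.mul_prod_erase τ2 _ hl2]
          have h3 := ih τ1 (τ2.erase l) (by rw [Finset.card_erase_of_mem hl2]; have := Finset.card_pos.2 ⟨l, hl2⟩; omega)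
            h1 ((hUS τ2 l).trans h2)
          have h4 : ‖Pl P l T t‖ ≤ Rl P T t l := by unfold Rl; linarith
          calc ‖Pl P l T t‖ * ‖MM P T t τ1 (τ2.erase l)‖
              ≤ Rl P T t l * ((∏ l ∈ τ1, Rl P T t l) * ∏ l ∈ τ2.erase l, Rl P T t l) :=
                mul_le_mul h4 h3 (norm_nonneg _) (Rl_pos P T t l).le
            _ = _ := by ring
      · have hc1 := Finset.card_pos.2 ⟨l, hl1⟩
        by_cases hl2 : l ∈ τ2
        · have hlG : l ∈ Finset.range (P.G + 1) := by
            rw [Finset.mem_range]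
            have := hlU τ1 l hl1
            omega
          have hWl := hW l hlG
          have hW0 : 0 ≤ Wl P l T := by
            unfold Wl
            exact Finset.sum_nonneg fun p _ => by positivity
          rw [MM_both hT t h1 h2 hl1 hl2, norm_mul, Complex.norm_real, Real.norm_eq_abs,
            ← Finset.mul_prod_erase τ1 _ hl1, ← Finset.mul_prod_erase τ2 _ hl2]
          have h3 := ih (τ1.erase l) (τ2.erase l) (by
            rw [Finset.card_erase_of_mem hl1, Finset.card_erase_of_mem hl2]; omega)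
            ((hUS τ1 l).trans h1) ((hUS τ2 l).trans h2)
          have h4 : |‖Pl P l T t‖ ^ 2 - Wl P l T| ≤ Rl P T t l * Rl P T t l := by
            have h5 := norm_nonneg (Pl P l T t)
            unfold Rl
            rw [abs_le]
            constructor <;> nlinarith
          have h5 := (Rl_pos P T t l).le
          calc |‖Pl P l T t‖ ^ 2 - Wl P l T| * ‖MM P T t (τ1.erase l) (τ2.erase l)‖
              ≤ (Rl P T t l * Rl P T t l) *
                ((∏ l ∈ τ1.erase l, Rl P T t l) * ∏ l ∈ τ2.erase l, Rl P T t l) :=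
                mul_le_mul h4 h3 (norm_nonneg _) (by positivity)
            _ = _ := by ring
        · rw [MM_left hT t h1 h2 hl1 hl2, norm_mul, norm_neg, ← Finset.mul_prod_erase τ1 _ hl1]
          have h3 := ih (τ1.erase l) τ2 (by rw [Finset.card_erase_of_mem hl1]; omega)
            ((hUS τ1 l).trans h1) h2
          have h4 : ‖Pl P l T t‖ ≤ Rl P T t l := by unfold Rl; linarith
          calc ‖Pl P l T t‖ * ‖MM P T t (τ1.erase l) τ2‖
              ≤ Rl P T t l * ((∏ l ∈ τ1.erase l, Rl P T t l) * ∏ l ∈ τ2, Rl P T t l) :=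
                mul_le_mul h4 h3 (norm_nonneg _) (Rl_pos P T t l).le
            _ = _ := by ring
  intro τ1 τ2 h1 h2
  exact key _ τ1 τ2 le_rfl h1 h2

end Pool.Agent.Helper69.PP
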