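import Pool.Agent.Helper69.PP.F3

/-!
# PP-F4: class decomposition

# PP-F: the factorisation of the cell sums

`GT P T τ`: the good numbers of type `τ`. For `l ∈ τ` every element is uniquely `p m'` with `p ∈ PC P l T` and `m'` good of type
`τ \ {l}` (and conversely `p m'` is good of type `τ` as soon as `US τ ≤ G`, because then `p m' ≤ T^(US τ/G) ≤ T`). So for `l` in both types
`MM τ1 τ2 = (|P_l|² - W_l) MM (τ1 \ l) (τ2 \ l)`, for `l` only in `τ1`: `MM τ1 τ2 = - P_l MM (τ1 \ l) τ2`, for `l` only in `τ2`: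
`MM τ1 τ2 = - conj P_l MM τ1 (τ2 \ l)` (primes in distinct cells are distinct, so coprimality concerns only the common cells).
-/

open MeasureTheory Set Filter Topology
open Pool.Agent.Helper57.Zeta Pool.Agent.Helper57.PC Pool.Agent.Helper57.LH Pool.Agent.Helper78.SG
open Pool.Agent.Helper4.SH

namespace Pool.Agent.Helper69.PP

open Classical in
/-- the pairs of types -/
noncomputable def QQ (P : Par) : Finset (Finset ℕ × Finset ℕ) :=
  ((Finset.range (P.G + 1)).powerset ×ˢ (Finset.range (P.G + 1)).powerset).filter (fun q => TA P q.1 ∧ TB P q.2)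

/-- the types of good numbers consist of cells `≤ G` -/
theorem ty_subset (P : Par) {T : ℝ} (hT : 1 < T) {n : ℕ} (h : Gd P T n) :
    ty P.G T n ⊆ Finset.range (P.G + 1) := by
  intro l hl
  unfold ty at hl
  rw [Finset.mem_image] at hl
  obtain ⟨p, hp, rfl⟩ := hl
  rw [Finset.mem_range, Nat.lt_succ_iff]
  unfold ce
  apply Nat.ceil_le.mpr
  have hpp := Nat.prime_of_mem_primeFactors hp
  have hn0 : n ≠ 0 := h.1.1
  have hpn : p ≤ n := Nat.le_of_dvd (Nat.pos_of_ne_zero hn0) (Nat.dvd_of_mem_primeFactors hp)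
  have hpT : (p : ℝ) ≤ T := le_trans (by exact_mod_cast hpn) h.2.2.2
  have hlT : 0 < Real.log T := Real.log_pos hT
  have hlog : Real.log p ≤ Real.log T :=
    Real.log_le_log (by exact_mod_cast hpp.pos) hpT
  rw [div_le_iff₀ hlT]
  exact mul_le_mul_of_nonneg_left hlog (Nat.cast_nonneg _)

open Classical in
/-- the fibre of a pair of types -/
noncomputable def SS (P : Par) (T : ℝ) (q : Finset ℕ × Finset ℕ) : Finset (ℕ × ℕ) :=
  ((GT P T q.1) ×ˢ (GT P T q.2)).filter (fun x => Nat.Coprime x.1 x.2)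

theorem IX_sum {M : Type*} [AddCommMonoid M] (P : Par) {T : ℝ} (hT : 1 < T) (F : ℕ × ℕ → M) :
    ∑ x ∈ IX P T, F x = ∑ q ∈ QQ P, ∑ x ∈ SS P T q, F x := by
  classical
  have hmap : ∀ x ∈ IX P T, (ty P.G T x.1, ty P.G T x.2) ∈ QQ P := by
    intro x hx
    unfold IX NA NB at hx
    rw [Finset.mem_filter, Finset.mem_product, Finset.mem_filter, Finset.mem_filter] at hx
    obtain ⟨⟨⟨_, h1, h2⟩, ⟨_, h3, h4⟩⟩, _⟩ := hx
    unfold QQ
    rw [Finset.mem_filter, Finset.mem_product, Finset.mem_powerset, Finset.mem_powerset]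
    exact ⟨⟨ty_subset P hT h1, ty_subset P hT h3⟩, h2, h4⟩
  rw [← Finset.sum_fiberwise_of_maps_to hmap]
  apply Finset.sum_congr rfl
  intro q hq
  unfold QQ at hq
  rw [Finset.mem_filter] at hq
  apply Finset.sum_congr _ fun _ _ => rfl
  ext x
  unfold IX NA NB SS GT
  simp only [Finset.mem_filter, Finset.mem_product]
  constructor
  · rintro ⟨⟨⟨⟨a1, a2, a3⟩, ⟨b1, b2, b3⟩⟩, hc⟩, he⟩
    have e1 : ty P.G T x.1 = q.1 := congrArg Prod.fst he
    have e2 : ty P.G T x.2 = q.2 := congrArg Prod.snd he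
    exact ⟨⟨⟨a1, a2, e1⟩, ⟨b1, b2, e2⟩⟩, hc⟩
  · rintro ⟨⟨⟨a1, a2, e1⟩, ⟨b1, b2, e2⟩⟩, hc⟩
    refine ⟨⟨⟨⟨a1, a2, ?_⟩, ⟨b1, b2, ?_⟩⟩, hc⟩, Prod.ext e1 e2⟩
    · rw [e1]; exact hq.2.1
    · rw [e2]; exact hq.2.2

theorem SS_ty (P : Par) {T : ℝ} {q : Finset ℕ × Finset ℕ} {x : ℕ × ℕ} (hx : x ∈ SS P T q) :
    ty P.G T x.1 = q.1 ∧ ty P.G T x.2 = q.2 := by
  classical
  unfold SS GT at hx
  simp only [Finset.mem_filter, Finset.mem_product] at hx
  exact ⟨hx.1.1.2.2, hx.1.2.2.2⟩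

theorem re_MM (P : Par) (T t : ℝ) (q r : Finset ℕ × Finset ℕ) :
    (MM P T t q.1 q.2 * (starRingEnd ℂ) (MM P T t r.1 r.2)).re =
      ∑ x ∈ SS P T q, ∑ y ∈ SS P T r, cfn x * cfn y * Real.cos (t * (phn x - phn y)) := by
  classical
  have e : ∀ q : Finset ℕ × Finset ℕ, MM P T t q.1 q.2 =
      ∑ x ∈ SS P T q, (cfn x : ℂ) * Complex.exp (((t * phn x : ℝ) : ℂ) * Complex.I) := by
    intro q
    unfold MM SS
    apply Finset.sum_congr _ fun _ _ => rfl
    ext x
    simp only [Finset.mem_filter]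
  rw [e q, e r, map_sum, Finset.sum_mul_sum, Complex.re_sum]
  apply Finset.sum_congr rfl
  intro x _
  rw [Complex.re_sum]
  apply Finset.sum_congr rfl
  intro y _
  rw [map_mul, Complex.conj_ofReal]
  have h1 : (starRingEnd ℂ) (Complex.exp (((t * phn y : ℝ) : ℂ) * Complex.I)) =
      Complex.exp ((((-(t * phn y)) : ℝ) : ℂ) * Complex.I) := by
    rw [← Complex.exp_conj]
    congr 1
    rw [map_mul, Complex.conj_ofReal, Complex.conj_I]
    push_cast
    ring
  rw [h1]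
  have h2 : (cfn x : ℂ) * Complex.exp (((t * phn x : ℝ) : ℂ) * Complex.I) *
      ((cfn y : ℂ) * Complex.exp ((((-(t * phn y)) : ℝ) : ℂ) * Complex.I)) =
      ((cfn x * cfn y : ℝ) : ℂ) * Complex.exp (((t * (phn x - phn y) : ℝ) : ℂ) * Complex.I) := by
    have h3 : Complex.exp (((t * (phn x - phn y) : ℝ) : ℂ) * Complex.I) =
        Complex.exp (((t * phn x : ℝ) : ℂ) * Complex.I) * Complex.exp ((((-(t * phn y)) : ℝ) : ℂ) * Complex.I) := by
      rw [← Complex.exp_add]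
      congr 1
      push_cast
      ring
    rw [h3]
    push_cast
    ring
  rw [h2, Complex.re_ofReal_mul, Complex.exp_ofReal_mul_I_re]

/-- the decomposition of the class `k` -/
theorem FK_eq (P : Par) (k : ℕ) {T : ℝ} (hT : 1 < T) (t : ℝ) :
    FK P k T t = ∑ z ∈ QT P k, (MM P T t z.1.1 z.1.2 * (starRingEnd ℂ) (MM P T t z.2.1 z.2.2)).re := by
  classical
  have hR : ∑ z ∈ QT P k, (MM P T t z.1.1 z.1.2 * (starRingEnd ℂ) (MM P T t z.2.1 z.2.2)).re =
      ∑ q ∈ QQ P, ∑ r ∈ QQ P, if (((US q.1 : ℤ) - US q.2) - ((US r.1 : ℤ) - US r.2)).natAbs = k then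
        ∑ x ∈ SS P T q, ∑ y ∈ SS P T r, cfn x * cfn y * Real.cos (t * (phn x - phn y)) else 0 := by
    have h1 : QT P k = ((QQ P) ×ˢ (QQ P)).filter
        (fun z => (((US z.1.1 : ℤ) - US z.1.2) - ((US z.2.1 : ℤ) - US z.2.2)).natAbs = k) := by
      ext z
      unfold QT QQ
      simp only [Finset.mem_filter, Finset.mem_product]
    rw [h1, Finset.sum_filter, Finset.sum_product]
    apply Finset.sum_congr rfl
    intro q _
    apply Finset.sum_congr rfl
    intro r _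
    by_cases h : (((US q.1 : ℤ) - US q.2) - ((US r.1 : ℤ) - US r.2)).natAbs = k
    · rw [if_pos h, if_pos h, re_MM]
    · rw [if_neg h, if_neg h]
  rw [hR]
  unfold FK
  rw [IX_sum P hT]
  apply Finset.sum_congr rfl
  intro q _
  rw [Finset.sum_congr rfl fun x _ => IX_sum P hT _, Finset.sum_comm]
  apply Finset.sum_congr rfl
  intro r _
  have h2 : ∀ x ∈ SS P T q, ∀ y ∈ SS P T r,
      dk P T x y = (((US q.1 : ℤ) - US q.2) - ((US r.1 : ℤ) - US r.2)).natAbs := by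
    intro x hx y hy
    obtain ⟨a, b⟩ := SS_ty P hx
    obtain ⟨c, d⟩ := SS_ty P hy
    unfold dk vv
    rw [a, b, c, d]
  by_cases h : (((US q.1 : ℤ) - US q.2) - ((US r.1 : ℤ) - US r.2)).natAbs = k
  · rw [if_pos h]
    apply Finset.sum_congr rfl
    intro x hx
    apply Finset.sum_congr rfl
    intro y hy
    rw [if_pos ((h2 x hx y hy).trans h)]
  · rw [if_neg h]
    apply Finset.sum_eq_zero
    intro x hx
    apply Finset.sum_eq_zero
    intro y hy
    rw [if_neg (fun h3 => h ((h2 x hx y hy).symm.trans h3))]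

theorem TA_le (P : Par) {τ : Finset ℕ} (h : TA P τ) : US τ ≤ P.G := by
  unfold TA at h
  have hG : (0 : ℝ) < P.G := by exact_mod_cast P.hG0
  have he := P.he
  have : (US τ : ℝ) ≤ P.G := by nlinarith
  exact_mod_cast this

theorem TB_le (P : Par) {τ : Finset ℕ} (h : TB P τ) : US τ ≤ P.G := by
  classical
  obtain ⟨σ, hσ, h⟩ := h
  have hG : (0 : ℝ) < P.G := by exact_mod_cast P.hG0
  have he := P.he
  have hsum : US τ = US σ + US (τ \ σ) := by
    unfold US
    rw [← Finset.sum_sdiff hσ, add_comm]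
  have : (US τ : ℝ) ≤ P.G := by
    rw [hsum]
    push_cast
    rcases h with ⟨h1, h2⟩ | ⟨h1, h2⟩ <;> nlinarith
  exact_mod_cast this

theorem FK_le (P : Par) (k : ℕ) : ∀ᶠ T : ℝ in atTop, ∀ t : ℝ, |FK P k T t| ≤
    ∑ z ∈ QT P k, (∏ l ∈ z.1.1, Rl P T t l) * (∏ l ∈ z.1.2, Rl P T t l) *
      ((∏ l ∈ z.2.1, Rl P T t l) * ∏ l ∈ z.2.2, Rl P T t l) := by
  filter_upwards [MM_le P, eventually_gt_atTop (1 : ℝ)] with T hMM hT t
  rw [FK_eq P k hT t]
  refine (Finset.abs_sum_le_sum_abs _ _).trans (Finset.sum_le_sum ?_)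
  intro z hz
  unfold QT at hz
  simp only [Finset.mem_filter, Finset.mem_product] at hz
  obtain ⟨⟨⟨_, ha, hb⟩, ⟨_, hc, hd⟩⟩, _⟩ := hz
  refine (Complex.abs_re_le_norm _).trans ?_
  rw [norm_mul, RCLike.norm_conj]
  have h1 := hMM t z.1.1 z.1.2 (TA_le P ha) (TB_le P hb)
  have h2 := hMM t z.2.1 z.2.2 (TA_le P hc) (TB_le P hd)
  exact mul_le_mul h1 h2 (norm_nonneg _) ((norm_nonneg _).trans h1)

end Pool.Agent.Helper69.PP
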