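import Pool.Agent.Helper69.PP.U1
import Pool.Agent.Helper69.PP.M4
import Pool.Agent.Helper69.PP.F0

/-!
# PP-U2: one quadruple

# PP-U: uniform integrability
-/

open MeasureTheory Set Filter Topology
open Pool.Agent.Helper57.Zeta Pool.Agent.Helper57.PC Pool.Agent.Helper57.LH Pool.Agent.Helper78.SG
open Pool.Agent.Helper4.SH

namespace Pool.Agent.Helper69.PP

private theorem US_sdiff {σ τ : Finset ℕ} (h : σ ⊆ τ) : US τ = US σ + US (τ \ σ) := by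
  unfold US
  rw [← Finset.sum_sdiff h]
  ring

/-- sizes: the case `v ≥ 0` -/
theorem size_third {P : Par} {τ1 τ2 τ1' τ2' : Finset ℕ} (h1 : TA P τ1) (h2 : TB P τ2')
    (hv : 0 ≤ ((US τ1 : ℤ) - US τ2) - ((US τ1' : ℤ) - US τ2')) {k : ℕ}
    (hk : (((US τ1 : ℤ) - US τ2) - ((US τ1' : ℤ) - US τ2')).natAbs = k) :
    ((US τ2 + US τ1' : ℕ) : ℝ) / P.G + ((k + 2 * P.K) / P.G + P.e / 4) ≤ 1 - 1 / 100 := by
  have hG0 : (0 : ℝ) < P.G := by exact_mod_cast P.hG0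
  have he := P.he
  have hkk : (US τ2 + US τ1' + k : ℕ) = US τ1 + US τ2' := by omega
  have hkr : ((US τ2 + US τ1' : ℕ) : ℝ) + k = US τ1 + US τ2' := by exact_mod_cast hkk
  have h2' : (US τ2' : ℝ) ≤ (10 / 21 - 2 * P.e) * P.G := by
    obtain ⟨σ, hσ, h | h⟩ := h2
    · have h3 : (US τ2' : ℝ) = US σ + US (τ2' \ σ) := by exact_mod_cast US_sdiff hσ
      rw [h3]
      nlinarith [h.1, h.2]
    · have h3 : (US τ2' : ℝ) = US σ + US (τ2' \ σ) := by exact_mod_cast US_sdiff hσ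
      rw [h3]
      nlinarith [h.1, h.2]
  have h1' : (US τ1 : ℝ) ≤ (1 / 2 - P.e) * P.G := h1
  have hG : (2 * (P.K : ℝ) + 2) / P.G ≤ P.e / 2 := P.hG
  have hG' : 2 * (P.K : ℝ) ≤ P.e / 2 * P.G := by
    rw [div_le_iff₀ hG0] at hG
    linarith
  have h4 : ((US τ2 + US τ1' : ℕ) : ℝ) / P.G + ((k + 2 * P.K) / P.G + P.e / 4) =
      (US τ1 + US τ2' + 2 * P.K) / P.G + P.e / 4 := by
    rw [← hkr]
    field_simp
    ring
  rw [h4]
  have h5 : ((US τ1 : ℝ) + US τ2' + 2 * P.K) / P.G ≤ 41 / 42 - 5 / 2 * P.e := by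
    rw [div_le_iff₀ hG0]
    nlinarith
  linarith

private theorem Rl_cont (P : Par) (T : ℝ) (l : ℕ) : Continuous (fun t => Rl P T t l) := by
  unfold Rl Pl
  exact continuous_const.add (DP_cont _ _).norm

private theorem Rl_nonneg (P : Par) (T t : ℝ) (l : ℕ) : 0 ≤ Rl P T t l := by
  unfold Rl
  positivity

private theorem core (P : Par) (g : TF) (hg : g.th = 1 / 4) (hg0 : ∀ x, 0 ≤ g.h x) (hg1 : ∀ x, g.h x ≤ 1)
    {τ1 τ2 τ1' τ2' σ : Finset ℕ} (h1 : TA P τ1) (hσ : σ ⊆ τ2') {j1 j2 p0 : ℕ} (hj1 : j1 ≠ 0) (hj2 : j2 ≠ 0) (hp0 : p0 ≠ 0)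
    (hs1 : (US σ : ℝ) ≤ (1 / j1 - P.e) * P.G) (hs2 : (US (τ2' \ σ) : ℝ) ≤ (1 / j2 - P.e) * P.G)
    (hsum : (1 : ℝ) / 4 + 1 / ((2 * j1 : ℕ) : ℝ) + 1 / ((2 * j2 : ℕ) : ℝ) + 1 / 2 + 1 / p0 = 1)
    (Kx : ℝ) (hKx : 0 ≤ Kx) (d : ℕ) {θ : ℝ}
    (hθ : ((US τ2 + US τ1' : ℕ) : ℝ) / P.G + θ ≤ 1 - 1 / 100) :
    (∃ C : ℝ, 0 < C ∧ ∀ᶠ T : ℝ in atTop, ∀ (S : Finset ℕ) (c : ℕ → ℝ), Adm Kx d θ T S c →
      ∫ t, om g.h T t * ((∏ l ∈ τ1, Rl P T t l) * (∏ l ∈ τ2, Rl P T t l) *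
        ((∏ l ∈ τ1', Rl P T t l) * ∏ l ∈ τ2', Rl P T t l) * ‖DP S c t‖) ≤ C * T) ∧
    ∀ ε : ℝ, 0 < ε → ∃ η : ℝ, 0 < η ∧ ∀ᶠ T : ℝ in atTop, ∀ (S : Finset ℕ) (c : ℕ → ℝ), Adm Kx d θ T S c →
      ∀ B : Set ℝ, MeasurableSet B → volume B ≤ ENNReal.ofReal (η * T) →
      ∫ t in B, om g.h T t * ((∏ l ∈ τ1, Rl P T t l) * (∏ l ∈ τ2, Rl P T t l) *
        ((∏ l ∈ τ1', Rl P T t l) * ∏ l ∈ τ2', Rl P T t l) * ‖DP S c t‖) ≤ ε * T := by
  have hG0 : (0 : ℝ) < P.G := by exact_mod_cast P.hG0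
  have he := P.he
  have hj1' : (0 : ℝ) < j1 := by exact_mod_cast Nat.pos_of_ne_zero hj1
  have hj2' : (0 : ℝ) < j2 := by exact_mod_cast Nat.pos_of_ne_zero hj2
  have hmom : ∀ (σ : Finset ℕ) (j : ℕ), j ≠ 0 → (US σ : ℝ) ≤ (1 / j - P.e) * P.G →
      ∃ C : ℝ, 0 < C ∧ ∀ᶠ T : ℝ in atTop, ∫ t, om g.h T t * (∏ l ∈ σ, Rl P T t l) ^ (2 * j) ≤ C * T := by
    intro σ j hj hs
    have hj' : (0 : ℝ) < j := by exact_mod_cast Nat.pos_of_ne_zero hj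
    refine R_mom P g hg hg0 σ j (e1 := j * P.e) (by positivity) ?_
    rw [div_le_iff₀ hG0]
    calc (j : ℝ) * US σ ≤ j * ((1 / j - P.e) * P.G) := by gcongr
      _ = (1 - j * P.e) * P.G := by field_simp
  obtain ⟨C1, hC1, ha⟩ := hmom τ1 2 (by norm_num) (by
    have h1' : (US τ1 : ℝ) ≤ (1 / 2 - P.e) * P.G := h1
    exact_mod_cast h1')
  obtain ⟨C2, hC2, hb1⟩ := hmom σ j1 hj1 hs1
  obtain ⟨C3, hC3, hb2⟩ := hmom (τ2' \ σ) j2 hj2 hs2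
  have hsl : (((τ2.toList ++ τ1'.toList).sum : ℕ) : ℝ) / P.G + θ ≤ 1 - 1 / 100 := by
    have : (τ2.toList ++ τ1'.toList).sum = US τ2 + US τ1' := by
      rw [List.sum_append, Finset.sum_toList, Finset.sum_toList]
      rfl
    rw [this]
    exact hθ
  obtain ⟨C4, hC4, hd⟩ := R_sq P g hg hg0 (τ2.toList ++ τ1'.toList) Kx hKx d (e1 := 1 / 100) (by norm_num) hsl
  set C : ℝ := C1 + C2 + C3 + C4 with hCdef
  have hC : 0 < C := by positivity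
  obtain ⟨C', hC', hmain⟩ := ui_four g hg hg0 hg1 hC (p1 := 2 * j1) (p2 := 2 * j2) (p0 := p0)
    (by omega) (by omega) hp0 hsum
  -- the integrand
  have hint : ∀ (T t : ℝ) (S : Finset ℕ) (c : ℕ → ℝ),
      (∏ l ∈ τ1, Rl P T t l) * (∏ l ∈ τ2, Rl P T t l) *
        ((∏ l ∈ τ1', Rl P T t l) * ∏ l ∈ τ2', Rl P T t l) * ‖DP S c t‖ =
      (∏ l ∈ τ1, Rl P T t l) * (∏ l ∈ σ, Rl P T t l) * (∏ l ∈ τ2' \ σ, Rl P T t l) *
        (((τ2.toList ++ τ1'.toList).map (Rl P T t)).prod * ‖DP S c t‖) := by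
    intro T t S c
    rw [List.map_append, List.prod_append, Finset.prod_map_toList, Finset.prod_map_toList,
      ← Finset.prod_sdiff hσ]
    ring
  have hcontP : ∀ (T : ℝ) (σ : Finset ℕ), Continuous (fun t => ∏ l ∈ σ, Rl P T t l) :=
    fun T σ => continuous_finsetProd _ fun l _ => Rl_cont P T l
  have hposP : ∀ (T t : ℝ) (σ : Finset ℕ), 0 ≤ ∏ l ∈ σ, Rl P T t l :=
    fun T t σ => Finset.prod_nonneg fun l _ => Rl_nonneg P T t l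
  have hlist : ∀ (T t : ℝ), ((τ2.toList ++ τ1'.toList).map (Rl P T t)).prod =
      (∏ l ∈ τ2, Rl P T t l) * ∏ l ∈ τ1', Rl P T t l := by
    intro T t
    rw [List.map_append, List.prod_append, Finset.prod_map_toList, Finset.prod_map_toList]
  have hcontd : ∀ (T : ℝ) (S : Finset ℕ) (c : ℕ → ℝ),
      Continuous (fun t => ((τ2.toList ++ τ1'.toList).map (Rl P T t)).prod * ‖DP S c t‖) := by
    intro T S c
    simp_rw [hlist]
    exact ((hcontP T τ2).mul (hcontP T τ1')).mul (DP_cont S c).norm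
  have hposd : ∀ (T t : ℝ) (S : Finset ℕ) (c : ℕ → ℝ),
      0 ≤ ((τ2.toList ++ τ1'.toList).map (Rl P T t)).prod * ‖DP S c t‖ := by
    intro T t S c
    rw [hlist]
    exact mul_nonneg (mul_nonneg (hposP T t τ2) (hposP T t τ1')) (norm_nonneg _)
  have hle : ∀ {D T : ℝ}, 1 ≤ T → D ≤ C → D * T ≤ C * T := fun h1 h2 =>
    mul_le_mul_of_nonneg_right h2 (by linarith)
  constructor
  · obtain ⟨η, hη, hη'⟩ := hmain 1 one_pos
    refine ⟨C', hC', ?_⟩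
    filter_upwards [ha, hb1, hb2, hd, eventually_ge_atTop 1] with T ha hb1 hb2 hd hT S c hA
    simp_rw [hint]
    refine (hη' T hT _ _ _ _ (hcontP T τ1) (hcontP T σ) (hcontP T (τ2' \ σ)) (hcontd T S c)
      (fun t => hposP T t _) (fun t => hposP T t _) (fun t => hposP T t _) (fun t => hposd T t S c)
      (ha.trans (hle hT (by linarith))) (hb1.trans (hle hT (by linarith)))
      (hb2.trans (hle hT (by linarith))) ((hd S c hA).trans (hle hT (by linarith)))).1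
  · intro ε hε
    obtain ⟨η, hη, hη'⟩ := hmain ε hε
    refine ⟨η, hη, ?_⟩
    filter_upwards [ha, hb1, hb2, hd, eventually_ge_atTop 1] with T ha hb1 hb2 hd hT S c hA B hB hBv
    simp_rw [hint]
    exact (hη' T hT _ _ _ _ (hcontP T τ1) (hcontP T σ) (hcontP T (τ2' \ σ)) (hcontd T S c)
      (fun t => hposP T t _) (fun t => hposP T t _) (fun t => hposP T t _) (fun t => hposd T t S c)
      (ha.trans (hle hT (by linarith))) (hb1.trans (hle hT (by linarith)))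
      (hb2.trans (hle hT (by linarith))) ((hd S c hA).trans (hle hT (by linarith)))).2 B hB hBv

/-- uniform integrability for one quadruple, case `v ≥ 0`: groups `τ1` (exponent 4), the two parts of `τ2'` (exponents `6, 14` or
`8, 10`), and `τ2, τ1', X` (exponent 2) -/
theorem ui_quad_pos (P : Par) (g : TF) (hg : g.th = 1 / 4) (hg0 : ∀ x, 0 ≤ g.h x) (hg1 : ∀ x, g.h x ≤ 1)
    {τ1 τ2 τ1' τ2' : Finset ℕ} (h1 : TA P τ1) (h2' : TB P τ2')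
    (hv : 0 ≤ ((US τ1 : ℤ) - US τ2) - ((US τ1' : ℤ) - US τ2')) {k : ℕ}
    (hk : (((US τ1 : ℤ) - US τ2) - ((US τ1' : ℤ) - US τ2')).natAbs = k) (Kx : ℝ) (hKx : 0 ≤ Kx) (d : ℕ) {θ : ℝ}
    (hθ : θ ≤ (k + 2 * P.K) / P.G + P.e / 4) :
    (∃ C : ℝ, 0 < C ∧ ∀ᶠ T : ℝ in atTop, ∀ (S : Finset ℕ) (c : ℕ → ℝ), Adm Kx d θ T S c →
      ∫ t, om g.h T t * ((∏ l ∈ τ1, Rl P T t l) * (∏ l ∈ τ2, Rl P T t l) *
        ((∏ l ∈ τ1', Rl P T t l) * ∏ l ∈ τ2', Rl P T t l) * ‖DP S c t‖) ≤ C * T) ∧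
    ∀ ε : ℝ, 0 < ε → ∃ η : ℝ, 0 < η ∧ ∀ᶠ T : ℝ in atTop, ∀ (S : Finset ℕ) (c : ℕ → ℝ), Adm Kx d θ T S c →
      ∀ B : Set ℝ, MeasurableSet B → volume B ≤ ENNReal.ofReal (η * T) →
      ∫ t in B, om g.h T t * ((∏ l ∈ τ1, Rl P T t l) * (∏ l ∈ τ2, Rl P T t l) *
        ((∏ l ∈ τ1', Rl P T t l) * ∏ l ∈ τ2', Rl P T t l) * ‖DP S c t‖) ≤ ε * T := by
  have hsz := size_third h1 h2' hv hk
  have hθ' : ((US τ2 + US τ1' : ℕ) : ℝ) / P.G + θ ≤ 1 - 1 / 100 := by linarith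
  obtain ⟨σ, hσ, h | h⟩ := h2'
  · exact core P g hg hg0 hg1 h1 hσ (j1 := 3) (j2 := 7) (p0 := 84) (by norm_num) (by norm_num) (by norm_num)
      (by exact_mod_cast h.1) (by exact_mod_cast h.2) (by norm_num) Kx hKx d hθ'
  · exact core P g hg hg0 hg1 h1 hσ (j1 := 4) (j2 := 5) (p0 := 40) (by norm_num) (by norm_num) (by norm_num)
      (by exact_mod_cast h.1) (by exact_mod_cast h.2) (by norm_num) Kx hKx d hθ'

end Pool.Agent.Helper69.PP
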