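import Pool.Agent.Helper69.PP.U2

/-!
# PP-U3: all quadruples

# PP-U: uniform integrability
-/

open MeasureTheory Set Filter Topology
open Pool.Agent.Helper57.Zeta Pool.Agent.Helper57.PC Pool.Agent.Helper57.LH Pool.Agent.Helper78.SG
open Pool.Agent.Helper4.SH

namespace Pool.Agent.Helper69.PP

/-- the same for all quadruples of class `k` -/
theorem ui_quad (P : Par) (g : TF) (hg : g.th = 1 / 4) (hg0 : ∀ x, 0 ≤ g.h x) (hg1 : ∀ x, g.h x ≤ 1)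
    {k : ℕ} {z : (Finset ℕ × Finset ℕ) × (Finset ℕ × Finset ℕ)} (hz : z ∈ QT P k) (Kx : ℝ) (hKx : 0 ≤ Kx) (d : ℕ) {θ : ℝ}
    (hθ : θ ≤ (k + 2 * P.K) / P.G + P.e / 4) :
    (∃ C : ℝ, 0 < C ∧ ∀ᶠ T : ℝ in atTop, ∀ (S : Finset ℕ) (c : ℕ → ℝ), Adm Kx d θ T S c →
      ∫ t, om g.h T t * ((∏ l ∈ z.1.1, Rl P T t l) * (∏ l ∈ z.1.2, Rl P T t l) *
        ((∏ l ∈ z.2.1, Rl P T t l) * ∏ l ∈ z.2.2, Rl P T t l) * ‖DP S c t‖) ≤ C * T) ∧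
    ∀ ε : ℝ, 0 < ε → ∃ η : ℝ, 0 < η ∧ ∀ᶠ T : ℝ in atTop, ∀ (S : Finset ℕ) (c : ℕ → ℝ), Adm Kx d θ T S c →
      ∀ B : Set ℝ, MeasurableSet B → volume B ≤ ENNReal.ofReal (η * T) →
      ∫ t in B, om g.h T t * ((∏ l ∈ z.1.1, Rl P T t l) * (∏ l ∈ z.1.2, Rl P T t l) *
        ((∏ l ∈ z.2.1, Rl P T t l) * ∏ l ∈ z.2.2, Rl P T t l) * ‖DP S c t‖) ≤ ε * T := by
  classical
  have hz' : (((TA P z.1.1 ∧ TB P z.1.2) ∧ (TA P z.2.1 ∧ TB P z.2.2)) ∧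
      (((US z.1.1 : ℤ) - US z.1.2) - ((US z.2.1 : ℤ) - US z.2.2)).natAbs = k) := by
    unfold QT at hz
    simp only [Finset.mem_filter, Finset.mem_product] at hz
    exact ⟨⟨hz.1.1.2, hz.1.2.2⟩, hz.2⟩
  obtain ⟨⟨⟨hA1, hB1⟩, hA2, hB2⟩, hk⟩ := hz'
  rcases le_total 0 (((US z.1.1 : ℤ) - US z.1.2) - ((US z.2.1 : ℤ) - US z.2.2)) with hv | hv
  · exact ui_quad_pos P g hg hg0 hg1 hA1 hB2 hv hk Kx hKx d hθ
  · have hv' : 0 ≤ (((US z.2.1 : ℤ) - US z.2.2) - ((US z.1.1 : ℤ) - US z.1.2)) := by linarith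
    have hk' : (((US z.2.1 : ℤ) - US z.2.2) - ((US z.1.1 : ℤ) - US z.1.2)).natAbs = k := by omega
    have key := ui_quad_pos P g hg hg0 hg1 hA2 hB1 hv' hk' Kx hKx d hθ
    have e : ∀ (T t : ℝ), ((∏ l ∈ z.2.1, Rl P T t l) * (∏ l ∈ z.2.2, Rl P T t l) *
        ((∏ l ∈ z.1.1, Rl P T t l) * ∏ l ∈ z.1.2, Rl P T t l)) = ((∏ l ∈ z.1.1, Rl P T t l) * (∏ l ∈ z.1.2, Rl P T t l) *
        ((∏ l ∈ z.2.1, Rl P T t l) * ∏ l ∈ z.2.2, Rl P T t l)) := by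
      intro T t
      ring
    simpa only [e] using key

end Pool.Agent.Helper69.PP
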