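import Pool.Agent.Helper69.PP.M1
import Pool.Agent.Helper69.PP.X1

/-!
# PP-X2: prime part

# PP-X: the prime sum as an admissible polynomial plus a bounded function

`pss_eq71`, `prp_eq71` (SH/PPow) give the two sums; the prime powers `p^a`, `a ≥ 2`, contribute at most
`(2M/L) ∑ log p (1/p + p^(-3/2)/(1-p^(-1/2)))`, and `∑_{p ≤ T} log p/p ≤ L + C` (Mertens of Helper57/LS).
-/

open MeasureTheory Set Filter Topology
open Pool.Agent.Helper57.Zeta Pool.Agent.Helper57.PC Pool.Agent.Helper57.LH Pool.Agent.Helper78.SG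
open Pool.Agent.Helper4.SH

namespace Pool.Agent.Helper69.PP

/-- the primes that occur -/
noncomputable def SX (f : TF) (T : ℝ) : Finset ℕ := (PP T).filter (fun p => yy T p ≤ 2 * f.th)

/-- the coefficients of the prime part -/
noncomputable def cX (f : TF) (T : ℝ) (p : ℕ) : ℝ := 2 * ww T p * f.h (yy T p / 2)

private theorem h60_ww_nonneg {T : ℝ} (hT : 1 < T) (n : ℕ) : 0 ≤ ww T n := by
  have hL : 0 < Real.log T := Real.log_pos hT
  unfold ww
  have h1 : 0 ≤ Real.log n := Real.log_natCast_nonneg n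
  positivity

theorem adm_X (f : TF) : ∃ K : ℝ, 0 < K ∧ ∀ T : ℝ, 1 < T → Adm K 1 (2 * f.th) T (SX f T) (cX f T) := by
  obtain ⟨M, hM0, hM⟩ := tf_bdd71 f
  refine ⟨2 * M, by positivity, ?_⟩
  intro T hT n hn
  have hL : 0 < Real.log T := Real.log_pos hT
  have hT0 : 0 < T := by linarith
  unfold SX at hn
  rw [Finset.mem_filter] at hn
  obtain ⟨hn1, hn2⟩ := hn
  have hp : n.Prime := (Finset.mem_filter.1 hn1).2
  have hn0 : (0 : ℝ) < n := by exact_mod_cast hp.pos
  have hl : n.primeFactorsList = [n] := Nat.primeFactorsList_prime hp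
  refine ⟨hp.ne_zero, ?_, ?_, ?_, ?_⟩
  · rw [hl]; simp
  · intro p hpn
    rw [hl, List.mem_singleton] at hpn
    rw [hpn]
    exact hn1
  · have hW : WW T n = ww T n := by
      unfold WW
      rw [hl]
      simp
    rw [hW]
    unfold cX
    have h1 := h60_ww_nonneg hT n
    rw [abs_mul, abs_of_nonneg (by positivity : (0 : ℝ) ≤ 2 * ww T n)]
    calc 2 * ww T n * |f.h (yy T n / 2)| ≤ 2 * ww T n * M :=
          mul_le_mul_of_nonneg_left (hM _) (by positivity)
      _ = 2 * M * ww T n := by ring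
  · unfold yy at hn2
    rw [div_le_iff₀ hL, ← Real.log_rpow hT0] at hn2
    exact (Real.log_le_log_iff hn0 (Real.rpow_pos_of_pos hT0 _)).1 hn2

theorem prp_le (f : TF) {T : ℝ} (hT : 1 < T) (t : ℝ) : |prp f.h 2 T t| ≤ ‖DP (SX f T) (cX f T) t‖ := by
  have hre : prp f.h 2 T t = (DP (SX f T) (cX f T) t).re := by
    unfold DP prp
    rw [Complex.re_sum]
    have h1 : ∀ n : ℕ, ((cX f T n : ℂ) * Complex.exp (((t * Real.log n : ℝ) : ℂ) * Complex.I)).re =
        2 * ww T n * f.h (yy T n / 2) * Real.cos (Real.log n * t) := by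
      intro n
      rw [Complex.re_ofReal_mul, Complex.exp_ofReal_mul_I_re]
      unfold cX
      rw [mul_comm t]
    rw [Finset.sum_congr rfl (fun n _ => h1 n)]
    symm
    unfold SX
    apply Finset.sum_subset (Finset.filter_subset _ _)
    intro n hn hn2
    rw [Finset.mem_filter, not_and, not_le] at hn2
    have h2 := hn2 hn
    have h3 := f.th0
    have h4 : f.h (yy T n / 2) = 0 := by
      apply f.supp
      rw [abs_of_pos (by linarith)]
      linarith
    rw [h4]
    ring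
  rw [hre]
  exact Complex.abs_re_le_norm _

/-- `1 + |pss| ≤ C + |X|` -/
theorem pss_le (f : TF) : ∃ C : ℝ, 0 < C ∧ ∀ᶠ T : ℝ in atTop, ∀ t : ℝ,
    1 + |pss f.h 2 T t| ≤ C * ‖DP {1} (fun _ => 1) t‖ + ‖DP (SX f T) (cX f T) t‖ := by
  obtain ⟨C, hC, h⟩ := pp_bdd f
  refine ⟨1 + C, by linarith, ?_⟩
  filter_upwards [h, eventually_gt_atTop 1] with T hT hT1 t
  have h1 := hT t
  have h2 := prp_le f hT1 t
  rw [DP_one, norm_one, mul_one]
  have h3 : |pss f.h 2 T t| ≤ |pss f.h 2 T t - prp f.h 2 T t| + |prp f.h 2 T t| := by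
    have := abs_add_le (pss f.h 2 T t - prp f.h 2 T t) (prp f.h 2 T t)
    rwa [sub_add_cancel] at this
  linarith

end Pool.Agent.Helper69.PP
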