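import Pool.Agent.Helper69.PP.Zero
import Pool.Agent.Helper69.PP.Window
import Pool.Agent.Helper69.PP.Mean
import Pool.Agent.Helper69.PP.UI
import Pool.Agent.Helper57.PP.Arith53
import Pool.Agent.Helper4.SH.Weights

/-!
# PP: the main theorem: a positive proportion of the zeros is within `0.53` mean spacings of another zero
-/

open MeasureTheory Set Filter Topology
open Pool.Agent.Helper57.Zeta Pool.Agent.Helper57.PC Pool.Agent.Helper57.LH Pool.Agent.Helper78.SG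
open Pool.Agent.Helper4.SH

namespace Pool.Agent.Helper69.PP

theorem main_par (P : Par) {ε0 : ℝ} (hε0 : 0 < ε0)
    (hAR : ∀ᶠ T : ℝ in atTop, (1 - P.c + ε0) * AT P T ≤ BT P T) :
    ∃ p : ℝ, 0 < p ∧ ∀ᶠ T : ℝ in atTop, p * (T * Real.log T) ≤ ∑ ρ ∈ CZc P.c T, mx ρ := by
  obtain ⟨g, hg, hg0, hg1, hOm⟩ := exists_g
  obtain ⟨Om, hOme⟩ : ∃ Om : ℝ, Om = ∫ x, g.h x := ⟨_, rfl⟩
  have hOm0 : 0 < Om := by rw [hOme]; exact hOm
  have hf' : ∀ k : ℕ, ∃ f : TF, k ∈ KR P → KF P k f := by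
    intro k
    by_cases hk : k ∈ KR P
    · obtain ⟨f, hf⟩ := exists_KF P hk
      exact ⟨f, fun _ => hf⟩
    · exact ⟨g, fun h => absurd h hk⟩
  choose f hf using hf'
  obtain ⟨N, hN⟩ : ∃ N : ℝ, N = ((KR P).card : ℝ) + 4 := ⟨_, rfl⟩
  have hN0 : 0 < N := by rw [hN]; positivity
  obtain ⟨ε, hεe⟩ : ∃ ε : ℝ, ε = Om * ε0 / (4 * N) := ⟨_, rfl⟩
  have hε : 0 < ε := by rw [hεe]; positivity
  have hpl : ∀ k : ℕ, ∃ p : ℝ, 0 < p ∧ (k ∈ KR P → ∀ᶠ T : ℝ in atTop, ∑ ρ ∈ CZc P.c T, mx ρ ≤ p * (T * Real.log T) →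
      |(∑ ρ ∈ IZc P.c T, om g.h T (ρ : ℂ).im * (∫ t in ((ρ : ℂ).im - hwc P.c T)..((ρ : ℂ).im + hwc P.c T), FK P k T t)) -
        (P.c * (∫ t, om g.h T t * FK P k T t) - ∫ t, om g.h T t * (FK P k T t * pss (f k).h 2 T t))| ≤ ε * T) := by
    intro k
    by_cases hk : k ∈ KR P
    · have hkf := hf k hk
      obtain ⟨p, hp, h⟩ := part_lower P.hc P.hc1 g (f k) hg hg0 hg1 (s := 2) (Or.inr rfl) (FK P k) (fun T => FK_cont P k T)
        ⟨41 / 42, 16, by norm_num, by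
          filter_upwards [FK_crude P] with T hT t
          exact hT k t⟩
        (ui_FK P g hg hg0 hg1 hkf) (by
          filter_upwards [eventually_gt_atTop 1] with T hT γ
          exact window_FK hkf hT γ) hε
      refine ⟨p, hp, fun _ => ?_⟩
      rw [KF_zero hkf] at h
      exact h
    · exact ⟨1, one_pos, fun h => absurd h hk⟩
  choose p hp hlow using hpl
  have hne : (KR P).Nonempty := ⟨0, by unfold KR; simp⟩
  obtain ⟨p0, hp0, hp0le⟩ : ∃ p0 : ℝ, 0 < p0 ∧ ∀ k ∈ KR P, p0 ≤ p k := by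
    refine ⟨(KR P).inf' hne p, ?_, fun k hk => Finset.inf'_le _ hk⟩
    rw [Finset.lt_inf'_iff]
    exact fun k _ => hp k
  refine ⟨p0, hp0, ?_⟩
  have hall : ∀ᶠ T : ℝ in atTop, ∀ k ∈ KR P, ∑ ρ ∈ CZc P.c T, mx ρ ≤ p k * (T * Real.log T) →
      |(∑ ρ ∈ IZc P.c T, om g.h T (ρ : ℂ).im * (∫ t in ((ρ : ℂ).im - hwc P.c T)..((ρ : ℂ).im + hwc P.c T), FK P k T t)) -
        (P.c * (∫ t, om g.h T t * FK P k T t) - ∫ t, om g.h T t * (FK P k T t * pss (f k).h 2 T t))| ≤ ε * T := by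
    rw [Filter.eventually_all_finset]
    exact fun k hk => hlow k hk
  filter_upwards [hall, upper_c P.hc P.hc1 g hg hg0 (FF P) (fun T => FF_cont P T) (fun T t => FF_nonneg P T t)
    ⟨41 / 42, 16, by norm_num, FF_crude P⟩ hε, mean_FF P g hε, mean_FK P g f (fun k hk => hf k hk) hε, hAR, AT_one_le P,
    eventually_gt_atTop 1] with T h1 h2 h3 h4 h5 h6 hT
  by_contra hcon
  rw [not_le] at hcon
  have hL : 0 < Real.log T := Real.log_pos hT
  have hT0 : 0 < T := by linarith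
  have hTL : 0 ≤ T * Real.log T := by positivity
  have h1' : ∀ k ∈ KR P,
      |(∑ ρ ∈ IZc P.c T, om g.h T (ρ : ℂ).im * (∫ t in ((ρ : ℂ).im - hwc P.c T)..((ρ : ℂ).im + hwc P.c T), FK P k T t)) -
        (P.c * (∫ t, om g.h T t * FK P k T t) - ∫ t, om g.h T t * (FK P k T t * pss (f k).h 2 T t))| ≤ ε * T := by
    intro k hk
    exact h1 k hk (hcon.le.trans (mul_le_mul_of_nonneg_right (hp0le k hk) hTL))
  have hcs : HasCompactSupport (fun t => om g.h T t) := by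
    refine HasCompactSupport.of_support_subset_isCompact (isCompact_Icc (a := 1 / 8 * T) (b := 7 / 8 * T)) ?_
    intro t ht
    exact om_supp g hg hT0 t ht
  have hi : ∀ k, Integrable (fun t => om g.h T t * FK P k T t) := fun k =>
    (((om_cont g T).mul (FK_cont P k T)).integrable_of_hasCompactSupport hcs.mul_right)
  have hsum : ∫ t, om g.h T t * FF P T t = ∑ k ∈ KR P, ∫ t, om g.h T t * FK P k T t := by
    rw [← integral_finsetSum _ (fun k _ => hi k)]
    refine integral_congr_ae (Eventually.of_forall fun t => ?_)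
    simp only [FF_eq, Finset.mul_sum]
  have hwsum : ∑ ρ ∈ IZc P.c T, om g.h T (ρ : ℂ).im *
      (∫ t in ((ρ : ℂ).im - hwc P.c T)..((ρ : ℂ).im + hwc P.c T), FF P T t) =
      ∑ k ∈ KR P, ∑ ρ ∈ IZc P.c T, om g.h T (ρ : ℂ).im *
        (∫ t in ((ρ : ℂ).im - hwc P.c T)..((ρ : ℂ).im + hwc P.c T), FK P k T t) := by
    rw [Finset.sum_comm]
    refine Finset.sum_congr rfl fun ρ _ => ?_
    rw [← Finset.mul_sum, ← intervalIntegral.integral_finsetSum]
    · congr 1
      refine intervalIntegral.integral_congr fun t _ => ?_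
      simp only [FF_eq]
    · intro k _
      exact (FK_cont P k T).intervalIntegrable _ _
  rw [hwsum] at h2
  have hlow' : P.c * (∫ t, om g.h T t * FF P T t) - (∑ k ∈ KR P, ∫ t, om g.h T t * (FK P k T t * pss (f k).h 2 T t)) -
      (KR P).card * (ε * T) ≤ ∑ k ∈ KR P, ∑ ρ ∈ IZc P.c T, om g.h T (ρ : ℂ).im *
        (∫ t in ((ρ : ℂ).im - hwc P.c T)..((ρ : ℂ).im + hwc P.c T), FK P k T t) := by
    rw [hsum, Finset.mul_sum, ← nsmul_eq_mul, ← Finset.sum_const, ← Finset.sum_sub_distrib, ← Finset.sum_sub_distrib]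
    refine Finset.sum_le_sum fun k hk => ?_
    have := (abs_le.mp (h1' k hk)).1
    linarith
  have e3 := abs_le.mp h3
  have e4 := abs_le.mp h4
  rw [← hOme] at e3 e4
  have hc0 := P.hc
  have hc1 := P.hc1
  -- the contradiction
  have hI : (1 - P.c) * (∫ t, om g.h T t * FF P T t) ≤ (1 - P.c) * (T * Om * AT P T + ε * T) :=
    mul_le_mul_of_nonneg_left (by linarith [e3.2]) (by linarith)
  have hkey : T * Om * ((1 - P.c + ε0) * AT P T) ≤ T * Om * BT P T :=
    mul_le_mul_of_nonneg_left h5 (by positivity)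
  have hmain : T * Om * BT P T ≤ (1 - P.c) * (T * Om * AT P T) + (N - 1) * (ε * T) := by
    rw [hN]
    have h7 : (1 - P.c) * (ε * T) ≤ 1 * (ε * T) := mul_le_mul_of_nonneg_right (by linarith) (by positivity)
    nlinarith [e4.2, h2, hlow', hI]
  have hfin : T * Om * (ε0 * AT P T) ≤ N * (ε * T) := by
    have h8 : 0 ≤ ε * T := by positivity
    nlinarith [hkey, hmain]
  have h9 : T * Om * ε0 ≤ T * Om * (ε0 * AT P T) := by
    have h10 : 0 ≤ T * Om * ε0 := by positivity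
    nlinarith
  have h11 : N * (ε * T) = T * Om * ε0 / 4 := by
    rw [hεe]
    field_simp
  have h12 : 0 < T * Om * ε0 := by positivity
  linarith

/-- Main theorem: a positive proportion of the zeros is close. -/
theorem main_close : ∃ p : ℝ, 0 < p ∧ ∀ᶠ T : ℝ in atTop, p * (T * Real.log T) ≤ ∑ ρ ∈ CZc (53 / 100) T, mx ρ := by
  obtain ⟨P, hP, ε0, hε0, h⟩ := Pool.Agent.Helper57.PP.arith_main53
  have := main_par P hε0 h
  rwa [hP] at this

end Pool.Agent.Helper69.PP
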