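import Pool.Agent.Helper69.PP.C3

/-!
# PP-U1: Young and UI

# PP-U: uniform integrability
-/

open MeasureTheory Set Filter Topology
open Pool.Agent.Helper57.Zeta Pool.Agent.Helper57.PC Pool.Agent.Helper57.LH Pool.Agent.Helper78.SG
open Pool.Agent.Helper4.SH

namespace Pool.Agent.Helper69.PP

/-- Young's inequality with exponents `4, p1, p2, 2, p0` -/
theorem young5 {a b1 b2 d K : ℝ} (ha : 0 ≤ a) (hb1 : 0 ≤ b1) (hb2 : 0 ≤ b2) (hd : 0 ≤ d) (hK : 0 ≤ K) {p1 p2 p0 : ℕ}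
    (h1 : p1 ≠ 0) (h2 : p2 ≠ 0) (h0 : p0 ≠ 0) (hsum : (1 : ℝ) / 4 + 1 / p1 + 1 / p2 + 1 / 2 + 1 / p0 = 1) :
    K * (a * b1 * b2 * d) ≤ a ^ 4 / 4 + b1 ^ p1 / p1 + b2 ^ p2 / p2 + d ^ 2 / 2 + K ^ p0 / p0 := by
  have key : ∀ (x : ℝ) (p : ℕ), 0 ≤ x → p ≠ 0 → (x ^ p) ^ ((1 : ℝ) / p) = x := by
    intro x p hx hp
    rw [one_div]
    exact Real.pow_rpow_inv_natCast hx hp
  have h := Real.geom_mean_le_arith_mean_weighted (Finset.univ : Finset (Fin 5))
    ![(1 : ℝ) / (4 : ℕ), 1 / p1, 1 / p2, 1 / (2 : ℕ), 1 / p0]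
    ![a ^ 4, b1 ^ p1, b2 ^ p2, d ^ 2, K ^ p0]
    (by intro i _; fin_cases i <;> simp)
    (by simp only [Fin.sum_univ_five]; simpa using hsum)
    (by intro i _; fin_cases i <;> simp <;> positivity)
  simp only [Fin.prod_univ_five, Fin.sum_univ_five] at h
  have e : ∀ (w0 w1 w2 w3 w4 : ℝ), (![w0, w1, w2, w3, w4] : Fin 5 → ℝ) 0 = w0 ∧
      (![w0, w1, w2, w3, w4] : Fin 5 → ℝ) 1 = w1 ∧ (![w0, w1, w2, w3, w4] : Fin 5 → ℝ) 2 = w2 ∧
      (![w0, w1, w2, w3, w4] : Fin 5 → ℝ) 3 = w3 ∧ (![w0, w1, w2, w3, w4] : Fin 5 → ℝ) 4 = w4 := by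
    intro w0 w1 w2 w3 w4
    exact ⟨rfl, rfl, rfl, rfl, rfl⟩
  obtain ⟨e0, e1, e2, e3, e4⟩ := e ((1 : ℝ) / (4 : ℕ)) (1 / p1) (1 / p2) (1 / (2 : ℕ)) (1 / p0)
  obtain ⟨f0, f1, f2, f3, f4⟩ := e (a ^ 4) (b1 ^ p1) (b2 ^ p2) (d ^ 2) (K ^ p0)
  rw [e0, e1, e2, e3, e4, f0, f1, f2, f3, f4, key a 4 ha (by norm_num), key b1 p1 hb1 h1,
    key b2 p2 hb2 h2, key d 2 hd (by norm_num), key K p0 hK h0] at h
  calc K * (a * b1 * b2 * d) = a * b1 * b2 * d * K := by ring
    _ ≤ _ := h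
    _ = _ := by push_cast; ring

private lemma om_cs (g : TF) (hg : g.th = 1 / 4) {T : ℝ} (hT : 1 ≤ T) :
    ∀ t, t ∉ Icc 0 T → om g.h T t = 0 := by
  intro t ht
  show g.h (t / T - 1 / 2) = 0
  apply g.supp
  rw [hg]
  by_contra h
  push Not at h
  rw [abs_lt] at h
  apply ht
  have hT0 : 0 < T := by linarith
  have h1 : t / T * T = t := div_mul_cancel₀ t hT0.ne'
  constructor
  · nlinarith [h.1, h.2]
  · nlinarith [h.1, h.2]

private lemma om_cont (g : TF) (T : ℝ) : Continuous (om g.h T) := by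
  exact g.smooth.continuous.comp ((continuous_id.div_const T).sub continuous_const)

private lemma int_om (g : TF) (hg : g.th = 1 / 4) {T : ℝ} (hT : 1 ≤ T) {f : ℝ → ℝ} (hf : Continuous f) :
    Integrable (fun t => om g.h T t * f t) := by
  apply ((om_cont g T).mul hf).integrable_of_hasCompactSupport
  apply HasCompactSupport.of_support_subset_isCompact (isCompact_Icc (a := (0 : ℝ)) (b := T))
  intro t ht
  by_contra h
  apply ht
  show om g.h T t * f t = 0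
  rw [om_cs g hg hT t h, zero_mul]

/-- uniform integrability of a product of four functions with moments `4, p1, p2, 2` -/
theorem ui_four (g : TF) (hg : g.th = 1 / 4) (hg0 : ∀ x, 0 ≤ g.h x) (hg1 : ∀ x, g.h x ≤ 1) {C : ℝ} (hC : 0 < C) {p1 p2 p0 : ℕ}
    (h1 : p1 ≠ 0) (h2 : p2 ≠ 0) (h0 : p0 ≠ 0) (hsum : (1 : ℝ) / 4 + 1 / p1 + 1 / p2 + 1 / 2 + 1 / p0 = 1) :
    ∃ C' : ℝ, 0 < C' ∧ (∀ ε : ℝ, 0 < ε → ∃ η : ℝ, 0 < η ∧ ∀ T : ℝ, 1 ≤ T → ∀ a b1 b2 d : ℝ → ℝ,
      Continuous a → Continuous b1 → Continuous b2 → Continuous d →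
      (∀ t, 0 ≤ a t) → (∀ t, 0 ≤ b1 t) → (∀ t, 0 ≤ b2 t) → (∀ t, 0 ≤ d t) →
      ∫ t, om g.h T t * a t ^ 4 ≤ C * T → ∫ t, om g.h T t * b1 t ^ p1 ≤ C * T → ∫ t, om g.h T t * b2 t ^ p2 ≤ C * T →
      ∫ t, om g.h T t * d t ^ 2 ≤ C * T →
      (∫ t, om g.h T t * (a t * b1 t * b2 t * d t) ≤ C' * T) ∧
      ∀ B : Set ℝ, MeasurableSet B → volume B ≤ ENNReal.ofReal (η * T) →
        ∫ t in B, om g.h T t * (a t * b1 t * b2 t * d t) ≤ ε * T) := by
  refine ⟨C + 1, by linarith, ?_⟩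
  intro ε hε
  obtain ⟨K, hKdef⟩ : ∃ K : ℝ, K = 2 * C / ε + 1 := ⟨_, rfl⟩
  have hK0 : 0 < K := by rw [hKdef]; positivity
  have hCK : C / K ≤ ε / 2 := by
    rw [div_le_iff₀ hK0, hKdef]
    have : ε / 2 * (2 * C / ε + 1) = C + ε / 2 := by field_simp
    rw [this]; linarith
  obtain ⟨M, hM⟩ : ∃ M : ℝ, M = K ^ p0 / p0 / K := ⟨_, rfl⟩
  have hp0 : (0 : ℝ) < p0 := by exact_mod_cast Nat.pos_of_ne_zero h0
  have hp1 : (0 : ℝ) < p1 := by exact_mod_cast Nat.pos_of_ne_zero h1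
  have hp2 : (0 : ℝ) < p2 := by exact_mod_cast Nat.pos_of_ne_zero h2
  have hM0 : 0 < M := by rw [hM]; positivity
  refine ⟨ε / (2 * M), by positivity, ?_⟩
  intro T hT a b1 b2 d ca cb1 cb2 cd na nb1 nb2 nd ia ib1 ib2 id'
  have hT0 : 0 < T := by linarith
  have om0 : ∀ t, 0 ≤ om g.h T t := fun t => hg0 _
  have om1 : ∀ t, om g.h T t ≤ 1 := fun t => hg1 _
  -- the sum of the moments
  have hS : Continuous (fun t => a t ^ 4 / 4 + b1 t ^ p1 / p1 + b2 t ^ p2 / p2 + d t ^ 2 / 2) := by fun_prop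
  have hS0 : ∀ t, 0 ≤ a t ^ 4 / 4 + b1 t ^ p1 / p1 + b2 t ^ p2 / p2 + d t ^ 2 / 2 := by
    intro t
    have := na t; have := nb1 t; have := nb2 t; have := nd t
    positivity
  have hSi : ∫ t, om g.h T t * (a t ^ 4 / 4 + b1 t ^ p1 / p1 + b2 t ^ p2 / p2 + d t ^ 2 / 2) ≤ C * T := by
    have e1 : ∀ t, om g.h T t * (a t ^ 4 / 4 + b1 t ^ p1 / p1 + b2 t ^ p2 / p2 + d t ^ 2 / 2)
        = (1 / 4) * (om g.h T t * a t ^ 4) + (1 / p1) * (om g.h T t * b1 t ^ p1)
          + (1 / p2) * (om g.h T t * b2 t ^ p2) + (1 / 2) * (om g.h T t * d t ^ 2) := by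
      intro t; ring
    have i1 : Integrable (fun t => (1 / 4) * (om g.h T t * a t ^ 4)) := (int_om g hg hT (ca.pow 4)).const_mul _
    have i2 : Integrable (fun t => (1 / (p1 : ℝ)) * (om g.h T t * b1 t ^ p1)) := (int_om g hg hT (cb1.pow p1)).const_mul _
    have i3 : Integrable (fun t => (1 / (p2 : ℝ)) * (om g.h T t * b2 t ^ p2)) := (int_om g hg hT (cb2.pow p2)).const_mul _
    have i4 : Integrable (fun t => (1 / 2 : ℝ) * (om g.h T t * d t ^ 2)) := (int_om g hg hT (cd.pow 2)).const_mul _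
    have i12 : Integrable (fun t => (1 / 4) * (om g.h T t * a t ^ 4) + (1 / (p1 : ℝ)) * (om g.h T t * b1 t ^ p1)) := i1.add i2
    have i123 : Integrable (fun t => (1 / 4) * (om g.h T t * a t ^ 4) + (1 / (p1 : ℝ)) * (om g.h T t * b1 t ^ p1)
        + (1 / (p2 : ℝ)) * (om g.h T t * b2 t ^ p2)) := i12.add i3
    simp only [e1]
    rw [integral_add i123 i4, integral_add i12 i3, integral_add i1 i2,
      integral_const_mul, integral_const_mul, integral_const_mul, integral_const_mul]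
    have q1 : (1 / (p1 : ℝ)) * ∫ t, om g.h T t * b1 t ^ p1 ≤ (1 / (p1 : ℝ)) * (C * T) :=
      mul_le_mul_of_nonneg_left ib1 (by positivity)
    have q2 : (1 / (p2 : ℝ)) * ∫ t, om g.h T t * b2 t ^ p2 ≤ (1 / (p2 : ℝ)) * (C * T) :=
      mul_le_mul_of_nonneg_left ib2 (by positivity)
    have q3 : (1 : ℝ) / 4 + 1 / p1 + 1 / p2 + 1 / 2 ≤ 1 := by
      have : (0 : ℝ) < 1 / p0 := by positivity
      linarith
    have q4 : ((1 : ℝ) / 4 + 1 / p1 + 1 / p2 + 1 / 2) * (C * T) ≤ 1 * (C * T) :=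
      mul_le_mul_of_nonneg_right q3 (by positivity)
    nlinarith [ia, id', q1, q2, q4]
  have hP : Continuous (fun t => a t * b1 t * b2 t * d t) := by fun_prop
  have hI := int_om g hg hT hP
  have hSI := int_om g hg hT hS
  have hOI : Integrable (fun t => om g.h T t) := by
    have := int_om g hg hT (continuous_const (y := (1 : ℝ)))
    simpa using this
  have hO : ∫ t, om g.h T t ≤ T := by
    have e1 : ∫ t, om g.h T t = ∫ t in Icc 0 T, om g.h T t := by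
      rw [setIntegral_eq_integral_of_forall_compl_eq_zero]
      intro t ht
      exact om_cs g hg hT t ht
    rw [e1]
    calc ∫ t in Icc 0 T, om g.h T t ≤ ∫ t in Icc 0 T, (1 : ℝ) := by
          apply setIntegral_mono hOI.integrableOn
          · exact integrableOn_const (by simp)
          · exact om1
      _ = T := by simp [hT0.le]
  constructor
  · have hpt : ∀ t, om g.h T t * (a t * b1 t * b2 t * d t)
        ≤ om g.h T t * (a t ^ 4 / 4 + b1 t ^ p1 / p1 + b2 t ^ p2 / p2 + d t ^ 2 / 2) + om g.h T t := by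
      intro t
      have y := young5 (na t) (nb1 t) (nb2 t) (nd t) zero_le_one h1 h2 h0 hsum
      rw [one_mul, one_pow] at y
      have hle : (1 : ℝ) / p0 ≤ 1 := by
        have : (0 : ℝ) < 1 / p1 := by positivity
        have : (0 : ℝ) < 1 / p2 := by positivity
        linarith
      calc om g.h T t * (a t * b1 t * b2 t * d t)
          ≤ om g.h T t * ((a t ^ 4 / 4 + b1 t ^ p1 / p1 + b2 t ^ p2 / p2 + d t ^ 2 / 2) + 1) :=
            mul_le_mul_of_nonneg_left (by linarith) (om0 t)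
        _ = _ := by ring
    calc ∫ t, om g.h T t * (a t * b1 t * b2 t * d t)
        ≤ ∫ t, (om g.h T t * (a t ^ 4 / 4 + b1 t ^ p1 / p1 + b2 t ^ p2 / p2 + d t ^ 2 / 2) + om g.h T t) :=
          integral_mono hI (hSI.add hOI) hpt
      _ = (∫ t, om g.h T t * (a t ^ 4 / 4 + b1 t ^ p1 / p1 + b2 t ^ p2 / p2 + d t ^ 2 / 2))
          + ∫ t, om g.h T t := integral_add hSI hOI
      _ ≤ (C + 1) * T := by linarith
  · intro B hB hvB
    have hfin : volume B < ⊤ := lt_of_le_of_lt hvB ENNReal.ofReal_lt_top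
    have hpt : ∀ t, om g.h T t * (a t * b1 t * b2 t * d t)
        ≤ (1 / K) * (om g.h T t * (a t ^ 4 / 4 + b1 t ^ p1 / p1 + b2 t ^ p2 / p2 + d t ^ 2 / 2))
          + M * om g.h T t := by
      intro t
      have y := young5 (na t) (nb1 t) (nb2 t) (nd t) hK0.le h1 h2 h0 hsum
      have y2 : a t * b1 t * b2 t * d t
          ≤ (1 / K) * (a t ^ 4 / 4 + b1 t ^ p1 / p1 + b2 t ^ p2 / p2 + d t ^ 2 / 2) + M := by
        have : (1 / K) * (K * (a t * b1 t * b2 t * d t)) = a t * b1 t * b2 t * d t := by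
          field_simp
        rw [← this]
        calc (1 / K) * (K * (a t * b1 t * b2 t * d t))
            ≤ (1 / K) * (a t ^ 4 / 4 + b1 t ^ p1 / p1 + b2 t ^ p2 / p2 + d t ^ 2 / 2 + K ^ p0 / p0) :=
              mul_le_mul_of_nonneg_left y (by positivity)
          _ = _ := by rw [hM]; ring
      calc om g.h T t * (a t * b1 t * b2 t * d t)
          ≤ om g.h T t * ((1 / K) * (a t ^ 4 / 4 + b1 t ^ p1 / p1 + b2 t ^ p2 / p2 + d t ^ 2 / 2) + M) :=
            mul_le_mul_of_nonneg_left y2 (om0 t)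
        _ = _ := by ring
    have j1 : IntegrableOn (fun t => (1 / K) * (om g.h T t * (a t ^ 4 / 4 + b1 t ^ p1 / p1 + b2 t ^ p2 / p2 + d t ^ 2 / 2))) B :=
      (hSI.const_mul _).integrableOn
    have j2 : IntegrableOn (fun t => M * om g.h T t) B := (hOI.const_mul _).integrableOn
    have s1 : ∫ t in B, (1 / K) * (om g.h T t * (a t ^ 4 / 4 + b1 t ^ p1 / p1 + b2 t ^ p2 / p2 + d t ^ 2 / 2))
        ≤ (1 / K) * (C * T) := by
      rw [integral_const_mul]
      apply mul_le_mul_of_nonneg_left _ (by positivity)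
      refine le_trans ?_ hSi
      exact setIntegral_le_integral hSI (Eventually.of_forall fun t => mul_nonneg (om0 t) (hS0 t))
    have s2 : ∫ t in B, M * om g.h T t ≤ M * (ε / (2 * M) * T) := by
      rw [integral_const_mul]
      apply mul_le_mul_of_nonneg_left _ hM0.le
      calc ∫ t in B, om g.h T t ≤ ∫ t in B, (1 : ℝ) := by
            apply setIntegral_mono hOI.integrableOn
            · exact integrableOn_const hfin.ne
            · exact om1
        _ = (volume B).toReal := by simp [Measure.real]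
        _ ≤ ε / (2 * M) * T := ENNReal.toReal_le_of_le_ofReal (by positivity) hvB
    calc ∫ t in B, om g.h T t * (a t * b1 t * b2 t * d t)
        ≤ ∫ t in B, ((1 / K) * (om g.h T t * (a t ^ 4 / 4 + b1 t ^ p1 / p1 + b2 t ^ p2 / p2 + d t ^ 2 / 2))
          + M * om g.h T t) := setIntegral_mono hI.integrableOn (j1.add j2) hpt
      _ = _ := integral_add j1 j2
      _ ≤ (1 / K) * (C * T) + M * (ε / (2 * M) * T) := add_le_add s1 s2
      _ = (C / K) * T + ε / 2 * T := by field_simp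
      _ ≤ ε / 2 * T + ε / 2 * T := by
          have := mul_le_mul_of_nonneg_right hCK hT0.le
          linarith
      _ = ε * T := by ring

end Pool.Agent.Helper69.PP
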